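import Pool.Agent.Helper46.Gardner.PlaneC

open MeasureTheory Set Filter Topology

namespace Pool.Agent.Helper46.Gardner

/-- Existence of an invariant mean. -/
def HasMean (G : Type*) [Group G] : Prop :=
  ∃ m : Set G → ℝ, (∀ S, 0 ≤ m S) ∧ m Set.univ = 1 ∧
    (∀ S T : Set G, Disjoint S T → m (S ∪ T) = m S + m T) ∧
    (∀ (g : G) (S : Set G), m ((fun h => g * h) '' S) = m S)

lemma HasMean.of_surj {G G' : Type*} [Group G] [Group G'] (φ : G →* G')
    (hφ : Function.Surjective φ) (h : HasMean G) : HasMean G' := by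
  obtain ⟨m, h1, h2, h3, h4⟩ := h
  refine ⟨fun S => m (φ ⁻¹' S), fun S => h1 _, by
    show m (φ ⁻¹' univ) = 1
    rw [preimage_univ]; exact h2, ?_, ?_⟩
  · intro S T hST
    simp only [preimage_union]
    exact h3 _ _ (hST.preimage φ)
  · intro g' S
    obtain ⟨g, rfl⟩ := hφ g'
    have : φ ⁻¹' ((fun h => φ g * h) '' S) = (fun h => g * h) '' (φ ⁻¹' S) := by
      ext x
      constructor
      · rintro ⟨s, hs, hsx⟩
        refine ⟨g⁻¹ * x, ?_, by simp⟩
        show φ (g⁻¹ * x) ∈ S
        have : φ (g⁻¹ * x) = s := by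
          rw [map_mul, map_inv, ← hsx]
          simp
        rw [this]
        exact hs
      · rintro ⟨y, hy, rfl⟩
        exact ⟨φ y, hy, by simp⟩
    simp only [this]
    exact h4 g _

/-- Boxes. -/
noncomputable def BoxF (N : ℕ) : Finset ((Fin 7 → ℤ) × Bool) :=
  (Fintype.piFinset fun _ => Finset.Icc (-(N : ℤ)) N) ×ˢ Finset.univ

lemma mem_BoxF (N : ℕ) (p : (Fin 7 → ℤ) × Bool) : p ∈ BoxF N ↔ ∀ i, |p.1 i| ≤ N := by
  simp only [BoxF, Finset.mem_product, Fintype.mem_piFinset, Finset.mem_Icc, Finset.mem_univ,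
    and_true, abs_le]

lemma card_BoxF (N : ℕ) : ((BoxF N).card : ℝ) = 2 * (2 * N + 1) ^ 7 := by
  simp only [BoxF, Finset.card_product, Fintype.card_piFinset, Int.card_Icc, Finset.card_univ,
    Fintype.card_bool, Finset.prod_const, Fintype.card_fin]
  have : ((N : ℤ) + 1 - -(N : ℤ)).toNat = 2 * N + 1 := by omega
  rw [this]
  push_cast
  ring

section mean

variable {G : Type*} [Group G] (φ : (Fin 7 → ℤ) × Bool → G)

open Classical in
/-- Number of box points in a set. -/
noncomputable def cnt (N : ℕ) (S : Set G) : ℕ := ((BoxF N).filter (fun p => φ p ∈ S)).card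

/-- Density in a box. -/
noncomputable def dens (N : ℕ) (S : Set G) : ℝ := (cnt φ N S : ℝ) / (BoxF N).card

lemma card_pos (N : ℕ) : (0 : ℝ) < (BoxF N).card := by
  rw [card_BoxF]; positivity

omit [Group G] in
lemma dens_mem (N : ℕ) (S : Set G) : dens φ N S ∈ Icc (0 : ℝ) 1 := by
  have h := card_pos N
  constructor
  · unfold dens; positivity
  · unfold dens
    rw [div_le_one h]
    have : cnt φ N S ≤ (BoxF N).card := by
      classical
      exact Finset.card_filter_le _ _
    exact_mod_cast this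

omit [Group G] in
lemma dens_lim (S : Set G) : ∃ x ∈ Icc (0 : ℝ) 1,
    Tendsto (fun N => dens φ N S) (Ultrafilter.of (atTop : Filter ℕ)) (𝓝 x) := by
  obtain ⟨x, hx, h⟩ := isCompact_Icc.ultrafilter_le_nhds'
    ((Ultrafilter.of (atTop : Filter ℕ)).map (fun N => dens φ N S))
    (s := Icc (0 : ℝ) 1) (Filter.mem_map.2 (Filter.univ_mem' fun N => dens_mem φ N S))
  exact ⟨x, hx, h⟩

/-- The mean. -/
noncomputable def mn (S : Set G) : ℝ := (dens_lim φ S).choose

omit [Group G] in
lemma mn_mem (S : Set G) : mn φ S ∈ Icc (0 : ℝ) 1 := (dens_lim φ S).choose_spec.1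

omit [Group G] in
lemma mn_lim (S : Set G) : Tendsto (fun N => dens φ N S) (Ultrafilter.of (atTop : Filter ℕ))
    (𝓝 (mn φ S)) := (dens_lim φ S).choose_spec.2

lemma ratio_lim (V : ℕ) : Tendsto (fun N : ℕ => ((BoxF (N + V)).card : ℝ) / (BoxF N).card - 1)
    atTop (𝓝 0) := by
  have e : ∀ N : ℕ, ((BoxF (N + V)).card : ℝ) / (BoxF N).card - 1 =
      (1 + 2 * V / (2 * N + 1)) ^ 7 - 1 := by
    intro N
    rw [card_BoxF, card_BoxF]
    have h : (0 : ℝ) < 2 * N + 1 := by positivity
    have h2 : (1 + 2 * (V : ℝ) / (2 * N + 1)) = (2 * (N + V : ℕ) + 1) / (2 * N + 1) := by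
      push_cast
      field_simp
      ring
    rw [h2, div_pow]
    field_simp
  simp only [e]
  have h1 : Tendsto (fun N : ℕ => 2 * (V : ℝ) / (2 * (N : ℝ) + 1)) atTop (𝓝 0) := by
    apply Tendsto.const_div_atTop
    exact tendsto_atTop_add_const_right _ _
      ((tendsto_natCast_atTop_atTop).const_mul_atTop (by norm_num))
  have h2 := ((h1.const_add 1).pow 7).sub_const 1
  simpa using h2

theorem hasMean_of_box (hφ : ∀ g : G, ∃ V : ℕ, ∃ π : (Fin 7 → ℤ) × Bool → (Fin 7 → ℤ) × Bool,
    Function.Injective π ∧ (∀ p, φ (π p) = g * φ p) ∧ ∀ p i, |(π p).1 i| ≤ |p.1 i| + V) :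
    HasMean G := by
  classical
  set U : Ultrafilter ℕ := Ultrafilter.of (atTop : Filter ℕ) with hU
  have hUle : (U : Filter ℕ) ≤ atTop := Ultrafilter.of_le _
  have key : ∀ (g : G) (S : Set G), mn φ ((fun h => g * h) '' S) ≤ mn φ S := by
    intro g S
    obtain ⟨V, π, hπ1, hπ2, hπ3⟩ := hφ g⁻¹
    have hN : ∀ N : ℕ, dens φ N ((fun h => g * h) '' S) ≤
        dens φ N S + (((BoxF (N + V)).card : ℝ) / (BoxF N).card - 1) := by
      intro N
      have hc := card_pos N
      have h1 : cnt φ N ((fun h => g * h) '' S) ≤ cnt φ (N + V) S := by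
        unfold cnt
        refine Finset.card_le_card_of_injOn π ?_ hπ1.injOn
        intro p hp
        simp only [Finset.coe_filter, mem_setOf_eq] at hp ⊢
        obtain ⟨hp1, s, hs, hsp⟩ := hp
        refine ⟨?_, ?_⟩
        · rw [mem_BoxF] at hp1 ⊢
          intro i
          refine (hπ3 p i).trans ?_
          have := hp1 i
          push_cast
          omega
        · rw [hπ2, ← hsp]
          simpa using hs
      have h2 : cnt φ (N + V) S ≤ cnt φ N S + ((BoxF (N + V)).card - (BoxF N).card) := by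
        unfold cnt
        have hsub : (BoxF (N + V)).filter (fun p => φ p ∈ S) ⊆
            (BoxF N).filter (fun p => φ p ∈ S) ∪ (BoxF (N + V) \ BoxF N) := by
          intro p hp
          rw [Finset.mem_filter] at hp
          rw [Finset.mem_union, Finset.mem_filter, Finset.mem_sdiff]
          by_cases h : p ∈ BoxF N
          · exact Or.inl ⟨h, hp.2⟩
          · exact Or.inr ⟨hp.1, h⟩
        have hss : BoxF N ⊆ BoxF (N + V) := by
          intro p hp
          rw [mem_BoxF] at hp ⊢
          intro i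
          have := hp i
          push_cast
          omega
        refine (Finset.card_le_card hsub).trans ((Finset.card_union_le _ _).trans ?_)
        rw [Finset.card_sdiff_of_subset hss]
      have hss : (BoxF N).card ≤ (BoxF (N + V)).card := by
        apply Finset.card_le_card
        intro p hp
        rw [mem_BoxF] at hp ⊢
        intro i
        have := hp i
        push_cast
        omega
      have h3 : (cnt φ N ((fun h => g * h) '' S) : ℝ) ≤ cnt φ N S +
          (((BoxF (N + V)).card : ℝ) - (BoxF N).card) := by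
        have := h1.trans h2
        have h4 : (cnt φ N ((fun h => g * h) '' S) : ℝ) ≤
          ((cnt φ N S + ((BoxF (N + V)).card - (BoxF N).card) : ℕ) : ℝ) := by exact_mod_cast this
        rw [Nat.cast_add, Nat.cast_sub hss] at h4
        exact h4
      unfold dens
      rw [← sub_nonneg]
      have e : (cnt φ N S : ℝ) / (BoxF N).card + (((BoxF (N + V)).card : ℝ) / (BoxF N).card - 1) -
          (cnt φ N ((fun h => g * h) '' S) : ℝ) / (BoxF N).card =
          ((cnt φ N S : ℝ) + (((BoxF (N + V)).card : ℝ) - (BoxF N).card) -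
            cnt φ N ((fun h => g * h) '' S)) / (BoxF N).card := by
        field_simp
      rw [e]
      exact div_nonneg (by linarith) hc.le
    have hl := (mn_lim φ S).add ((ratio_lim V).mono_left hUle)
    rw [add_zero] at hl
    exact le_of_tendsto_of_tendsto (mn_lim φ _) hl (Eventually.of_forall hN)
  refine ⟨mn φ, fun S => (mn_mem φ S).1, ?_, ?_, ?_⟩
  · have h1 : ∀ N, dens φ N univ = 1 := by
      intro N
      have := card_pos N
      unfold dens cnt
      simp only [mem_univ, Finset.filter_true]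
      exact div_self this.ne'
    have h2 := mn_lim φ univ
    simp only [h1] at h2
    exact tendsto_nhds_unique h2 tendsto_const_nhds
  · intro S T hST
    have h1 : ∀ N, dens φ N (S ∪ T) = dens φ N S + dens φ N T := by
      intro N
      unfold dens
      rw [← add_div]
      congr 1
      unfold cnt
      rw [← Nat.cast_add, ← Finset.card_union_of_disjoint]
      · congr 2
        ext p
        simp only [Finset.mem_filter, Finset.mem_union, mem_union]
        tauto
      · rw [Finset.disjoint_filter]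
        intro p _ h1 h2
        exact Set.disjoint_left.1 hST h1 h2
    have h2 := mn_lim φ (S ∪ T)
    simp only [h1] at h2
    exact tendsto_nhds_unique h2 ((mn_lim φ S).add (mn_lim φ T))
  · intro g S
    refine le_antisymm (key g S) ?_
    have h1 := key g⁻¹ ((fun h => g * h) '' S)
    have h2 : (fun h => g⁻¹ * h) '' ((fun h => g * h) '' S) = S := by
      rw [image_image]
      simp
    rwa [h2] at h1

end mean

section group

variable (α : Fin 7 → UnitAddCircle)

/-- Rotations. -/
noncomputable def rotI (θ : UnitAddCircle) : ℂ ≃ᵢ ℂ :=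
  (rotation (AddCircle.toCircle θ)).toIsometryEquiv

/-- Reflections. -/
noncomputable def refI (θ : UnitAddCircle) : ℂ ≃ᵢ ℂ :=
  (Complex.conjLIE.trans (rotation (AddCircle.toCircle θ))).toIsometryEquiv

lemma rotI_apply (θ : UnitAddCircle) (z : ℂ) : rotI θ z = E θ * z := rfl

lemma refI_apply (θ : UnitAddCircle) (z : ℂ) : refI θ z = E θ * (starRingEnd ℂ) z := rfl

/-- The group elements. -/
noncomputable def gI (p : (Fin 7 → ℤ) × Bool) : ℂ ≃ᵢ ℂ :=
  if p.2 then refI (Phi α p.1) else rotI (Phi α p.1)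

/-- Multiplication of parameters. -/
def mulP (p q : (Fin 7 → ℤ) × Bool) : (Fin 7 → ℤ) × Bool :=
  if p.2 then (p.1 - q.1, !q.2) else (p.1 + q.1, q.2)

/-- Inversion of parameters. -/
def invP (p : (Fin 7 → ℤ) × Bool) : (Fin 7 → ℤ) × Bool := if p.2 then p else (-p.1, false)

lemma gI_mul (p q : (Fin 7 → ℤ) × Bool) : gI α p * gI α q = gI α (mulP p q) := by
  obtain ⟨u, ε⟩ := p
  obtain ⟨v, δ⟩ := q
  ext z
  rw [IsometryEquiv.mul_apply]
  cases ε <;> cases δ <;>
    simp only [gI, mulP, if_true, Bool.false_eq_true, if_false, rotI_apply, refI_apply,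
      Bool.not_true, Bool.not_false, Phi_add, E_add, E_neg, map_mul,
      Complex.conj_conj, sub_eq_add_neg, Phi_neg] <;> ring

lemma gI_one : gI α (0, false) = 1 := by
  ext z
  simp only [gI, Bool.false_eq_true, if_false, rotI_apply, Phi_zero, E_zero, one_mul]
  rfl

lemma mulP_inv (p : (Fin 7 → ℤ) × Bool) : mulP (invP p) p = (0, false) := by
  obtain ⟨u, ε⟩ := p
  cases ε <;> simp [mulP, invP]

/-- The amenable group. -/
noncomputable def Gp : Subgroup (ℂ ≃ᵢ ℂ) where
  carrier := range (gI α)
  mul_mem' := by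
    rintro _ _ ⟨p, rfl⟩ ⟨q, rfl⟩
    exact ⟨mulP p q, (gI_mul α p q).symm⟩
  one_mem' := ⟨(0, false), gI_one α⟩
  inv_mem' := by
    rintro _ ⟨p, rfl⟩
    refine ⟨invP p, ?_⟩
    rw [eq_inv_iff_mul_eq_one, gI_mul, mulP_inv, gI_one]

lemma Gp_mean : HasMean (Gp α) := by
  refine hasMean_of_box (fun p => ⟨gI α p, ⟨p, rfl⟩⟩) ?_
  rintro ⟨_, ⟨p0, rfl⟩⟩
  refine ⟨(∑ i, |p0.1 i|).toNat, mulP p0, ?_, ?_, ?_⟩
  · intro p q h
    obtain ⟨u, ε⟩ := p0
    cases ε
    · simpa [mulP, Prod.ext_iff] using h
    · simpa [mulP, Prod.ext_iff] using h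
  · intro p
    apply Subtype.ext
    exact (gI_mul α p0 p).symm
  · intro p i
    have h1 : |p0.1 i| ≤ ∑ i, |p0.1 i| := Finset.single_le_sum (f := fun i => |p0.1 i|)
      (fun _ _ => abs_nonneg _) (Finset.mem_univ i)
    have h2 : 0 ≤ ∑ i, |p0.1 i| := Finset.sum_nonneg fun _ _ => abs_nonneg _
    have h3 : ((∑ i, |p0.1 i|).toNat : ℤ) = ∑ i, |p0.1 i| := Int.toNat_of_nonneg h2
    rw [h3]
    obtain ⟨u, ε⟩ := p0
    cases ε
    · simp only [mulP, Bool.false_eq_true, if_false, Pi.add_apply]
      refine (abs_add_le _ _).trans ?_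
      simp only at h1
      linarith
    · simp only [mulP, if_true, Pi.sub_apply]
      refine (abs_sub _ _).trans ?_
      simp only at h1
      linarith

end group

end Pool.Agent.Helper46.Gardner
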