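import Pool.Agent.Helper46.Gardner.Sys

open MeasureTheory Set Filter Topology

namespace Pool.Agent.Helper46.Gardner

variable {α : Fin 7 → UnitAddCircle}

/-- The relation between cluster coordinates. -/
def Krel (L y y' : ℝ) : Prop := ∃ n : ℤ, y' = y + n * L ∨ y' = -y + n * L

lemma Krel_symm {L y y' : ℝ} (h : Krel L y y') : Krel L y' y := by
  obtain ⟨n, h | h⟩ := h
  · exact ⟨-n, Or.inl (by push_cast; linarith)⟩
  · exact ⟨n, Or.inr (by linarith)⟩

lemma Krel_trans {L y y' y'' : ℝ} (h : Krel L y y') (h' : Krel L y' y'') : Krel L y y'' := by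
  obtain ⟨n, h | h⟩ := h <;> obtain ⟨m, h' | h'⟩ := h'
  · exact ⟨n + m, Or.inl (by push_cast; linarith)⟩
  · exact ⟨m - n, Or.inr (by push_cast; linarith)⟩
  · exact ⟨n + m, Or.inr (by push_cast; linarith)⟩
  · exact ⟨m - n, Or.inl (by push_cast; linarith)⟩

open Classical in
/-- Indicator of a cluster. -/
noncomputable def chi (L k y : ℝ) : ℤ := if Krel L k y then 1 else 0

lemma chi_congr {L k y y' : ℝ} (h : Krel L y y') : chi L k y = chi L k y' := by
  have : Krel L k y = Krel L k y' :=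
    propext ⟨fun h1 => Krel_trans h1 h, fun h1 => Krel_trans h1 (Krel_symm h)⟩
  unfold chi
  rw [this]

lemma chi_ne_zero {L k y : ℝ} (h : chi L k y ≠ 0) : Krel L k y := by
  unfold chi at h
  by_contra hcon
  exact h (if_neg hcon)

/-- Cluster coordinate. -/
noncomputable def rho (l : Lev α) (v : ℕ × ℕ × ℝ) : ℝ := v.2.2 - (sec l.q1 v.1 : ℝ) * l.τ

open Classical in
/-- Crossing sign. -/
noncomputable def eps (l : Lev α) (m : ℕ × ℕ × ℝ → ℕ × ℕ × ℝ) (a : ℕ × ℕ × ℝ) : ℤ :=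
  if 1 ≤ a.1 ∧ 1 ≤ (m a).1 ∧ (m a).2.2 = a.2.2 then sec l.q1 (m a).1 - sec l.q1 a.1 else 0

/-- The flow through the first loop. -/
noncomputable def F1 (l : Lev α) (m : ℕ × ℕ × ℝ → ℕ × ℕ × ℝ) (x : ℝ) : ℤ :=
  ∑ j ∈ Finset.range l.q1, eps l m (j, 0, x)

lemma sec_cases (q j : ℕ) : sec q j = 0 ∨ sec q j = 1 := by
  unfold sec
  split_ifs
  · right; rfl
  · left; rfl

lemma sec_zero (q : ℕ) : sec q 0 = 0 := by
  unfold sec
  rw [if_neg (by omega)]

/-- Admissible matchings. -/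
structure Adm (l : Lev α) (m : ℕ × ℕ × ℝ → ℕ × ℕ × ℝ) : Prop where
  bij : BijOn m (VA l) (VB l)
  edge : ∀ a ∈ VA l, Krel l.L (rho l a) (rho l (m a)) ∨
    (1 ≤ a.1 ∧ 1 ≤ (m a).1 ∧ (m a).2.2 = a.2.2)

lemma chi_term (l : Lev α) (m : ℕ × ℕ × ℝ → ℕ × ℕ × ℝ) (hm : Adm l m) (k : ℝ)
    (a : ℕ × ℕ × ℝ) (ha : a ∈ VA l) :
    chi l.L k (rho l a) - chi l.L k (rho l (m a)) =
      (chi l.L k a.2.2 - chi l.L k (a.2.2 - l.τ)) * eps l m a := by
  by_cases hP : 1 ≤ a.1 ∧ 1 ≤ (m a).1 ∧ (m a).2.2 = a.2.2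
  · unfold eps
    rw [if_pos hP]
    unfold rho
    rw [hP.2.2]
    rcases sec_cases l.q1 a.1 with h1 | h1 <;> rcases sec_cases l.q1 (m a).1 with h2 | h2 <;>
      rw [h1, h2] <;> simp
  · unfold eps
    rw [if_neg hP, mul_zero]
    rcases hm.edge a ha with h | h
    · rw [chi_congr h, sub_self]
    · exact absurd h hP

lemma int_zero {L : ℝ} (hL : 0 < L) {n : ℤ} (h1 : -L < n * L) (h2 : n * L < L) : n = 0 := by
  have h3 : (n : ℝ) < 1 := by
    by_contra hcon
    push Not at hcon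
    nlinarith
  have h4 : (-1 : ℝ) < n := by
    by_contra hcon
    push Not at hcon
    nlinarith
  have h5 : n < 1 := by exact_mod_cast h3
  have h6 : -1 < n := by exact_mod_cast h4
  omega

lemma int_one {L : ℝ} (hL : 0 < L) {n : ℤ} (h1 : 0 < n * L) (h2 : n * L < 2 * L) : n = 1 := by
  have h3 : (n : ℝ) < 2 := by
    by_contra hcon
    push Not at hcon
    nlinarith
  have h4 : (0 : ℝ) < n := by
    by_contra hcon
    push Not at hcon
    nlinarith
  have h5 : n < 2 := by exact_mod_cast h3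
  have h6 : 0 < n := by exact_mod_cast h4
  omega

lemma Krel_x1 {L k x : ℝ} (hk : 0 < k) (hkL : k < L / 2) (hx : 0 < x) (hxL : x < L) :
    Krel L k x ↔ x = k ∨ x = L - k := by
  constructor
  · rintro ⟨n, h | h⟩
    · left
      have := int_zero (n := n) (show 0 < L by linarith) (by linarith) (by linarith)
      rw [this] at h
      push_cast at h
      linarith
    · right
      have := int_one (n := n) (show 0 < L by linarith) (by linarith) (by linarith)
      rw [this] at h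
      push_cast at h
      linarith
  · rintro (h | h)
    · exact ⟨0, Or.inl (by push_cast; linarith)⟩
    · exact ⟨1, Or.inr (by push_cast; linarith)⟩

lemma Krel_x2 {L τ k x : ℝ} (hk : 0 < k) (hkL : k < L / 2) (hτ : 0 < τ) (hτL : 2 * τ < L)
    (hx : τ / 2 < x) (hxL : x < (L + τ) / 2) :
    Krel L k (x - τ) ↔ x = τ + k ∨ x = τ - k := by
  constructor
  · rintro ⟨n, h | h⟩
    · left
      have := int_zero (n := n) (show 0 < L by linarith) (by linarith) (by linarith)
      rw [this] at h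
      push_cast at h
      linarith
    · right
      have := int_zero (n := n) (show 0 < L by linarith) (by linarith) (by linarith)
      rw [this] at h
      push_cast at h
      linarith
  · rintro (h | h)
    · exact ⟨0, Or.inl (by push_cast; linarith)⟩
    · exact ⟨0, Or.inr (by push_cast; linarith)⟩

lemma Krel_y {L k y : ℝ} (hk : 0 < k) (hkL : k < L / 2) (hy : 0 < y) (hyL : y < L / 2) :
    Krel L k y ↔ y = k := by
  rw [Krel_x1 hk hkL hy (by linarith)]
  constructor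
  · rintro (h | h)
    · exact h
    · linarith
  · intro h
    exact Or.inl h

/-- Common vertices. -/
def V0 (l : Lev α) : Set (ℕ × ℕ × ℝ) :=
  {v | (v.2.1 = 0 ∧ 1 ≤ v.1 ∧ v.1 < l.q1 ∧ v.2.2 ∈ X1 l) ∨
    (v.1 = 0 ∧ 1 ≤ v.2.1 ∧ v.2.1 < l.q2 ∧ v.2.2 ∈ X2 l)}

/-- Base vertices over a set. -/
def Bs (X : Set ℝ) : Set (ℕ × ℕ × ℝ) := {v | v.1 = 0 ∧ v.2.1 = 0 ∧ v.2.2 ∈ X}

lemma VA_eq (l : Lev α) : VA l = V0 l ∪ Bs (X1 l) := by
  have := l.hq1
  ext ⟨j1, j2, x⟩
  constructor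
  · rintro (⟨h1, h2, h3⟩ | h)
    · simp only at h1 h2 h3
      rcases Nat.eq_zero_or_pos j1 with h | h
      · exact Or.inr ⟨h, h1, h3⟩
      · exact Or.inl (Or.inl ⟨h1, h, h2, h3⟩)
    · exact Or.inl (Or.inr h)
  · rintro ((⟨h1, h2, h3, h4⟩ | h) | ⟨h1, h2, h3⟩)
    · exact Or.inl ⟨h1, h3, h4⟩
    · exact Or.inr h
    · simp only at h1 h2 h3
      exact Or.inl ⟨h2, by show j1 < l.q1; omega, h3⟩

lemma VB_eq (l : Lev α) : VB l = V0 l ∪ Bs (B0 l) := by
  ext v
  simp only [VB, V0, Bs, mem_union, mem_setOf_eq]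
  tauto

lemma disj0 (l : Lev α) (X : Set ℝ) : Disjoint (V0 l) (Bs X) := by
  rw [Set.disjoint_left]
  rintro ⟨j1, j2, x⟩ h ⟨h1, h2, -⟩
  simp only at h1 h2
  rcases h with ⟨-, h3, -⟩ | ⟨-, h3, -⟩
  · simp only at h3
    omega
  · simp only at h3
    omega

/-- A finite box containing the relevant vertices. -/
noncomputable def Dbox (l : Lev α) (k : ℝ) : Finset (ℕ × ℕ × ℝ) :=
  Finset.range l.q1 ×ˢ Finset.range l.q2 ×ˢ ({k, l.L - k, l.τ + k, l.τ - k} : Finset ℝ)

lemma mem_Dbox (l : Lev α) {k : ℝ} (hk : 0 < k) (hkL : k < l.L / 2) {v : ℕ × ℕ × ℝ}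
    (hv : v ∈ VA l ∪ VB l) (h : chi l.L k (rho l v) ≠ 0) : v ∈ Dbox l k := by
  obtain ⟨j1, j2, x⟩ := v
  have hK := chi_ne_zero h
  have hVV : (j1, j2, x) ∈ VV l := by
    rcases hv with hv | hv
    · exact VA_sub l hv
    · exact VB_sub l hv
  obtain ⟨⟨h1, h2, -⟩, h3, h4⟩ := hVV
  simp only at h1 h2 h3 h4
  have hx : x = k ∨ x = l.L - k ∨ x = l.τ + k ∨ x = l.τ - k := by
    unfold rho at hK
    simp only at hK
    rcases sec_cases l.q1 j1 with hs | hs
    · rw [hs] at hK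
      simp only [Int.cast_zero, zero_mul, sub_zero] at hK
      rcases (Krel_x1 hk hkL h3 h4).1 hK with h | h
      · exact Or.inl h
      · exact Or.inr (Or.inl h)
    · rw [hs] at hK
      simp only [Int.cast_one, one_mul] at hK
      have hj1 : j1 ≠ 0 := by
        rintro rfl
        rw [sec_zero] at hs
        omega
      have hxX : x ∈ X1 l := by
        rcases hv with (⟨-, -, h5⟩ | ⟨h5, -⟩) | (⟨-, -, -, h5⟩ | ⟨h5, -⟩ | ⟨h5, -⟩)
        · exact h5
        · exact absurd h5 hj1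
        · exact h5
        · exact absurd h5 hj1
        · exact absurd h5 hj1
      rcases (Krel_x2 hk hkL l.hτ l.hτL hxX.1 hxX.2.1).1 hK with h | h
      · exact Or.inr (Or.inr (Or.inl h))
      · exact Or.inr (Or.inr (Or.inr h))
  simp only [Dbox, Finset.mem_product, Finset.mem_range, Finset.mem_insert, Finset.mem_singleton]
  exact ⟨h1, h2, hx⟩

/-- The cluster identity. -/
lemma cluster (l : Lev α) (m : ℕ × ℕ × ℝ → ℕ × ℕ × ℝ) (hm : Adm l m) (k : ℝ) (hk : k ∈ B0 l)
    (S1 S2 : Finset ℝ) (hS1 : ∀ x, x ∈ S1 ↔ x ∈ X1 l ∧ Krel l.L k x)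
    (hS2 : ∀ x, x ∈ S2 ↔ x ∈ X1 l ∧ Krel l.L k (x - l.τ)) :
    (S1.card : ℤ) - 1 = ∑ x ∈ S1, F1 l m x - ∑ x ∈ S2, F1 l m x := by
  classical
  obtain ⟨hk0, hkL, hkN⟩ := hk
  have hτ := l.hτ
  have hτL := l.hτL
  set f : ℕ × ℕ × ℝ → ℤ := fun v => chi l.L k (rho l v) with hf
  set g : ℕ × ℕ × ℝ → ℤ := fun v => chi l.L k (rho l (m v)) with hg
  set h : ℕ × ℕ × ℝ → ℤ := fun v => (chi l.L k v.2.2 - chi l.L k (v.2.2 - l.τ)) * eps l m v with hh
  have fA : (VA l ∩ Function.support f).Finite := by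
    refine (Dbox l k).finite_toSet.subset ?_
    rintro v ⟨hv, hv2⟩
    exact mem_Dbox l hk0 hkL (Or.inl hv) hv2
  have fB : (VB l ∩ Function.support f).Finite := by
    refine (Dbox l k).finite_toSet.subset ?_
    rintro v ⟨hv, hv2⟩
    exact mem_Dbox l hk0 hkL (Or.inr hv) hv2
  have gA : (VA l ∩ Function.support g).Finite := by
    refine Set.Finite.of_injOn (f := m) (t := VB l ∩ Function.support f) ?_ ?_ fB
    · rintro v ⟨hv, hv2⟩
      exact ⟨hm.bij.mapsTo hv, hv2⟩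
    · exact hm.bij.injOn.mono inter_subset_left
  have e1 : ∑ᶠ v ∈ VA l, g v = ∑ᶠ v ∈ VB l, f v :=
    finsum_mem_eq_of_bijOn m hm.bij (fun _ _ => rfl)
  have hfgh : ∀ v ∈ VA l, f v = h v + g v := by
    intro v hv
    have := chi_term l m hm k v hv
    simp only [hf, hg, hh]
    linarith
  have hA : (VA l ∩ Function.support h).Finite := by
    refine (fA.union gA).subset ?_
    rintro v ⟨hv, hv2⟩
    by_cases h0 : f v = 0
    · right
      refine ⟨hv, ?_⟩
      rw [Function.mem_support] at hv2 ⊢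
      intro h3
      have := hfgh v hv
      rw [h0, h3] at this
      exact hv2 (by linarith)
    · left
      exact ⟨hv, h0⟩
  have e2 : ∑ᶠ v ∈ VA l, f v = ∑ᶠ v ∈ VA l, h v + ∑ᶠ v ∈ VA l, g v := by
    rw [← finsum_mem_add_distrib' hA gA]
    exact finsum_mem_congr rfl hfgh
  -- difference at the base
  have e3 : ∑ᶠ v ∈ VA l, f v = ∑ᶠ v ∈ V0 l, f v + ∑ᶠ v ∈ Bs (X1 l), f v := by
    rw [VA_eq]
    rw [VA_eq] at fA
    exact finsum_mem_union' (disj0 l _) (fA.subset (by
      rintro v ⟨hv, hv2⟩; exact ⟨Or.inl hv, hv2⟩)) (fA.subset (by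
      rintro v ⟨hv, hv2⟩; exact ⟨Or.inr hv, hv2⟩))
  have e4 : ∑ᶠ v ∈ VB l, f v = ∑ᶠ v ∈ V0 l, f v + ∑ᶠ v ∈ Bs (B0 l), f v := by
    rw [VB_eq]
    rw [VB_eq] at fB
    exact finsum_mem_union' (disj0 l _) (fB.subset (by
      rintro v ⟨hv, hv2⟩; exact ⟨Or.inl hv, hv2⟩)) (fB.subset (by
      rintro v ⟨hv, hv2⟩; exact ⟨Or.inr hv, hv2⟩))
  have frho : ∀ x : ℝ, f (0, 0, x) = chi l.L k x := by
    intro x
    simp only [hf, rho, sec_zero]
    simp
  have e5 : ∑ᶠ v ∈ Bs (X1 l), f v = S1.card := by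
    rw [finsum_mem_eq_sum_of_inter_support_eq (t := S1.image (fun x => ((0 : ℕ), (0 : ℕ), x)))]
    · rw [Finset.sum_image (by intro x _ y _ h; simpa using h)]
      have : ∀ x ∈ S1, f (0, 0, x) = 1 := by
        intro x hx
        rw [frho]
        unfold chi
        rw [if_pos ((hS1 x).1 hx).2]
      rw [Finset.sum_congr rfl this]
      simp
    · ext ⟨j1, j2, x⟩
      simp only [Bs, mem_inter_iff, mem_setOf_eq, Function.mem_support, Finset.coe_image,
        mem_image, Finset.mem_coe, Prod.mk.injEq]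
      constructor
      · rintro ⟨⟨h1, h2, h3⟩, h4⟩
        subst h1
        subst h2
        refine ⟨⟨x, ?_, rfl, rfl, rfl⟩, h4⟩
        rw [hS1]
        rw [frho] at h4
        exact ⟨h3, chi_ne_zero h4⟩
      · rintro ⟨⟨y, h1, h2, h3, h4⟩, h5⟩
        subst h2
        subst h3
        subst h4
        exact ⟨⟨rfl, rfl, ((hS1 y).1 h1).1⟩, h5⟩
  have e6 : ∑ᶠ v ∈ Bs (B0 l), f v = 1 := by
    rw [finsum_mem_eq_sum_of_inter_support_eq (t := {((0 : ℕ), (0 : ℕ), k)})]
    · rw [Finset.sum_singleton, frho]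
      unfold chi
      rw [if_pos ⟨0, Or.inl (by push_cast; ring)⟩]
    · ext ⟨j1, j2, x⟩
      simp only [Bs, mem_inter_iff, mem_setOf_eq, Function.mem_support, Finset.coe_singleton,
        mem_singleton_iff, Prod.mk.injEq]
      constructor
      · rintro ⟨⟨h1, h2, h3⟩, h4⟩
        subst h1
        subst h2
        rw [frho] at h4
        refine ⟨⟨rfl, rfl, (Krel_y hk0 hkL h3.1 h3.2.1).1 (chi_ne_zero h4)⟩, ?_⟩
        rw [frho]; exact h4
      · rintro ⟨⟨h1, h2, h3⟩, h4⟩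
        subst h1
        subst h2
        subst h3
        exact ⟨⟨rfl, rfl, hk0, hkL, hkN⟩, h4⟩
  -- the flow side
  set S := S1 ∪ S2 with hS
  have e7 : ∑ᶠ v ∈ VA l, h v = ∑ x ∈ S, ∑ j ∈ Finset.range l.q1, h (j, 0, x) := by
    rw [finsum_mem_eq_sum_of_inter_support_eq
      (t := (S ×ˢ Finset.range l.q1).image (fun p : ℝ × ℕ => (p.2, (0 : ℕ), p.1)))]
    · rw [Finset.sum_image (by
        rintro ⟨x, j⟩ _ ⟨y, i⟩ _ h
        simp only [Prod.mk.injEq] at h
        simp [h.1, h.2.2])]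
      rw [Finset.sum_product]
    · ext ⟨j1, j2, x⟩
      simp only [mem_inter_iff, Function.mem_support, Finset.coe_image, mem_image, Finset.mem_coe,
        Finset.mem_product, Finset.mem_range, Prod.mk.injEq, Prod.exists]
      constructor
      · rintro ⟨hv, h4⟩
        refine ⟨?_, h4⟩
        have hchi : chi l.L k x - chi l.L k (x - l.τ) ≠ 0 := fun h0 => h4 (by
          simp only [hh, h0, zero_mul])
        have heps : eps l m (j1, j2, x) ≠ 0 := fun h0 => h4 (by
          simp only [hh, h0, mul_zero])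
        have hP : 1 ≤ j1 := by
          by_contra hcon
          apply heps
          unfold eps
          rw [if_neg]
          rintro ⟨h1, -⟩
          exact hcon h1
        have hX : j2 = 0 ∧ j1 < l.q1 ∧ x ∈ X1 l := by
          rcases hv with ⟨h1, h2, h3⟩ | ⟨h1, -⟩
          · exact ⟨h1, h2, h3⟩
          · simp only at h1; omega
        refine ⟨x, j1, ⟨?_, hX.2.1⟩, rfl, hX.1.symm, rfl⟩
        rw [hS, Finset.mem_union, hS1, hS2]
        by_contra hcon
        push Not at hcon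
        apply hchi
        unfold chi
        rw [if_neg (hcon.1 hX.2.2), if_neg (hcon.2 hX.2.2)]
        rfl
      · rintro ⟨⟨y, i, ⟨h1, h2⟩, h3, h4, h5⟩, h6⟩
        subst h3
        subst h4
        subst h5
        refine ⟨Or.inl ⟨rfl, h2, ?_⟩, h6⟩
        show y ∈ X1 l
        rw [hS, Finset.mem_union, hS1, hS2] at h1
        rcases h1 with h1 | h1
        · exact h1.1
        · exact h1.1
  have e8 : ∀ x ∈ S, ∑ j ∈ Finset.range l.q1, h (j, 0, x) =
      chi l.L k x * F1 l m x - chi l.L k (x - l.τ) * F1 l m x := by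
    intro x _
    simp only [hh, F1]
    rw [← Finset.mul_sum]
    ring
  rw [Finset.sum_congr rfl e8, Finset.sum_sub_distrib] at e7
  have e9 : ∑ x ∈ S, chi l.L k x * F1 l m x = ∑ x ∈ S1, F1 l m x := by
    rw [← Finset.sum_subset (Finset.subset_union_left (s₁ := S1) (s₂ := S2))]
    · apply Finset.sum_congr rfl
      intro x hx
      unfold chi
      rw [if_pos ((hS1 x).1 hx).2, one_mul]
    · intro x hx hx1
      have hxX : x ∈ X1 l := by
        rw [Finset.mem_union, hS1, hS2] at hx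
        rcases hx with hx | hx
        · exact hx.1
        · exact hx.1
      unfold chi
      rw [if_neg, zero_mul]
      intro hK
      exact hx1 ((hS1 x).2 ⟨hxX, hK⟩)
  have e10 : ∑ x ∈ S, chi l.L k (x - l.τ) * F1 l m x = ∑ x ∈ S2, F1 l m x := by
    rw [← Finset.sum_subset (Finset.subset_union_right (s₁ := S1) (s₂ := S2))]
    · apply Finset.sum_congr rfl
      intro x hx
      unfold chi
      rw [if_pos ((hS2 x).1 hx).2, one_mul]
    · intro x hx hx1
      have hxX : x ∈ X1 l := by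
        rw [Finset.mem_union, hS1, hS2] at hx
        rcases hx with hx | hx
        · exact hx.1
        · exact hx.1
      unfold chi
      rw [if_neg, zero_mul]
      intro hK
      exact hx1 ((hS2 x).2 ⟨hxX, hK⟩)
  rw [e9, e10] at e7
  rw [← e7]
  rw [e1, e4, e6, e3, e5] at e2
  linarith

section cases

variable (l : Lev α) (m : ℕ × ℕ × ℝ → ℕ × ℕ × ℝ) (hm : Adm l m)

include hm

lemma flow1 (k : ℝ) (hk0 : 0 < k) (hk : k < l.τ / 2) (hkN : k ∉ N0 l) :
    (l.τ - k ∈ X1 l ∧ l.τ + k ∈ X1 l) ∧ F1 l m (l.τ - k) + F1 l m (l.τ + k) = 1 := by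
  classical
  have hτ := l.hτ
  have hτL := l.hτL
  have m1 : l.τ - k ∈ X1 l := by
    refine ⟨by linarith, by linarith, ?_⟩
    rintro ⟨m, n, h⟩
    exact hkN ⟨2 - m, -n, by push_cast; linarith⟩
  have m2 : l.τ + k ∈ X1 l := by
    refine ⟨by linarith, by linarith, ?_⟩
    rintro ⟨m, n, h⟩
    exact hkN ⟨m - 2, n, by push_cast; linarith⟩
  refine ⟨⟨m1, m2⟩, ?_⟩
  have hkB : k ∈ B0 l := ⟨hk0, by linarith, hkN⟩
  have := cluster l m hm k hkB ∅ {l.τ - k, l.τ + k} ?_ ?_
  · rw [Finset.sum_pair (by intro h; linarith)] at this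
    simp at this
    linarith
  · intro x
    simp only [Finset.notMem_empty, false_iff, not_and]
    intro hx hK
    rcases (Krel_x1 hk0 (by linarith) (by linarith [hx.1]) (by linarith [hx.2.1])).1 hK with h | h
    · linarith [hx.1]
    · linarith [hx.2.1]
  · intro x
    simp only [Finset.mem_insert, Finset.mem_singleton]
    constructor
    · rintro (rfl | rfl)
      · exact ⟨m1, (Krel_x2 hk0 (by linarith) hτ hτL m1.1 m1.2.1).2 (Or.inr rfl)⟩
      · exact ⟨m2, (Krel_x2 hk0 (by linarith) hτ hτL m2.1 m2.2.1).2 (Or.inl rfl)⟩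
    · rintro ⟨hx, hK⟩
      rcases (Krel_x2 hk0 (by linarith) hτ hτL hx.1 hx.2.1).1 hK with h | h
      · exact Or.inr h
      · exact Or.inl h

lemma flow2 (k : ℝ) (hk0 : l.τ / 2 < k) (hk : k < (l.L - l.τ) / 2) (hkN : k ∉ N0 l) :
    (k ∈ X1 l ∧ l.τ + k ∈ X1 l) ∧ F1 l m k = F1 l m (l.τ + k) := by
  classical
  have hτ := l.hτ
  have hτL := l.hτL
  have m1 : k ∈ X1 l := ⟨hk0, by linarith, hkN⟩
  have m2 : l.τ + k ∈ X1 l := by
    refine ⟨by linarith, by linarith, ?_⟩
    rintro ⟨m, n, h⟩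
    exact hkN ⟨m - 2, n, by push_cast; linarith⟩
  refine ⟨⟨m1, m2⟩, ?_⟩
  have hkB : k ∈ B0 l := ⟨by linarith, by linarith, hkN⟩
  have := cluster l m hm k hkB {k} {l.τ + k} ?_ ?_
  · simp at this
    linarith
  · intro x
    simp only [Finset.mem_singleton]
    constructor
    · rintro rfl
      exact ⟨m1, ⟨0, Or.inl (by push_cast; ring)⟩⟩
    · rintro ⟨hx, hK⟩
      rcases (Krel_x1 (by linarith) (by linarith) (by linarith [hx.1]) (by linarith [hx.2.1])).1 hK
        with h | h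
      · exact h
      · linarith [hx.2.1]
  · intro x
    simp only [Finset.mem_singleton]
    constructor
    · rintro rfl
      exact ⟨m2, ⟨0, Or.inl (by push_cast; ring)⟩⟩
    · rintro ⟨hx, hK⟩
      rcases (Krel_x2 (by linarith) (by linarith) hτ hτL hx.1 hx.2.1).1 hK with h | h
      · exact h
      · linarith [hx.1]

lemma flow3 (k : ℝ) (hk0 : (l.L - l.τ) / 2 < k) (hk : k < l.L / 2) (hkN : k ∉ N0 l) :
    (k ∈ X1 l ∧ l.L - k ∈ X1 l) ∧ F1 l m k + F1 l m (l.L - k) = 1 := by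
  classical
  have hτ := l.hτ
  have hτL := l.hτL
  have m1 : k ∈ X1 l := ⟨by linarith, by linarith, hkN⟩
  have m2 : l.L - k ∈ X1 l := by
    refine ⟨by linarith, by linarith, ?_⟩
    rintro ⟨m, n, h⟩
    exact hkN ⟨-m, 2 - n, by push_cast; linarith⟩
  refine ⟨⟨m1, m2⟩, ?_⟩
  have hkB : k ∈ B0 l := ⟨by linarith, by linarith, hkN⟩
  have := cluster l m hm k hkB {k, l.L - k} ∅ ?_ ?_
  · rw [Finset.sum_pair (by intro h; linarith), Finset.card_pair (by intro h; linarith)] at this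
    simp at this
    linarith
  · intro x
    simp only [Finset.mem_insert, Finset.mem_singleton]
    constructor
    · rintro (rfl | rfl)
      · exact ⟨m1, ⟨0, Or.inl (by push_cast; ring)⟩⟩
      · exact ⟨m2, ⟨1, Or.inr (by push_cast; ring)⟩⟩
    · rintro ⟨hx, hK⟩
      exact (Krel_x1 (by linarith) (by linarith) (by linarith [hx.1]) (by linarith [hx.2.1])).1 hK
  · intro x
    simp only [Finset.notMem_empty, false_iff, not_and]
    intro hx hK
    rcases (Krel_x2 (by linarith) (by linarith) hτ hτL hx.1 hx.2.1).1 hK with h | h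
    · linarith [hx.2.1]
    · linarith [hx.1]

end cases

end Pool.Agent.Helper46.Gardner
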