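import Pool.Agent.Helper46.Gardner.Sys

open MeasureTheory Set Filter Topology

namespace Pool.Agent.Helper46.Gardner

variable {α : Fin 7 → UnitAddCircle}

open Classical in
/-- The matching. -/
noncomputable def fwd (l : Lev α) (O : Orient l) (v : ℕ × ℕ × ℝ) : ℕ × ℕ × ℝ :=
  if v.2.1 = 0 then
    if v.1 = 0 then
      (if O.o v.2.2 then (if v.2.2 < l.L / 2 then (0, 0, v.2.2) else (0, 1, v.2.2)) else (1, 0, v.2.2))
    else (if O.o v.2.2 then (v.1, 0, v.2.2)
      else (if v.1 + 1 < l.q1 then (v.1 + 1, 0, v.2.2) else (0, 0, |v.2.2 - l.τ|)))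
  else (if O.o v.2.2 then (if v.2.1 + 1 < l.q2 then (0, v.2.1 + 1, v.2.2) else (0, 0, l.L - v.2.2))
    else (0, v.2.1, v.2.2))

open Classical in
/-- The inverse of the matching. -/
noncomputable def bwd (l : Lev α) (O : Orient l) (v : ℕ × ℕ × ℝ) : ℕ × ℕ × ℝ :=
  if v.2.1 = 0 then
    if v.1 = 0 then
      (if O.o v.2.2 then (if v.2.2 < l.τ / 2 then (l.q1 - 1, 0, l.τ - v.2.2) else (0, 0, v.2.2))
       else (if v.2.2 < (l.L - l.τ) / 2 then (l.q1 - 1, 0, l.τ + v.2.2)
        else (0, l.q2 - 1, l.L - v.2.2)))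
    else (if O.o v.2.2 then (v.1, 0, v.2.2) else (v.1 - 1, 0, v.2.2))
  else (if O.o v.2.2 then (0, v.2.1 - 1, v.2.2) else (0, v.2.1, v.2.2))

section facts

variable (l : Lev α) (O : Orient l)

lemma o_sub (x : ℝ) : O.o (x - l.τ) ↔ O.o x := by
  rw [← O.hτ (x - l.τ), sub_add_cancel]

lemma o_add (x : ℝ) : O.o (l.τ + x) ↔ O.o x := by
  rw [add_comm, O.hτ]

lemma o_refl (x : ℝ) (hx : x ∉ N0 l) : O.o (l.τ - x) ↔ ¬ O.o x := by
  have : l.τ - x = -x + l.τ := by ring
  rw [this, O.hτ, O.hneg x hx]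

lemma o_reflL (x : ℝ) (hx : x ∉ N0 l) : O.o (l.L - x) ↔ ¬ O.o x := by
  have : l.L - x = -x + l.L := by ring
  rw [this, O.hL, O.hneg x hx]

lemma N0_sub (x : ℝ) : x - l.τ ∈ N0 l ↔ x ∈ N0 l := by
  have := N0_add l x (-1) 0
  have e : x + ((-1 : ℤ) : ℝ) * l.τ + ((0 : ℤ) : ℝ) * l.L = x - l.τ := by push_cast; ring
  rwa [e] at this

lemma N0_add' (x : ℝ) : l.τ + x ∈ N0 l ↔ x ∈ N0 l := by
  have := N0_add l x 1 0
  have e : x + ((1 : ℤ) : ℝ) * l.τ + ((0 : ℤ) : ℝ) * l.L = l.τ + x := by push_cast; ring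
  rwa [e] at this

lemma N0_refl (x : ℝ) : l.τ - x ∈ N0 l ↔ x ∈ N0 l := by
  have := N0_add l (-x) 1 0
  have e : -x + ((1 : ℤ) : ℝ) * l.τ + ((0 : ℤ) : ℝ) * l.L = l.τ - x := by push_cast; ring
  rw [e] at this
  rw [this, N0_neg]

lemma N0_reflL (x : ℝ) : l.L - x ∈ N0 l ↔ x ∈ N0 l := by
  have := N0_add l (-x) 0 1
  have e : -x + ((0 : ℤ) : ℝ) * l.τ + ((1 : ℤ) : ℝ) * l.L = l.L - x := by push_cast; ring
  rw [e] at this
  rw [this, N0_neg]

lemma ne_of_N0 {x : ℝ} (hx : x ∉ N0 l) (m n : ℤ) : 2 * x ≠ m * l.τ + n * l.L :=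
  fun h => hx ⟨m, n, h⟩

lemma X2_sub_X1 : X2 l ⊆ X1 l := by
  rintro x ⟨h1, h2, h3⟩
  have := l.hτ
  have := l.hτL
  exact ⟨by linarith, h2, h3⟩

end facts

lemma fwd_mapsTo (l : Lev α) (O : Orient l) : MapsTo (fwd l O) (VA l) (VB l) := by
  rintro ⟨j1, j2, x⟩ h
  have hτ := l.hτ
  have hτL := l.hτL
  have hq1 := l.hq1
  have hq2 := l.hq2
  rcases h with ⟨h1, h2, h3, h4, h5⟩ | ⟨h1, h2, h3, h4, h5, h6⟩
  · simp only at h1 h2 h3 h4 h5
    subst h1
    simp only [fwd, if_true]
    by_cases hj : j1 = 0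
    · rw [if_pos hj]
      by_cases ho : O.o x
      · rw [if_pos ho]
        by_cases hx : x < l.L / 2
        · rw [if_pos hx]
          exact Or.inr (Or.inr ⟨rfl, rfl, by show 0 < x; linarith, hx, h5⟩)
        · rw [if_neg hx]
          have hne := ne_of_N0 l h5 0 1
          push_cast at hne
          have : l.L / 2 < x := lt_of_le_of_ne (not_lt.1 hx) (fun h => hne (by linarith))
          exact Or.inr (Or.inl ⟨rfl, le_rfl, by show 1 < l.q2; omega, this, h4, h5⟩)
      · rw [if_neg ho]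
        exact Or.inl ⟨rfl, le_rfl, by show 1 < l.q1; omega, h3, h4, h5⟩
    · rw [if_neg hj]
      by_cases ho : O.o x
      · rw [if_pos ho]
        exact Or.inl ⟨rfl, by show 1 ≤ j1; omega, h2, h3, h4, h5⟩
      · rw [if_neg ho]
        by_cases hj' : j1 + 1 < l.q1
        · rw [if_pos hj']
          exact Or.inl ⟨rfl, by show 1 ≤ j1 + 1; omega, hj', h3, h4, h5⟩
        · rw [if_neg hj']
          have hne := ne_of_N0 l h5 2 0
          push_cast at hne
          refine Or.inr (Or.inr ⟨rfl, rfl, ?_, ?_, ?_⟩)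
          · show 0 < |x - l.τ|
            rw [abs_pos]
            intro h0
            exact hne (by linarith)
          · show |x - l.τ| < l.L / 2
            rw [abs_lt]
            constructor <;> linarith
          · show |x - l.τ| ∉ N0 l
            rcases abs_choice (x - l.τ) with h | h
            · rw [h, N0_sub]; exact h5
            · rw [h, N0_neg, N0_sub]; exact h5
  · simp only at h1 h2 h3 h4 h5 h6
    subst h1
    simp only [fwd]
    rw [if_neg (by omega)]
    by_cases ho : O.o x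
    · rw [if_pos ho]
      by_cases hj : j2 + 1 < l.q2
      · rw [if_pos hj]
        exact Or.inr (Or.inl ⟨rfl, by show 1 ≤ j2 + 1; omega, hj, h4, h5, h6⟩)
      · rw [if_neg hj]
        refine Or.inr (Or.inr ⟨rfl, rfl, ?_, ?_, ?_⟩)
        · show 0 < l.L - x
          linarith
        · show l.L - x < l.L / 2
          linarith
        · show l.L - x ∉ N0 l
          rw [N0_reflL]
          exact h6
    · rw [if_neg ho]
      exact Or.inr (Or.inl ⟨rfl, h2, h3, h4, h5, h6⟩)

lemma bwd_mapsTo (l : Lev α) (O : Orient l) : MapsTo (bwd l O) (VB l) (VA l) := by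
  rintro ⟨j1, j2, x⟩ h
  have hτ := l.hτ
  have hτL := l.hτL
  have hq1 := l.hq1
  have hq2 := l.hq2
  rcases h with ⟨h1, h2, h3, h4⟩ | ⟨h1, h2, h3, h4⟩ | ⟨h1, h2, h3, h4, h5⟩
  · simp only at h1 h2 h3 h4
    subst h1
    simp only [bwd, if_true]
    rw [if_neg (by omega)]
    by_cases ho : O.o x
    · rw [if_pos ho]
      exact Or.inl ⟨rfl, h3, h4⟩
    · rw [if_neg ho]
      exact Or.inl ⟨rfl, by show j1 - 1 < l.q1; omega, h4⟩
  · simp only at h1 h2 h3 h4
    subst h1
    simp only [bwd]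
    rw [if_neg (by omega)]
    by_cases ho : O.o x
    · rw [if_pos ho]
      by_cases hj : j2 = 1
      · subst hj
        exact Or.inl ⟨rfl, by show 0 < l.q1; omega, X2_sub_X1 l h4⟩
      · exact Or.inr ⟨rfl, by show 1 ≤ j2 - 1; omega, by show j2 - 1 < l.q2; omega, h4⟩
    · rw [if_neg ho]
      exact Or.inr ⟨rfl, h2, h3, h4⟩
  · simp only at h1 h2 h3 h4 h5
    subst h1
    subst h2
    simp only [bwd, if_true]
    by_cases ho : O.o x
    · rw [if_pos ho]
      by_cases hx : x < l.τ / 2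
      · rw [if_pos hx]
        exact Or.inl ⟨rfl, by show l.q1 - 1 < l.q1; omega, by show l.τ / 2 < l.τ - x; linarith,
          by show l.τ - x < (l.L + l.τ) / 2; linarith, by show l.τ - x ∉ N0 l; rwa [N0_refl]⟩
      · rw [if_neg hx]
        have hne := ne_of_N0 l h5 1 0
        push_cast at hne
        have : l.τ / 2 < x := lt_of_le_of_ne (not_lt.1 hx) (fun h => hne (by linarith))
        exact Or.inl ⟨rfl, by show 0 < l.q1; omega, this,
          by show x < (l.L + l.τ) / 2; linarith, h5⟩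
    · rw [if_neg ho]
      by_cases hx : x < (l.L - l.τ) / 2
      · rw [if_pos hx]
        exact Or.inl ⟨rfl, by show l.q1 - 1 < l.q1; omega, by show l.τ / 2 < l.τ + x; linarith,
          by show l.τ + x < (l.L + l.τ) / 2; linarith, by show l.τ + x ∉ N0 l; rwa [N0_add']⟩
      · rw [if_neg hx]
        have hne := ne_of_N0 l h5 (-1) 1
        push_cast at hne
        have : (l.L - l.τ) / 2 < x := lt_of_le_of_ne (not_lt.1 hx) (fun h => hne (by linarith))
        exact Or.inr ⟨rfl, by show 1 ≤ l.q2 - 1; omega, by show l.q2 - 1 < l.q2; omega,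
          by show l.L / 2 < l.L - x; linarith, by show l.L - x < (l.L + l.τ) / 2; linarith,
          by show l.L - x ∉ N0 l; rwa [N0_reflL]⟩

lemma bwd_fwd (l : Lev α) (O : Orient l) : LeftInvOn (bwd l O) (fwd l O) (VA l) := by
  rintro ⟨j1, j2, x⟩ h
  have hτ := l.hτ
  have hτL := l.hτL
  have hq1 := l.hq1
  have hq2 := l.hq2
  rcases h with ⟨h1, h2, h3, h4, h5⟩ | ⟨h1, h2, h3, h4, h5, h6⟩
  · simp only at h1 h2 h3 h4 h5
    subst h1
    simp only [fwd, if_true]
    by_cases hj : j1 = 0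
    · subst hj
      rw [if_pos rfl]
      by_cases ho : O.o x
      · rw [if_pos ho]
        by_cases hx : x < l.L / 2
        · rw [if_pos hx]
          simp only [bwd, if_true]
          rw [if_pos ho, if_neg (by linarith)]
        · rw [if_neg hx]
          simp only [bwd]
          rw [if_neg one_ne_zero, if_pos ho]
      · rw [if_neg ho]
        simp only [bwd, if_true]
        rw [if_neg one_ne_zero, if_neg ho]
    · rw [if_neg hj]
      by_cases ho : O.o x
      · rw [if_pos ho]
        simp only [bwd, if_true]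
        rw [if_neg hj, if_pos ho]
      · rw [if_neg ho]
        by_cases hj' : j1 + 1 < l.q1
        · rw [if_pos hj']
          simp only [bwd, if_true]
          rw [if_neg (by omega), if_neg ho]
          rfl
        · rw [if_neg hj']
          have hjq : l.q1 - 1 = j1 := by omega
          simp only [bwd, if_true, hjq]
          rcases le_or_gt l.τ x with hx | hx
          · rw [abs_of_nonneg (by linarith)]
            rw [if_neg (by rw [o_sub]; exact ho), if_pos (by linarith)]
            simp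
          · rw [abs_of_neg (by linarith)]
            have e : -(x - l.τ) = l.τ - x := by ring
            rw [e, if_pos ((o_refl l O x h5).2 ho), if_pos (by linarith)]
            simp
  · simp only at h1 h2 h3 h4 h5 h6
    subst h1
    simp only [fwd]
    rw [if_neg (by omega)]
    by_cases ho : O.o x
    · rw [if_pos ho]
      by_cases hj : j2 + 1 < l.q2
      · rw [if_pos hj]
        simp only [bwd]
        rw [if_neg (by omega), if_pos ho]
        rfl
      · rw [if_neg hj]
        simp only [bwd, if_true]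
        rw [if_neg (by rw [o_reflL l O x h6]; exact not_not.2 ho), if_neg (by linarith)]
        have : l.q2 - 1 = j2 := by omega
        rw [this]
        simp
    · rw [if_neg ho]
      simp only [bwd]
      rw [if_neg (by omega), if_neg ho]

lemma fwd_bwd (l : Lev α) (O : Orient l) : LeftInvOn (fwd l O) (bwd l O) (VB l) := by
  rintro ⟨j1, j2, x⟩ h
  have hτ := l.hτ
  have hτL := l.hτL
  have hq1 := l.hq1
  have hq2 := l.hq2
  rcases h with ⟨h1, h2, h3, h4, h4', h5⟩ | ⟨h1, h2, h3, h4, h4', h5⟩ | ⟨h1, h2, h3, h4, h5⟩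
  · simp only at h1 h2 h3 h4 h4' h5
    subst h1
    simp only [bwd, if_true]
    rw [if_neg (by omega)]
    by_cases ho : O.o x
    · rw [if_pos ho]
      simp only [fwd, if_true]
      rw [if_neg (by omega), if_pos ho]
    · rw [if_neg ho]
      simp only [fwd, if_true]
      by_cases hj : j1 - 1 = 0
      · rw [if_pos hj, if_neg ho]
        have : j1 = 1 := by omega
        rw [this]
      · rw [if_neg hj, if_neg ho, if_pos (by omega)]
        have : j1 - 1 + 1 = j1 := by omega
        rw [this]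
  · simp only at h1 h2 h3 h4 h4' h5
    subst h1
    simp only [bwd]
    rw [if_neg (by omega)]
    by_cases ho : O.o x
    · rw [if_pos ho]
      simp only [fwd, if_true]
      by_cases hj : j2 - 1 = 0
      · rw [if_pos hj, if_pos ho, if_neg (by linarith)]
        have : j2 = 1 := by omega
        rw [this]
      · rw [if_neg hj, if_pos ho, if_pos (by omega)]
        have : j2 - 1 + 1 = j2 := by omega
        rw [this]
    · rw [if_neg ho]
      simp only [fwd]
      rw [if_neg (by omega), if_neg ho]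
  · simp only at h1 h2 h3 h4 h5
    subst h1
    subst h2
    simp only [bwd, if_true]
    by_cases ho : O.o x
    · rw [if_pos ho]
      by_cases hx : x < l.τ / 2
      · rw [if_pos hx]
        simp only [fwd, if_true]
        rw [if_neg (by omega), if_neg (by rw [o_refl l O x h5]; exact not_not.2 ho),
          if_neg (by omega)]
        have : |l.τ - x - l.τ| = x := by
          have e : l.τ - x - l.τ = -x := by ring
          rw [e, abs_neg, abs_of_pos h3]
        rw [this]
      · rw [if_neg hx]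
        simp only [fwd, if_true]
        rw [if_pos ho, if_pos h4]
    · rw [if_neg ho]
      by_cases hx : x < (l.L - l.τ) / 2
      · rw [if_pos hx]
        simp only [fwd, if_true]
        rw [if_neg (by omega), if_neg (by rw [o_add]; exact ho), if_neg (by omega)]
        have : |l.τ + x - l.τ| = x := by
          have e : l.τ + x - l.τ = x := by ring
          rw [e, abs_of_pos h3]
        rw [this]
      · rw [if_neg hx]
        simp only [fwd]
        rw [if_neg (by omega), if_pos ((o_reflL l O x h5).2 ho), if_neg (by omega)]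
        simp

lemma fwd_bijOn (l : Lev α) (O : Orient l) : BijOn (fwd l O) (VA l) (VB l) :=
  InvOn.bijOn ⟨bwd_fwd l O, fwd_bwd l O⟩ (fwd_mapsTo l O) (bwd_mapsTo l O)

lemma pos_step1 (l : Lev α) (b : ℕ) (hb : 1 ≤ b) (j : ℕ) (x : ℝ) :
    ∃ w : Fin 7 → ℤ, (∀ i, |w i| ≤ 1) ∧
      Phi α (Pv l.q1 l.q2 b (j + 1 : ℕ) 0) + (x : UnitAddCircle) = pos l b (j, 0, x) + Phi α w := by
  refine ⟨Pv l.q1 l.q2 b ((j : ℤ) + 1) 0 - Pv l.q1 l.q2 b j 0,
    fun i => Pv_step1 _ _ _ _ _ (by exact_mod_cast hb) i, ?_⟩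
  rw [Phi_sub]
  unfold pos
  push_cast
  abel

lemma pos_step2 (l : Lev α) (b : ℕ) (hb : 1 ≤ b) (j : ℕ) (x : ℝ) :
    ∃ w : Fin 7 → ℤ, (∀ i, |w i| ≤ 1) ∧
      Phi α (Pv l.q1 l.q2 b 0 (j + 1 : ℕ)) + (x : UnitAddCircle) = pos l b (0, j, x) + Phi α w := by
  refine ⟨Pv l.q1 l.q2 b 0 ((j : ℤ) + 1) - Pv l.q1 l.q2 b 0 j,
    fun i => Pv_step2 _ _ _ _ _ (by exact_mod_cast hb) i, ?_⟩
  rw [Phi_sub]
  unfold pos
  push_cast
  abel

lemma Phi_end1 (l : Lev α) (b : ℕ) : Phi α (Pv l.q1 l.q2 b l.q1 0) = ((-l.τ : ℝ) : UnitAddCircle) := by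
  rw [Pv_end1 _ _ _ (by positivity) (by positivity)]
  simp only [Phi, Fin.sum_univ_seven]
  simp only [Matrix.cons_val_zero, Matrix.cons_val_one, Matrix.cons_val, zero_smul, add_zero]
  exact l.h1

lemma Phi_end2 (l : Lev α) (b : ℕ) : Phi α (Pv l.q1 l.q2 b 0 l.q2) = ((-l.L : ℝ) : UnitAddCircle) := by
  rw [Pv_end2 _ _ _ (by positivity) (by positivity)]
  simp only [Phi, Fin.sum_univ_seven]
  simp only [Matrix.cons_val_zero, Matrix.cons_val_one, Matrix.cons_val, zero_smul, add_zero,
    zero_add]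
  exact l.h2

lemma pos_base (l : Lev α) (b : ℕ) (x : ℝ) : pos l b (0, 0, x) = (x : UnitAddCircle) := by
  unfold pos
  simp only [Nat.cast_zero]
  rw [Pv_zero _ _ _ (by positivity) (by positivity), Phi_zero, zero_add]

lemma fwd_iso (l : Lev α) (O : Orient l) (b : ℕ) (hb : 1 ≤ b) (v : ℕ × ℕ × ℝ) (hv : v ∈ VA l) :
    ∃ w : Fin 7 → ℤ, (∀ i, |w i| ≤ 1) ∧ (pos l b (fwd l O v) = pos l b v + Phi α w ∨
      pos l b (fwd l O v) = -(pos l b v + Phi α w)) := by
  have hτ := l.hτ
  have hτL := l.hτL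
  have hq1 := l.hq1
  have hq2 := l.hq2
  have triv : ∀ v : ℕ × ℕ × ℝ, ∃ w : Fin 7 → ℤ, (∀ i, |w i| ≤ 1) ∧
      (pos l b v = pos l b v + Phi α w ∨ pos l b v = -(pos l b v + Phi α w)) := by
    intro v
    exact ⟨0, fun i => by simp, Or.inl (by rw [Phi_zero, add_zero])⟩
  obtain ⟨j1, j2, x⟩ := v
  rcases hv with ⟨h1, h2, h3, h4, h5⟩ | ⟨h1, h2, h3, h4, h5, h6⟩
  · simp only at h1 h2 h3 h4 h5
    subst h1
    simp only [fwd, if_true]
    by_cases hj : j1 = 0
    · subst hj
      rw [if_pos rfl]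
      by_cases ho : O.o x
      · rw [if_pos ho]
        by_cases hx : x < l.L / 2
        · rw [if_pos hx]
          exact triv _
        · rw [if_neg hx]
          obtain ⟨w, hw1, hw2⟩ := pos_step2 l b hb 0 x
          exact ⟨w, hw1, Or.inl hw2⟩
      · rw [if_neg ho]
        obtain ⟨w, hw1, hw2⟩ := pos_step1 l b hb 0 x
        exact ⟨w, hw1, Or.inl hw2⟩
    · rw [if_neg hj]
      by_cases ho : O.o x
      · rw [if_pos ho]
        exact triv _
      · rw [if_neg ho]
        obtain ⟨w, hw1, hw2⟩ := pos_step1 l b hb j1 x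
        by_cases hj' : j1 + 1 < l.q1
        · rw [if_pos hj']
          exact ⟨w, hw1, Or.inl hw2⟩
        · rw [if_neg hj']
          have hjq : j1 + 1 = l.q1 := by omega
          rw [hjq, Phi_end1, ← AddCircle.coe_add] at hw2
          rw [pos_base]
          refine ⟨w, hw1, ?_⟩
          rcases le_or_gt l.τ x with hx | hx
          · left
            rw [abs_of_nonneg (by linarith), ← hw2]
            congr 1
            ring
          · right
            rw [abs_of_neg (by linarith), ← hw2, ← AddCircle.coe_neg]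
            congr 1
            ring
  · simp only at h1 h2 h3 h4 h5 h6
    subst h1
    simp only [fwd]
    rw [if_neg (by omega)]
    by_cases ho : O.o x
    · rw [if_pos ho]
      obtain ⟨w, hw1, hw2⟩ := pos_step2 l b hb j2 x
      by_cases hj : j2 + 1 < l.q2
      · rw [if_pos hj]
        exact ⟨w, hw1, Or.inl hw2⟩
      · rw [if_neg hj]
        have hjq : j2 + 1 = l.q2 := by omega
        rw [hjq, Phi_end2, ← AddCircle.coe_add] at hw2
        rw [pos_base]
        refine ⟨w, hw1, Or.inr ?_⟩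
        rw [← hw2, ← AddCircle.coe_neg]
        congr 1
        ring
    · rw [if_neg ho]
      exact triv _

/-- Angular sets. -/
def setA (l : Lev α) (b : ℕ) : Set UnitAddCircle := pos l b '' VA l

def setB (l : Lev α) (b : ℕ) : Set UnitAddCircle := pos l b '' VB l

/-- The non-measurable equidecomposition of the angular sets. -/
theorem exists_bij (l : Lev α) (b : ℕ) (hb : 1 ≤ b) :
    ∃ f : UnitAddCircle → UnitAddCircle, BijOn f (setA l b) (setB l b) ∧
      ∀ θ ∈ setA l b, ∃ w : Fin 7 → ℤ, (∀ i, |w i| ≤ 1) ∧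
        (f θ = θ + Phi α w ∨ f θ = -(θ + Phi α w)) := by
  classical
  obtain ⟨O⟩ := exists_orient l
  have hinjA : InjOn (pos l b) (VA l) := (pos_inj l hb).mono (VA_sub l)
  have hinjB : InjOn (pos l b) (VB l) := (pos_inj l hb).mono (VB_sub l)
  set g := Function.invFunOn (pos l b) (VA l) with hg
  have hginv : ∀ v ∈ VA l, g (pos l b v) = v := fun v hv => hinjA.leftInvOn_invFunOn hv
  refine ⟨fun θ => pos l b (fwd l O (g θ)), ?_, ?_⟩
  · have b1 : BijOn g (setA l b) (VA l) := by
      refine ⟨?_, ?_, ?_⟩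
      · rintro _ ⟨v, hv, rfl⟩
        rw [hginv v hv]
        exact hv
      · rintro _ ⟨v, hv, rfl⟩ _ ⟨v', hv', rfl⟩ h
        rw [hginv v hv, hginv v' hv'] at h
        rw [h]
      · intro v hv
        exact ⟨pos l b v, ⟨v, hv, rfl⟩, hginv v hv⟩
    have b2 : BijOn (pos l b) (VB l) (setB l b) := hinjB.bijOn_image
    exact b2.comp ((fwd_bijOn l O).comp b1)
  · rintro _ ⟨v, hv, rfl⟩
    simp only [hginv v hv]
    exact fwd_iso l O b hb v hv

end Pool.Agent.Helper46.Gardner
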