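import Mathlib

open MeasureTheory Set Filter Topology

namespace Pool.Agent.Helper46.Gardner

/-- No measurable set is anti-invariant under two point reflections generating an irrational
rotation. -/
lemma no_T {L : ℝ} (hL : Fact (0 < L)) {τ : ℝ} (hirr : Irrational (τ / L)) (T : Set (AddCircle L))
    (hT : NullMeasurableSet T volume)
    (h1 : ∀ᵐ z : AddCircle L, (z ∈ T ↔ ((τ : ℝ) : AddCircle L) - z ∉ T))
    (h2 : ∀ᵐ z : AddCircle L, (z ∈ T ↔ -z ∉ T)) : False := by
  set t : AddCircle L := ((τ : ℝ) : AddCircle L) with ht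
  have herg : Ergodic (t + · : AddCircle L → AddCircle L) := by
    rw [ergodic_add_left_iff_denseRange_zsmul, ht]
    exact AddCircle.denseRange_zsmul_coe_iff.2 hirr
  have hmp : MeasurePreserving (fun z : AddCircle L => t + z) volume volume :=
    measurePreserving_add_left volume t
  have hinv : (t + ·) ⁻¹' T =ᵐ[volume] T := by
    have h1' := hmp.quasiMeasurePreserving.ae h1
    filter_upwards [h1', h2] with z hz1 hz2
    have e : t - (t + z) = -z := by abel
    rw [e] at hz1
    have : (t + z ∈ T) = (z ∈ T) := propext (by tauto)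
    exact this
  have hneg : MeasurePreserving (fun z : AddCircle L => -z) volume volume :=
    Measure.measurePreserving_neg volume
  have hcompl : (fun z : AddCircle L => -z) ⁻¹' T =ᵐ[volume] (Tᶜ : Set (AddCircle L)) := by
    filter_upwards [h2] with z hz
    have : (-z ∈ T) = (z ∈ Tᶜ) := propext (by rw [mem_compl_iff]; tauto)
    exact this
  have hmeas : volume T = volume (Tᶜ : Set (AddCircle L)) := by
    rw [← measure_congr hcompl, hneg.measure_preimage hT]
  have huniv : volume (univ : Set (AddCircle L)) ≠ 0 := by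
    rw [AddCircle.measure_univ]
    simpa using hL.out
  rcases herg.quasiErgodic.ae_empty_or_univ₀ hT hinv with h | h
  · have e1 : volume T = 0 := by rw [measure_congr h, measure_empty]
    have e2 : volume (Tᶜ : Set (AddCircle L)) = 0 := by rw [← hmeas]; exact e1
    apply huniv
    rw [← union_compl_self T]
    exact le_antisymm ((measure_union_le _ _).trans (by rw [e1, e2]; simp)) zero_le
  · have e2 : volume (Tᶜ : Set (AddCircle L)) = 0 := by
      rw [measure_congr h.compl, compl_univ, measure_empty]
    have e1 : volume T = 0 := by rw [hmeas]; exact e2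
    apply huniv
    rw [← union_compl_self T]
    exact le_antisymm ((measure_union_le _ _).trans (by rw [e1, e2]; simp)) zero_le

/-- The real form of the previous lemma. -/
lemma no_T1 {L τ : ℝ} (hτ : 0 < τ) (hτL : 2 * τ < L) (hirr : ∀ x y : ℤ, (x : ℝ) * τ = y * L → x = 0 ∧ y = 0)
    (T1 : Set ℝ) (hT1 : NullMeasurableSet T1 volume)
    (c1 : ∀ k, 0 < k → k < τ / 2 → (¬ ∃ m n : ℤ, 2 * k = m * τ + n * L) →
      (τ - k ∈ T1 ↔ τ + k ∉ T1))
    (c2 : ∀ k, τ / 2 < k → k < (L - τ) / 2 → (¬ ∃ m n : ℤ, 2 * k = m * τ + n * L) →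
      (k ∈ T1 ↔ τ + k ∈ T1))
    (c3 : ∀ k, (L - τ) / 2 < k → k < L / 2 → (¬ ∃ m n : ℤ, 2 * k = m * τ + n * L) →
      (k ∈ T1 ↔ L - k ∉ T1)) : False := by
  have hL0 : 0 < L := by linarith
  have hL : Fact (0 < L) := ⟨hL0⟩
  set N : Set ℝ := {x | ∃ m n : ℤ, 2 * x = m * τ + n * L} with hN
  have hNc : N.Countable := by
    have : N ⊆ range (fun p : ℤ × ℤ => (p.1 * τ + p.2 * L) / 2) := by
      rintro x ⟨m, n, h⟩
      exact ⟨(m, n), by simp only; linarith⟩
    exact (countable_range _).mono this
  have hNneg : ∀ x, x ∈ N → -x ∈ N := by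
    rintro x ⟨m, n, h⟩
    exact ⟨-m, -n, by push_cast; linarith⟩
  set S : Set ℝ := {x | (τ / 2 < x ∧ x ∉ T1) ∨ (x ≤ τ / 2 ∧ τ - x ∈ T1)} with hS
  have hSm : NullMeasurableSet S volume := by
    have e : S = (Ioi (τ / 2) ∩ T1ᶜ) ∪ (Iic (τ / 2) ∩ (fun x => τ - x) ⁻¹' T1) := by
      ext x
      simp [hS]
    rw [e]
    refine (measurableSet_Ioi.nullMeasurableSet.inter hT1.compl).union
      (measurableSet_Iic.nullMeasurableSet.inter ?_)
    exact hT1.preimage (Measure.measurePreserving_sub_left volume τ).quasiMeasurePreserving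
  set a : ℝ := (τ - L) / 2 with ha
  set T : Set (AddCircle L) := {z | ((AddCircle.equivIoc L a z : Ioc a (a + L)) : ℝ) ∈ S} with hT
  have hTx : ∀ x ∈ Ioc a (a + L), ((x : AddCircle L) ∈ T ↔ x ∈ S) := by
    intro x hx
    rw [hT, mem_setOf_eq, AddCircle.equivIoc_coe_eq hx]
  have hTm : NullMeasurableSet T volume := by
    have h1 : NullMeasurableSet (Subtype.val ⁻¹' S : Set (Ioc a (a + L)))
        (Measure.comap Subtype.val volume) := by
      have h3 : NullMeasurableSet S (volume.restrict (Ioc a (a + L))) :=
        hSm.mono_ac Measure.restrict_le_self.absolutelyContinuous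
      exact h3.preimage (measurePreserving_subtype_coe measurableSet_Ioc).quasiMeasurePreserving
    exact h1.preimage (AddCircle.measurePreserving_equivIoc L).quasiMeasurePreserving
  have hrep : ∀ z : AddCircle L, ∃ x ∈ Ioc a (a + L), (x : AddCircle L) = z := by
    intro z
    refine ⟨(AddCircle.equivIoc L a z : Ioc a (a + L)), (AddCircle.equivIoc L a z).2, ?_⟩
    exact (AddCircle.equivIoc L a).symm_apply_apply z
  -- null exceptional set
  have hexc : ∀ᵐ z : AddCircle L, ∀ x : ℝ, (x : AddCircle L) = z → x ∉ N := by
    have hc : ((fun x : ℝ => (x : AddCircle L)) '' N).Countable := hNc.image _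
    have h0 : ∀ᵐ z : AddCircle L, z ∉ (fun x : ℝ => (x : AddCircle L)) '' N := by
      have : volume ((fun x : ℝ => (x : AddCircle L)) '' N) = 0 := by
        rw [← (AddCircle.measurePreserving_mk L 0).measure_preimage hc.measurableSet.nullMeasurableSet]
        refine le_antisymm ((Measure.restrict_apply_le _ _).trans ?_) zero_le
        have hsub : ((fun x : ℝ => (x : AddCircle L)) ⁻¹' ((fun x : ℝ => (x : AddCircle L)) '' N)) ⊆
            N := by
          rintro x ⟨y, hy, hxy⟩
          have hxy' : (y : AddCircle L) = (x : AddCircle L) := hxy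
          have h7 : ((x - y : ℝ) : AddCircle L) = 0 := by
            rw [AddCircle.coe_sub, hxy', sub_self]
          rw [AddCircle.coe_eq_zero_iff] at h7
          obtain ⟨n, hn⟩ := h7
          rw [zsmul_eq_mul] at hn
          obtain ⟨m, k, h⟩ := hy
          exact ⟨m, k + 2 * n, by push_cast; linarith⟩
        exact (measure_mono_null hsub (hNc.measure_zero _)).le
      exact measure_eq_zero_iff_ae_notMem.1 this
    filter_upwards [h0] with z hz x hx hxN
    exact hz ⟨x, hxN, hx⟩
  have hperiod : ((L : ℝ) : AddCircle L) = 0 := AddCircle.coe_period L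
  refine no_T hL (τ := τ) ?_ T hTm ?_ ?_
  · rintro ⟨q, hq⟩
    have h0 : (q.num : ℝ) * L = q.den * τ := by
      have h3 : (q : ℝ) = q.num / q.den := by exact_mod_cast (Rat.num_div_den q).symm
      have hd : (q.den : ℝ) ≠ 0 := by exact_mod_cast q.den_ne_zero
      rw [h3] at hq
      field_simp at hq
      linarith
    have h4 := hirr q.den q.num (by push_cast; linarith)
    exact q.den_ne_zero (by exact_mod_cast h4.1)
  · filter_upwards [hexc] with z hz
    obtain ⟨x, hx, rfl⟩ := hrep z
    have hxN := hz x rfl
    have hx1 : x ≠ τ / 2 := by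
      intro h
      exact hxN ⟨1, 0, by rw [h]; push_cast; ring⟩
    have hx2 : x ≠ a + L := by
      intro h
      exact hxN ⟨1, 1, by rw [h, ha]; push_cast; ring⟩
    have hx' : τ - x ∈ Ioc a (a + L) := by
      have := hx.1
      have h5 : x < a + L := lt_of_le_of_ne hx.2 hx2
      constructor
      · rw [ha] at h5 ⊢; linarith
      · rw [ha] at this ⊢; linarith
    rw [← AddCircle.coe_sub, hTx x hx, hTx _ hx']
    simp only [hS, mem_setOf_eq]
    rcases lt_or_gt_of_ne hx1 with h | h
    · have e1 : ¬ (τ / 2 < x) := by linarith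
      have e2 : τ / 2 < τ - x := by linarith
      have e3 : ¬ (τ - x ≤ τ / 2) := by linarith
      have e4 : x ≤ τ / 2 := h.le
      simp only [e1, e2, e3, e4, false_and, true_and, false_or, or_false, not_not]
    · have e1 : τ / 2 < x := h
      have e2 : ¬ (τ / 2 < τ - x) := by linarith
      have e3 : τ - x ≤ τ / 2 := by linarith
      have e4 : ¬ (x ≤ τ / 2) := by linarith
      simp only [e1, e2, e3, e4, false_and, true_and, false_or, or_false, sub_sub_cancel]
  · -- the reflection at zero
    have key : ∀ k, 0 < k → k < L / 2 → k ∉ N →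
        (((k : ℝ) : AddCircle L) ∈ T ↔ ((-k : ℝ) : AddCircle L) ∉ T) := by
      intro k hk0 hkL hkN
      have hk1 : k ≠ τ / 2 := by
        intro h
        exact hkN ⟨1, 0, by rw [h]; push_cast; ring⟩
      have hk2 : k ≠ (L - τ) / 2 := by
        intro h
        exact hkN ⟨-1, 1, by rw [h]; push_cast; ring⟩
      have hkI : k ∈ Ioc a (a + L) := by
        constructor
        · rw [ha]; linarith
        · rw [ha]; linarith
      rw [hTx k hkI]
      rcases lt_or_gt_of_ne hk2 with h2 | h2
      · have hkI' : -k ∈ Ioc a (a + L) := by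
          constructor
          · rw [ha]; linarith
          · rw [ha]; linarith
        rw [hTx _ hkI']
        simp only [hS, mem_setOf_eq]
        have e1 : ¬ (τ / 2 < -k) := by linarith
        have e2 : -k ≤ τ / 2 := by linarith
        simp only [e1, e2, false_and, true_and, false_or, sub_neg_eq_add]
        rcases lt_or_gt_of_ne hk1 with h1 | h1
        · have e3 : ¬ (τ / 2 < k) := by linarith
          simp only [e3, h1.le, false_and, true_and, false_or]
          exact c1 k hk0 h1 hkN
        · have e3 : ¬ (k ≤ τ / 2) := by linarith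
          simp only [e3, h1, false_and, true_and, or_false]
          rw [c2 k h1 h2 hkN]
      · have e0 : ((-k : ℝ) : AddCircle L) = ((L - k : ℝ) : AddCircle L) := by
          rw [sub_eq_add_neg, AddCircle.coe_add, hperiod, zero_add]
        have hkI' : L - k ∈ Ioc a (a + L) := by
          constructor
          · rw [ha]; linarith
          · rw [ha]; linarith
        rw [e0, hTx _ hkI']
        simp only [hS, mem_setOf_eq]
        have e1 : τ / 2 < L - k := by linarith
        have e2 : ¬ (L - k ≤ τ / 2) := by linarith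
        have e3 : τ / 2 < k := by linarith
        have e4 : ¬ (k ≤ τ / 2) := by linarith
        simp only [e1, e2, e3, e4, false_and, true_and, or_false, not_not]
        rw [c3 k h2 hkL hkN, not_not]
    filter_upwards [hexc] with z hz
    obtain ⟨x, hx, rfl⟩ := hrep z
    have hxN := hz x rfl
    have hx0 : x ≠ 0 := by
      intro h
      exact hxN ⟨0, 0, by rw [h]; push_cast; ring⟩
    have hx3 : x ≠ L / 2 := by
      intro h
      exact hxN ⟨0, 1, by rw [h]; push_cast; ring⟩
    have hxl : (τ - L) / 2 < x := hx.1
    have hxr : x ≤ (τ + L) / 2 := by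
      have := hx.2
      rw [ha] at this
      linarith
    rw [← AddCircle.coe_neg]
    rcases lt_or_gt_of_ne hx0 with h0 | h0
    · have h5 := key (-x) (by linarith) (by linarith) (fun h => hxN (by simpa using hNneg _ h))
      rw [neg_neg] at h5
      constructor
      · intro h7 h8
        exact h5.1 h8 h7
      · intro h7
        by_contra h8
        exact h7 (h5.2 h8)
    · rcases lt_or_gt_of_ne hx3 with h3 | h3
      · exact key x h0 h3 hxN
      · have h6 : L - x ∉ N := by
          rintro ⟨m, n, h⟩
          exact hxN ⟨-m, 2 - n, by push_cast; linarith⟩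
        have h5 := key (L - x) (by linarith) (by linarith) h6
        have e1 : ((L - x : ℝ) : AddCircle L) = ((-x : ℝ) : AddCircle L) := by
          rw [sub_eq_add_neg, AddCircle.coe_add, hperiod, zero_add]
        have e2 : ((-(L - x) : ℝ) : AddCircle L) = ((x : ℝ) : AddCircle L) := by
          have : -(L - x) = x - L := by ring
          rw [this, AddCircle.coe_sub, hperiod, sub_zero]
        rw [e1, e2] at h5
        constructor
        · intro h7 h8
          exact h5.1 h8 h7
        · intro h7
          by_contra h8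
          exact h7 (h5.2 h8)

end Pool.Agent.Helper46.Gardner
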