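import Pool.Agent.Helper46.Gardner.Sep

open MeasureTheory Set Filter Topology

namespace Pool.Agent.Helper46.Gardner

/-- Indicator of the second half of the first loop. -/
def sec (q1 j1 : ℕ) : ℤ := if q1 / 2 < j1 then 1 else 0

lemma small_mul {k q x : ℤ} (hq : 0 < q) (hx : x = k * q) (h1 : -q < x) (h2 : x < q) : k = 0 := by
  by_contra hne
  rcases lt_or_gt_of_ne hne with h | h
  · have : k ≤ -1 := by omega
    nlinarith
  · have : 1 ≤ k := by omega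
    nlinarith

lemma small_mul2 {k q x : ℤ} (hq : 0 < q) (hx : x = k * q) (h1 : -(2 * q) < x) (h2 : x < 2 * q) :
    k = -1 ∨ k = 0 ∨ k = 1 := by
  have : -2 < k := by
    by_contra hcon
    push Not at hcon
    nlinarith
  have : k < 2 := by
    by_contra hcon
    push Not at hcon
    nlinarith
  omega

lemma small_mul3 {k q x : ℤ} (hq : 0 < q) (hx : x = k * q) (h1 : -q < x) (h2 : x < 3 * q) :
    k = 0 ∨ k = 1 ∨ k = 2 := by
  have : -1 < k := by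
    by_contra hcon
    push Not at hcon
    nlinarith
  have : k < 3 := by
    by_contra hcon
    push Not at hcon
    nlinarith
  omega

lemma exactU (q1 q2 b R : ℕ) (hR1 : 4 * R + 8 ≤ q1) (hR2 : 4 * R + 8 ≤ q2)
    (j1 j2 j1' j2' : ℕ) (hj : VJ q1 q2 j1 j2) (hj' : VJ q1 q2 j1' j2')
    (u : Fin 7 → ℤ) (hu : ∀ i, |u i| ≤ R)
    (h : InL q1 q2 (Pv q1 q2 b j1' j2' - Pv q1 q2 b j1 j2 - u)) :
    ∃ k1 k2 : ℤ, (Pv q1 q2 b j1' j2' - Pv q1 q2 b j1 j2 - u) 0 = k1 * q1 ∧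
      (Pv q1 q2 b j1' j2' - Pv q1 q2 b j1 j2 - u) 1 = k2 * q2 ∧
      (|k1| ≤ 2 ∧ |k2| ≤ 2) ∧
      (k1 = sec q1 j1' - sec q1 j1 ∨ (1 ≤ j1 ∧ 1 ≤ j1' ∧ k1 = 0 ∧ k2 = 0)) := by
  obtain ⟨⟨k1, h1⟩, ⟨k2, h2⟩, -⟩ := h
  have hu0 := abs_le.1 (hu 0)
  have hu1 := abs_le.1 (hu 1)
  obtain ⟨hj1, hj2, hj3⟩ := hj
  obtain ⟨hj1', hj2', hj3'⟩ := hj'
  have h1' : (j1' : ℤ) - j1 - u 0 = k1 * q1 := by simpa [Pv] using h1
  have h2' : (j2' : ℤ) - j2 - u 1 = k2 * q2 := by simpa [Pv] using h2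
  have K1 := small_mul2 (show (0 : ℤ) < q1 by omega) h1' (by omega) (by omega)
  have K2 := small_mul2 (show (0 : ℤ) < q2 by omega) h2' (by omega) (by omega)
  refine ⟨k1, k2, h1, h2, ⟨?_, ?_⟩, ?_⟩
  · rcases K1 with rfl | rfl | rfl <;> norm_num
  · rcases K2 with rfl | rfl | rfl <;> norm_num
  · unfold sec
    rcases K1 with rfl | rfl | rfl
    · left
      split_ifs <;> omega
    · by_cases hc : 1 ≤ j1 ∧ 1 ≤ j1'
      · right
        refine ⟨hc.1, hc.2, rfl, ?_⟩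
        have e2 : j2 = 0 := by omega
        have e2' : j2' = 0 := by omega
        subst e2
        subst e2'
        exact small_mul (show (0 : ℤ) < q2 by omega) h2' (by omega) (by omega)
      · left
        split_ifs <;> omega
    · left
      split_ifs <;> omega

lemma exactV (q1 q2 b R : ℕ) (hR1 : 4 * R + 8 ≤ q1) (hR2 : 4 * R + 8 ≤ q2)
    (j1 j2 j1' j2' : ℕ) (hj : VJ q1 q2 j1 j2) (hj' : VJ q1 q2 j1' j2')
    (u : Fin 7 → ℤ) (hu : ∀ i, |u i| ≤ R)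
    (h : InL q1 q2 (Pv q1 q2 b j1' j2' + Pv q1 q2 b j1 j2 - u)) :
    ∃ k1 k2 : ℤ, (Pv q1 q2 b j1' j2' + Pv q1 q2 b j1 j2 - u) 0 = k1 * q1 ∧
      (Pv q1 q2 b j1' j2' + Pv q1 q2 b j1 j2 - u) 1 = k2 * q2 ∧
      (|k1| ≤ 2 ∧ |k2| ≤ 2) ∧
      k1 = sec q1 j1' + sec q1 j1 := by
  obtain ⟨⟨k1, h1⟩, ⟨k2, h2⟩, h3⟩ := h
  have hu0 := abs_le.1 (hu 0)
  have hu1 := abs_le.1 (hu 1)
  have hu6 := abs_le.1 (hu 6)
  have h6 := h3 6 (by decide) (by decide)
  obtain ⟨hj1, hj2, hj3⟩ := hj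
  obtain ⟨hj1', hj2', hj3'⟩ := hj'
  have h1' : (j1' : ℤ) + j1 - u 0 = k1 * q1 := by simpa [Pv] using h1
  have h2' : (j2' : ℤ) + j2 - u 1 = k2 * q2 := by simpa [Pv] using h2
  have h6' : (zf q1 j1' + zf q2 j2') + (zf q1 j1 + zf q2 j2) - u 6 = 0 := by
    simpa [Pv] using h6
  obtain ⟨z1, -⟩ := zf_bounds q1 j1 (by omega) (by omega)
  obtain ⟨z2, -⟩ := zf_bounds q1 j1' (by omega) (by omega)
  obtain ⟨z3, -⟩ := zf_bounds q2 j2 (by omega) (by omega)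
  obtain ⟨z4, -⟩ := zf_bounds q2 j2' (by omega) (by omega)
  have w1 : zf q1 j1 ≤ R := by omega
  have w2 : zf q1 j1' ≤ R := by omega
  unfold zf at w1 w2
  have K1 := small_mul3 (show (0 : ℤ) < q1 by omega) h1' (by omega) (by omega)
  have K2 := small_mul3 (show (0 : ℤ) < q2 by omega) h2' (by omega) (by omega)
  refine ⟨k1, k2, h1, h2, ⟨?_, ?_⟩, ?_⟩
  · rcases K1 with rfl | rfl | rfl <;> norm_num
  · rcases K2 with rfl | rfl | rfl <;> norm_num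
  · unfold sec
    rcases K1 with rfl | rfl | rfl <;> split_ifs <;> omega

section circle

lemma norm_coe_le (x : ℝ) : ‖(x : UnitAddCircle)‖ ≤ |x| := by
  rw [UnitAddCircle.norm_eq]
  simpa using round_le x 0

lemma coe_inj_small {x y : ℝ} (h : |x - y| < 1) (hxy : (x : UnitAddCircle) = (y : UnitAddCircle)) :
    x = y := by
  have h1 : ((x - y : ℝ) : UnitAddCircle) = 0 := by
    rw [AddCircle.coe_sub, hxy, sub_self]
  rw [AddCircle.coe_eq_zero_iff] at h1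
  obtain ⟨n, hn⟩ := h1
  have h2 : (n : ℝ) = x - y := by simpa using hn
  rw [← h2] at h
  have h3 : |n| < 1 := by exact_mod_cast h
  have h4 : n = 0 := by
    have := abs_lt.1 h3
    omega
  rw [h4] at h2
  push_cast at h2
  linarith

variable {α : Fin 7 → UnitAddCircle}

lemma Phi_InL (l : Lev α) {n : Fin 7 → ℤ} (hn : InL l.q1 l.q2 n) {k1 k2 : ℤ}
    (h0 : n 0 = k1 * l.q1) (h1 : n 1 = k2 * l.q2) :
    Phi α n = ((-(k1 * l.τ) - k2 * l.L : ℝ) : UnitAddCircle) := by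
  obtain ⟨-, -, h2⟩ := hn
  have e2 := h2 2 (by decide) (by decide)
  have e3 := h2 3 (by decide) (by decide)
  have e4 := h2 4 (by decide) (by decide)
  have e5 := h2 5 (by decide) (by decide)
  have e6 := h2 6 (by decide) (by decide)
  simp only [Phi, Fin.sum_univ_seven]
  rw [h0, h1, e2, e3, e4, e5, e6]
  simp only [zero_smul, add_zero]
  rw [mul_smul, l.h1, mul_smul, l.h2, ← AddCircle.coe_zsmul, ← AddCircle.coe_zsmul,
    ← AddCircle.coe_add]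
  congr 1
  rw [zsmul_eq_mul, zsmul_eq_mul]
  ring

end circle

end Pool.Agent.Helper46.Gardner
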