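import Pool.Agent.Helper46.Gardner.Amen

open MeasureTheory Set Filter Topology

namespace Pool.Agent.Helper46.Gardner

/-- The statement for a given space. -/
def Stmt (X : Type) [NormedAddCommGroup X] [MeasureSpace X] : Prop :=
    ∀ (G : Subgroup (X ≃ᵢ X)) (A B : Set X),
      Bornology.IsBounded A → Bornology.IsBounded B →
      NullMeasurableSet A volume → NullMeasurableSet B volume →
      (∃ m : Set G → ℝ, (∀ S, 0 ≤ m S) ∧ m Set.univ = 1 ∧
          (∀ S T : Set G, Disjoint S T → m (S ∪ T) = m S + m T) ∧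
          (∀ (g : G) (S : Set G), m ((fun h => g * h) '' S) = m S)) →
      (∃ k : ℕ, ∃ P : Fin k → Set X, ∃ g : Fin k → (X ≃ᵢ X),
          (∀ i, g i ∈ G) ∧ (⋃ i, P i) = A ∧
          Pairwise (fun i j => Disjoint (P i) (P j)) ∧
          (⋃ i, (⇑(g i)) '' (P i)) = B ∧
          Pairwise (fun i j => Disjoint ((⇑(g i)) '' (P i)) ((⇑(g j)) '' (P j)))) →
      (∃ k : ℕ, ∃ P : Fin k → Set X, ∃ g : Fin k → (X ≃ᵢ X),
          (∀ i, NullMeasurableSet (P i) volume) ∧ (⋃ i, P i) = A ∧
          Pairwise (fun i j => Disjoint (P i) (P j)) ∧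
          (⋃ i, (⇑(g i)) '' (P i)) = B ∧
          Pairwise (fun i j => Disjoint ((⇑(g i)) '' (P i)) ((⇑(g j)) '' (P j))))

section transfer

variable {X Y : Type} [NormedAddCommGroup X] [MeasureSpace X] [NormedAddCommGroup Y]
  [MeasureSpace Y]

/-- Conjugation by an isometry, pulled back. -/
def pull (e : X ≃ᵢ Y) : (Y ≃ᵢ Y) →* (X ≃ᵢ X) where
  toFun h := (e.trans h).trans e.symm
  map_one' := by
    ext x
    show e.symm (e x) = x
    simp
  map_mul' g h := by
    ext x
    show e.symm (g (h (e x))) = e.symm (g (e (e.symm (h (e x)))))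
    simp

lemma pull_apply (e : X ≃ᵢ Y) (h : Y ≃ᵢ Y) (x : X) : pull e h x = e.symm (h (e x)) := rfl

lemma pull_pull (e : X ≃ᵢ Y) (g : X ≃ᵢ X) : pull e (pull e.symm g) = g := by
  ext x
  rw [pull_apply, pull_apply]
  simp

lemma mean_transfer (e : X ≃ᵢ Y) (G : Subgroup (X ≃ᵢ X)) (h : HasMean G) :
    HasMean (G.comap (pull e)) := by
  have hmem : ∀ g : G, pull e.symm g.1 ∈ G.comap (pull e) := by
    intro g
    rw [Subgroup.mem_comap, pull_pull]
    exact g.2
  refine HasMean.of_surj (G := G) (G' := G.comap (pull e))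
    (MonoidHom.mk' (fun g => ⟨pull e.symm g.1, hmem g⟩) ?_) ?_ h
  · intro a b
    apply Subtype.ext
    show pull e.symm (a.1 * b.1) = pull e.symm a.1 * pull e.symm b.1
    rw [map_mul]
  · rintro ⟨g', hg'⟩
    refine ⟨⟨pull e g', hg'⟩, ?_⟩
    apply Subtype.ext
    show pull e.symm (pull e g') = g'
    exact pull_pull e.symm g'

lemma image_conj (e : X ≃ᵢ Y) (g : X ≃ᵢ X) (P : Set X) :
    (pull e.symm g) '' (e '' P) = e '' (g '' P) := by
  rw [image_image, image_image]
  ext y
  simp only [mem_image, pull_apply]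
  simp

lemma image_conj' (e : X ≃ᵢ Y) (g : Y ≃ᵢ Y) (P : Set Y) :
    (pull e g) '' (e ⁻¹' P) = e ⁻¹' (g '' P) := by
  ext x
  simp only [mem_image, mem_preimage, pull_apply]
  constructor
  · rintro ⟨y, hy, rfl⟩
    exact ⟨e y, hy, by simp⟩
  · rintro ⟨y, hy, h⟩
    exact ⟨e.symm y, by simpa using hy, by simp [h]⟩

lemma Stmt_transfer (e : X ≃ᵢ Y) (he : MeasurePreserving e volume volume)
    (he' : MeasurePreserving e.symm volume volume) (h : Stmt Y) : Stmt X := by
  intro G A B hA hB hAm hBm hmean hdec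
  have hpre : ∀ S : Set X, e '' S = e.symm ⁻¹' S := by
    intro S
    ext y
    constructor
    · rintro ⟨x, hx, rfl⟩
      simpa using hx
    · intro hy
      exact ⟨e.symm y, hy, by simp⟩
  have hpre' : ∀ S : Set X, e ⁻¹' (e '' S) = S := fun S => preimage_image_eq S e.injective
  have hmean' : HasMean (G.comap (pull e)) := mean_transfer e G hmean
  obtain ⟨k, P, g, h1, h2, h3, h4, h5⟩ := hdec
  have hout := h (G.comap (pull e)) (e '' A) (e '' B)
    (e.isometry.lipschitz.isBounded_image hA) (e.isometry.lipschitz.isBounded_image hB)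
    (by rw [hpre]; exact hAm.preimage he'.quasiMeasurePreserving)
    (by rw [hpre]; exact hBm.preimage he'.quasiMeasurePreserving)
    hmean' ⟨k, fun i => e '' P i, fun i => pull e.symm (g i), ?_, ?_, ?_, ?_, ?_⟩
  · obtain ⟨k', P', g', k1, k2, k3, k4, k5⟩ := hout
    refine ⟨k', fun i => e ⁻¹' P' i, fun i => pull e (g' i), ?_, ?_, ?_, ?_, ?_⟩
    · intro i
      exact (k1 i).preimage he.quasiMeasurePreserving
    · rw [← preimage_iUnion, k2, hpre']
    · intro i j hij
      exact (k3 hij).preimage e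
    · simp only [image_conj']
      rw [← preimage_iUnion, k4, hpre']
    · intro i j hij
      simp only [image_conj']
      exact (k5 hij).preimage e
  · intro i
    rw [Subgroup.mem_comap, pull_pull]
    exact h1 i
  · rw [← image_iUnion, h2]
  · intro i j hij
    exact (disjoint_image_iff e.injective).2 (h3 hij)
  · simp only [image_conj]
    rw [← image_iUnion, h4]
  · intro i j hij
    simp only [image_conj]
    exact (disjoint_image_iff e.injective).2 (h5 hij)

end transfer

/-- A bijection with finitely many types of maps gives an equidecomposition. -/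
lemma dec_of_bij {X : Type} [NormedAddCommGroup X] (A B : Set X) (F : X → X) (hF : BijOn F A B)
    (k : ℕ) (g : Fin k → (X ≃ᵢ X)) (hg : ∀ x ∈ A, ∃ i, F x = g i x) :
    ∃ P : Fin k → Set X, (⋃ i, P i) = A ∧
          Pairwise (fun i j => Disjoint (P i) (P j)) ∧
          (⋃ i, (⇑(g i)) '' (P i)) = B ∧
          Pairwise (fun i j => Disjoint ((⇑(g i)) '' (P i)) ((⇑(g j)) '' (P j))) := by
  classical
  choose c hc using hg
  refine ⟨fun i => {x | ∃ h : x ∈ A, c x h = i}, ?_, ?_, ?_, ?_⟩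
  · ext x
    simp only [mem_iUnion, mem_setOf_eq]
    constructor
    · rintro ⟨i, h, -⟩
      exact h
    · intro h
      exact ⟨c x h, h, rfl⟩
  · intro i j hij
    rw [Set.disjoint_left]
    rintro x ⟨h, h1⟩ ⟨h', h2⟩
    exact hij (h1.symm.trans h2)
  · ext y
    simp only [mem_iUnion, mem_image, mem_setOf_eq]
    constructor
    · rintro ⟨i, x, ⟨h, hi⟩, rfl⟩
      have := hc x h
      rw [hi] at this
      rw [← this]
      exact hF.mapsTo h
    · intro hy
      obtain ⟨x, hx, hxy⟩ := hF.surjOn hy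
      exact ⟨c x hx, x, ⟨hx, rfl⟩, by rw [← hc x hx, hxy]⟩
  · intro i j hij
    rw [Set.disjoint_left]
    rintro y ⟨x, ⟨h, hi⟩, rfl⟩ ⟨x', ⟨h', hj⟩, hxx⟩
    have e1 := hc x h
    have e2 := hc x' h'
    rw [hi] at e1
    rw [hj] at e2
    have : F x' = F x := by rw [e1, e2, hxx]
    have hx := hF.injOn h' h this
    subst hx
    exact hij (hi.symm.trans hj)

theorem not_Stmt_C : ¬ Stmt ℂ := by
  classical
  intro h
  obtain ⟨α, ⟨σ⟩⟩ := exists_seq
  have hfin : {w : Fin 7 → ℤ | ∀ i, |w i| ≤ 1}.Finite := by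
    refine (Set.finite_Icc (fun _ : Fin 7 => (-1 : ℤ)) (fun _ => (1 : ℤ))).subset ?_
    intro u hu
    exact ⟨fun i => (abs_le.1 (hu i)).1, fun i => (abs_le.1 (hu i)).2⟩
  have : Fintype {w : Fin 7 → ℤ | ∀ i, |w i| ≤ 1} := hfin.fintype
  set ι := {w : Fin 7 → ℤ | ∀ i, |w i| ≤ 1} × Bool with hι
  set k := Fintype.card ι with hk
  let eq : Fin k ≃ ι := (Fintype.equivFin ι).symm
  let g : Fin k → (ℂ ≃ᵢ ℂ) := fun i =>
    gI α (if (eq i).2 then (-(eq i).1.1, true) else ((eq i).1.1, false))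
  choose f hf1 hf2 using fun n i : ℕ =>
    exists_bij (σ.l n) (8 ^ i) (Nat.one_le_pow _ _ (by norm_num))
  obtain ⟨F, hF, hFz⟩ := σ.plane_bij (SA σ) (SB σ) f hf1
  have hg : ∀ z ∈ σ.plane (SA σ), ∃ i, F z = g i z := by
    intro z hz
    obtain ⟨n, i, hzi, hFe⟩ := hFz z hz
    obtain ⟨w, hw, hor⟩ := hf2 n i (angl z) hzi
    rcases hor with h1 | h1
    · refine ⟨eq.symm (⟨w, hw⟩, false), ?_⟩
      simp only [g, Equiv.apply_symm_apply, Bool.false_eq_true, if_false]
      rw [hFe, h1, E_add]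
      simp only [gI, Bool.false_eq_true, if_false, rotI_apply]
      nth_rewrite 3 [← E_angl z]
      ring
    · refine ⟨eq.symm (⟨w, hw⟩, true), ?_⟩
      simp only [g, Equiv.apply_symm_apply, if_true]
      rw [hFe, h1]
      simp only [gI, if_true, refI_apply, Phi_neg]
      nth_rewrite 3 [← E_angl z]
      rw [neg_add, E_add, E_neg, map_mul, Complex.conj_ofReal]
      ring
  obtain ⟨P, hP⟩ := dec_of_bij _ _ F hF k g hg
  have hbd : ∀ S, Bornology.IsBounded (σ.plane S) := by
    intro S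
    refine (Metric.isBounded_ball (x := (0 : ℂ)) (r := 1)).subset ?_
    intro z hz
    rw [Metric.mem_ball, dist_zero_right]
    exact (σ.plane_norm S hz).2
  obtain ⟨k', P', g', k1, k2, k3, k4, k5⟩ := h (Gp α) (σ.plane (SA σ)) (σ.plane (SB σ))
    (hbd _) (hbd _)
    (σ.plane_meas _ fun n i => meas_setA _ _).nullMeasurableSet
    (σ.plane_meas _ fun n i => meas_setB _ _).nullMeasurableSet
    (Gp_mean α) ⟨k, P, g, fun i => ⟨_, rfl⟩, hP⟩
  exact no_plane σ k' P' g' k1 k2 k3 k4 k5

end Pool.Agent.Helper46.Gardner
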