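import Mathlib

open MeasureTheory Set

namespace Pool.Agent.Helper46.Gardner

/-- A monic quadratic hits a multiple of `s` on every interval of length `lam`, if `s ≤ lam²/4`. -/
lemma quad_hits (B C a lam s : ℝ) (hlam : 0 < lam) (hs : 0 < s) (hsl : s ≤ lam ^ 2 / 4) :
    ∃ ρ ∈ Icc a (a + lam), ∃ n : ℤ, ρ ^ 2 - 2 * B * ρ + C = n * s := by
  set v : ℝ → ℝ := fun ρ => ρ ^ 2 - 2 * B * ρ + C with hv
  have hcont : Continuous v := by
    rw [hv]; fun_prop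
  have key : ∃ p ∈ Icc a (a + lam), ∃ q ∈ Icc a (a + lam), v p + s ≤ v q := by
    by_contra hcon
    push Not at hcon
    have m0 : a ∈ Icc a (a + lam) := ⟨le_rfl, by linarith⟩
    have m1 : a + lam / 2 ∈ Icc a (a + lam) := ⟨by linarith, by linarith⟩
    have m2 : a + lam ∈ Icc a (a + lam) := ⟨by linarith, le_rfl⟩
    have h1 := hcon _ m1 _ m0
    have h2 := hcon _ m1 _ m2
    simp only [hv] at h1 h2
    nlinarith
  obtain ⟨p, hp, q, hq, hpq⟩ := key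
  set n : ℤ := ⌈v p / s⌉ with hn
  have h1 : v p ≤ n * s := by
    have := Int.le_ceil (v p / s)
    rwa [div_le_iff₀ hs] at this
  have h2 : (n : ℝ) * s ≤ v q := by
    have := (Int.ceil_lt_add_one (v p / s)).le
    have h3 : (n : ℝ) * s ≤ (v p / s + 1) * s := by
      apply mul_le_mul_of_nonneg_right _ hs.le
      exact_mod_cast this
    have h4 : (v p / s + 1) * s = v p + s := by
      field_simp
    linarith
  have hivt := intermediate_value_uIcc (f := v) (a := p) (b := q) hcont.continuousOn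
  have hmem : (n : ℝ) * s ∈ uIcc (v p) (v q) := by
    rw [mem_uIcc]
    left
    exact ⟨h1, h2⟩
  obtain ⟨ρ, hρ, hρv⟩ := hivt hmem
  refine ⟨ρ, ?_, n, hρv⟩
  rw [mem_uIcc] at hρ
  rcases hρ with h | h
  · exact ⟨by linarith [hp.1], by linarith [hq.2, h.2]⟩
  · exact ⟨by linarith [hq.1], by linarith [hp.2, h.2]⟩

/-- The scale recursion. -/
noncomputable def nxt (θ x : ℝ) : ℝ := θ * (x ^ 2 / 4) / 64

lemma nxt_pos {θ x : ℝ} (hθ : 0 < θ) (hx : 0 < x) : 0 < nxt θ x := by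
  unfold nxt; positivity

lemma nxt_le {θ x : ℝ} (_hθ : 0 < θ) (hθ1 : θ ≤ 1) (hx : 0 < x) (hx1 : x ≤ 1) :
    nxt θ x ≤ x / 2 := by
  unfold nxt
  have h1 : θ * (x ^ 2 / 4) ≤ 1 * (x ^ 2 / 4) :=
    mul_le_mul_of_nonneg_right hθ1 (by positivity)
  have h2 : x ^ 2 ≤ x := by nlinarith
  linarith

/-- Successive scales. -/
noncomputable def lam (θ : ℝ) (k : ℕ) (x : ℝ) : ℝ := (nxt θ)^[k] x

lemma lam_zero (θ x : ℝ) : lam θ 0 x = x := rfl

lemma lam_succ' (θ x : ℝ) (k : ℕ) : lam θ (k + 1) x = lam θ k (nxt θ x) := rfl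

lemma lam_succ (θ x : ℝ) (k : ℕ) : lam θ (k + 1) x = nxt θ (lam θ k x) := by
  unfold lam
  rw [Function.iterate_succ_apply']

lemma lam_pos {θ x : ℝ} (hθ : 0 < θ) (hx : 0 < x) (k : ℕ) : 0 < lam θ k x := by
  induction k with
  | zero => exact hx
  | succ k ih => rw [lam_succ]; exact nxt_pos hθ ih

lemma lam_le_one {θ x : ℝ} (hθ : 0 < θ) (hθ1 : θ ≤ 1) (hx : 0 < x) (hx1 : x ≤ 1) (k : ℕ) :
    lam θ k x ≤ 1 := by
  induction k with
  | zero => exact hx1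
  | succ k ih =>
    rw [lam_succ]
    have := nxt_le hθ hθ1 (lam_pos hθ hx k) ih
    have := lam_pos hθ hx k
    linarith

lemma lam_anti {θ x : ℝ} (hθ : 0 < θ) (hθ1 : θ ≤ 1) (hx : 0 < x) (hx1 : x ≤ 1) :
    Antitone (fun k => lam θ k x) := by
  apply antitone_nat_of_succ_le
  intro k
  rw [lam_succ]
  have := nxt_le hθ hθ1 (lam_pos hθ hx k) (lam_le_one hθ hθ1 hx hx1 k)
  have := lam_pos hθ hx k
  linarith

/-- The nested choice of a radius. -/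
lemma chain {θ : ℝ} (hθ : 0 < θ) (hθ1 : θ ≤ 1) (M : ℕ) :
    ∀ (x a : ℝ) (B C : ℕ → ℝ), 0 < x → x ≤ 1 → 0 ≤ a → a + 2 * x ≤ 1 →
      (∀ k, |B k| ≤ 2) →
      ∃ ρ ∈ Icc a (a + 2 * x), ∀ k < M, ∃ n : ℤ,
        |ρ ^ 2 - 2 * B k * ρ + C k - n * ((lam θ k x) ^ 2 / 4)| ≤ 12 * lam θ (k + 1) x := by
  induction M with
  | zero =>
    intro x a B C hx _ _ _ _
    exact ⟨a, ⟨le_rfl, by linarith⟩, fun k hk => absurd hk (Nat.not_lt_zero k)⟩
  | succ M ih =>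
    intro x a B C hx hx1 ha hax hB
    obtain ⟨ρ1, hρ1, n, hn⟩ := quad_hits (B 0) (C 0) a x (x ^ 2 / 4) hx (by positivity) le_rfl
    have hn1 := nxt_pos hθ hx
    have hn2 := nxt_le hθ hθ1 hx hx1
    obtain ⟨ρ, hρ, hk⟩ := ih (nxt θ x) ρ1 (fun k => B (k + 1)) (fun k => C (k + 1)) hn1
      (by linarith) (by linarith [hρ1.1]) (by linarith [hρ1.2]) (fun k => hB (k + 1))
    refine ⟨ρ, ⟨by linarith [hρ1.1, hρ.1], by linarith [hρ1.2, hρ.2]⟩, ?_⟩
    intro k hkM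
    rcases k with _ | k
    · refine ⟨n, ?_⟩
      rw [lam_zero, lam_succ, lam_zero, ← hn]
      have e : ρ ^ 2 - 2 * B 0 * ρ + C 0 - (ρ1 ^ 2 - 2 * B 0 * ρ1 + C 0) =
          (ρ - ρ1) * (ρ + ρ1 - 2 * B 0) := by ring
      rw [e, abs_mul]
      have h1 : |ρ - ρ1| ≤ 2 * nxt θ x := by
        rw [abs_le]; constructor <;> linarith [hρ.1, hρ.2]
      have h2 : |ρ + ρ1 - 2 * B 0| ≤ 6 := by
        have := abs_le.1 (hB 0)
        rw [abs_le]
        constructor <;> linarith [hρ.1, hρ.2, hρ1.1, hρ1.2]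
      calc |ρ - ρ1| * |ρ + ρ1 - 2 * B 0| ≤ (2 * nxt θ x) * 6 :=
            mul_le_mul h1 h2 (abs_nonneg _) (by positivity)
        _ = 12 * nxt θ x := by ring
    · obtain ⟨m, hm⟩ := hk k (by omega)
      exact ⟨m, hm⟩

end Pool.Agent.Helper46.Gardner
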