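import Pool.Agent.Helper46.Gardner.Holes

open MeasureTheory Set

namespace Pool.Agent.Helper46.Gardner

/-- Area of an annulus in terms of squared radii. -/
lemma area_annulus_eq {a b : ℝ} (ha : 0 ≤ a) (hab : a ≤ b) :
    volume {z : ℂ | a ≤ ‖z‖ ^ 2 ∧ ‖z‖ ^ 2 ≤ b} = ENNReal.ofReal (Real.pi * (b - a)) := by
  have hb : 0 ≤ b := ha.trans hab
  have hset : {z : ℂ | a ≤ ‖z‖ ^ 2 ∧ ‖z‖ ^ 2 ≤ b} =
      Metric.closedBall (0 : ℂ) (Real.sqrt b) \ Metric.ball (0 : ℂ) (Real.sqrt a) := by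
    ext z
    simp only [mem_setOf_eq, mem_diff, Metric.mem_closedBall, dist_zero_right, Metric.mem_ball,
      not_lt]
    constructor
    · rintro ⟨h1, h2⟩
      exact ⟨Real.le_sqrt_of_sq_le h2, (Real.sqrt_le_left (norm_nonneg z)).2 h1⟩
    · rintro ⟨h1, h2⟩
      exact ⟨(Real.sqrt_le_left (norm_nonneg z)).1 h2, (Real.le_sqrt (norm_nonneg z) hb).1 h1⟩
  have hsub : Metric.ball (0 : ℂ) (Real.sqrt a) ⊆ Metric.closedBall (0 : ℂ) (Real.sqrt b) :=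
    Metric.ball_subset_closedBall.trans (Metric.closedBall_subset_closedBall (Real.sqrt_le_sqrt hab))
  rw [hset, measure_diff hsub measurableSet_ball.nullMeasurableSet
    (by rw [Complex.volume_ball]; finiteness), Complex.volume_ball, Complex.volume_closedBall]
  rw [← ENNReal.ofReal_pow (Real.sqrt_nonneg _), ← ENNReal.ofReal_pow (Real.sqrt_nonneg _),
    Real.sq_sqrt ha, Real.sq_sqrt hb]
  have hpi : (NNReal.pi : ENNReal) = ENNReal.ofReal Real.pi := by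
    rw [← NNReal.coe_real_pi, ENNReal.ofReal_coe_nnreal]
  rw [hpi, ← ENNReal.ofReal_mul hb, ← ENNReal.ofReal_mul ha, ← ENNReal.ofReal_sub _ (by positivity)]
  congr 1
  ring

lemma area_annulus_le {a b : ℝ} (hab : a ≤ b) :
    volume {z : ℂ | a ≤ ‖z‖ ^ 2 ∧ ‖z‖ ^ 2 ≤ b} ≤ ENNReal.ofReal (Real.pi * (b - a)) := by
  rcases lt_or_ge b 0 with hb | hb
  · have : {z : ℂ | a ≤ ‖z‖ ^ 2 ∧ ‖z‖ ^ 2 ≤ b} = ∅ := by
      ext z
      simp only [mem_setOf_eq, mem_empty_iff_false, iff_false, not_and, not_le]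
      intro _
      have := sq_nonneg ‖z‖
      linarith
    rw [this]
    simp
  · have h1 : {z : ℂ | a ≤ ‖z‖ ^ 2 ∧ ‖z‖ ^ 2 ≤ b} ⊆ {z : ℂ | max a 0 ≤ ‖z‖ ^ 2 ∧ ‖z‖ ^ 2 ≤ b} := by
      rintro z ⟨h1, h2⟩
      exact ⟨max_le h1 (sq_nonneg _), h2⟩
    refine (measure_mono h1).trans ?_
    rw [area_annulus_eq (le_max_right _ _) (max_le hab hb)]
    apply ENNReal.ofReal_le_ofReal
    apply mul_le_mul_of_nonneg_left _ Real.pi_pos.le
    linarith [le_max_left a 0]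

/-- The hole set. -/
def holeSet (Q M : ℕ) (θ x : ℝ) : Set ℝ :=
  {v | 1 / (16 * (Q : ℝ) ^ 2) ≤ v ∧ v ≤ 9 ∧ ∃ k < M, ∃ n : ℤ,
    |v - n * ((lam θ k x) ^ 2 / 4)| ≤ 64 * lam θ (k + 1) x}

lemma measurableSet_holeSet (Q M : ℕ) (θ x : ℝ) : MeasurableSet (holeSet Q M θ x) := by
  have : holeSet Q M θ x = Icc (1 / (16 * (Q : ℝ) ^ 2)) 9 ∩
      ⋃ k : ℕ, ⋃ _ : k < M, ⋃ n : ℤ, {v | |v - n * ((lam θ k x) ^ 2 / 4)| ≤ 64 * lam θ (k + 1) x} := by
    ext v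
    simp only [holeSet, mem_setOf_eq, mem_inter_iff, mem_Icc, mem_iUnion, exists_prop]
    tauto
  rw [this]
  apply measurableSet_Icc.inter
  apply MeasurableSet.iUnion
  intro k
  apply MeasurableSet.iUnion
  intro _
  apply MeasurableSet.iUnion
  intro n
  apply measurableSet_le
  · fun_prop
  · fun_prop

lemma area_one_scale {s θ : ℝ} (hs : 0 < s) (hs1 : s ≤ 1) (hθ : 0 < θ) (hθ1 : θ < 1) :
    volume {z : ℂ | ‖z‖ ^ 2 ≤ 9 ∧ ∃ n : ℤ, |‖z‖ ^ 2 - n * s| ≤ θ * s} ≤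
      ENNReal.ofReal (70 * θ) := by
  set N : ℕ := ⌊9 / s⌋₊ + 2 with hN
  have hsub : {z : ℂ | ‖z‖ ^ 2 ≤ 9 ∧ ∃ n : ℤ, |‖z‖ ^ 2 - n * s| ≤ θ * s} ⊆
      ⋃ n ∈ Finset.range N, {z : ℂ | (n : ℝ) * s - θ * s ≤ ‖z‖ ^ 2 ∧ ‖z‖ ^ 2 ≤ n * s + θ * s} := by
    rintro z ⟨h9, n, hn⟩
    rw [abs_le] at hn
    have hz := sq_nonneg ‖z‖
    have hn0 : -1 < (n : ℝ) := by
      by_contra hcon
      push Not at hcon
      have : (n : ℝ) * s ≤ -1 * s := mul_le_mul_of_nonneg_right hcon hs.le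
      nlinarith
    have hn0' : 0 ≤ n := by
      have : (-1 : ℤ) < n := by exact_mod_cast hn0
      omega
    obtain ⟨m, rfl⟩ := Int.eq_ofNat_of_zero_le hn0'
    have hm : (m : ℝ) < 9 / s + 1 := by
      have h1 : (m : ℝ) * s ≤ 9 + θ * s := by
        have : ((m : ℤ) : ℝ) = (m : ℝ) := by norm_cast
        rw [this] at hn
        linarith
      have h2 : (m : ℝ) ≤ 9 / s + θ := by
        have h3 : 9 / s + θ = (9 + θ * s) / s := by field_simp
        rw [h3, le_div_iff₀ hs]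
        exact h1
      linarith
    have hmN : m < N := by
      have h1 := Nat.lt_floor_add_one (9 / s)
      have : (m : ℝ) < ((⌊9 / s⌋₊ + 2 : ℕ) : ℝ) := by
        push_cast
        linarith
      exact_mod_cast this
    simp only [mem_iUnion, Finset.mem_range, exists_prop, mem_setOf_eq]
    refine ⟨m, hmN, ?_, ?_⟩
    · have : ((m : ℤ) : ℝ) = (m : ℝ) := by norm_cast
      rw [this] at hn
      linarith
    · have : ((m : ℤ) : ℝ) = (m : ℝ) := by norm_cast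
      rw [this] at hn
      linarith
  refine (measure_mono hsub).trans ((measure_biUnion_finset_le _ _).trans ?_)
  have h1 : ∀ n ∈ Finset.range N,
      volume {z : ℂ | (n : ℝ) * s - θ * s ≤ ‖z‖ ^ 2 ∧ ‖z‖ ^ 2 ≤ n * s + θ * s} ≤
        ENNReal.ofReal (Real.pi * (2 * (θ * s))) := by
    intro n _
    refine (area_annulus_le (by nlinarith [mul_pos hθ hs])).trans (le_of_eq ?_)
    congr 1
    ring
  refine (Finset.sum_le_sum h1).trans ?_
  rw [Finset.sum_const, Finset.card_range, nsmul_eq_mul]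
  have h2 : ((N : ℕ) : ENNReal) = ENNReal.ofReal (N : ℝ) := by
    rw [ENNReal.ofReal_natCast]
  rw [h2, ← ENNReal.ofReal_mul (by positivity)]
  apply ENNReal.ofReal_le_ofReal
  have h3 : (N : ℝ) ≤ 9 / s + 2 := by
    rw [hN]
    push_cast
    have := Nat.floor_le (show 0 ≤ 9 / s by positivity)
    linarith
  have h4 : (N : ℝ) * (Real.pi * (2 * (θ * s))) ≤ (9 / s + 2) * (Real.pi * (2 * (θ * s))) :=
    mul_le_mul_of_nonneg_right h3 (by have := Real.pi_pos; positivity)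
  have h5 : (9 / s + 2) * (Real.pi * (2 * (θ * s))) = Real.pi * θ * (18 + 4 * s) := by
    field_simp
    ring
  rw [h5] at h4
  have h6 : Real.pi * θ * (18 + 4 * s) ≤ Real.pi * θ * 22 :=
    mul_le_mul_of_nonneg_left (by linarith) (by have := Real.pi_pos; positivity)
  have h7 : Real.pi * θ * 22 ≤ 3.15 * θ * 22 := by
    have := Real.pi_lt_d2
    have h8 : Real.pi * θ ≤ 3.15 * θ := mul_le_mul_of_nonneg_right this.le hθ.le
    linarith
  linarith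

lemma area_holeSet (Q M : ℕ) {θ x : ℝ} (hθ : 0 < θ) (hθ1 : θ < 1) (hx : 0 < x) (hx1 : x ≤ 1) :
    volume {z : ℂ | ‖z‖ ^ 2 ∈ holeSet Q M θ x} ≤ ENNReal.ofReal (M * (70 * θ)) := by
  have hsub : {z : ℂ | ‖z‖ ^ 2 ∈ holeSet Q M θ x} ⊆ ⋃ k ∈ Finset.range M,
      {z : ℂ | ‖z‖ ^ 2 ≤ 9 ∧ ∃ n : ℤ, |‖z‖ ^ 2 - n * ((lam θ k x) ^ 2 / 4)| ≤
        θ * ((lam θ k x) ^ 2 / 4)} := by
    rintro z ⟨_, h9, k, hk, n, hn⟩
    simp only [mem_iUnion, Finset.mem_range, exists_prop, mem_setOf_eq]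
    refine ⟨k, hk, h9, n, ?_⟩
    refine hn.trans (le_of_eq ?_)
    rw [lam_succ]
    unfold nxt
    ring
  refine (measure_mono hsub).trans ((measure_biUnion_finset_le _ _).trans ?_)
  have h1 : ∀ k ∈ Finset.range M,
      volume {z : ℂ | ‖z‖ ^ 2 ≤ 9 ∧ ∃ n : ℤ, |‖z‖ ^ 2 - n * ((lam θ k x) ^ 2 / 4)| ≤
        θ * ((lam θ k x) ^ 2 / 4)} ≤ ENNReal.ofReal (70 * θ) := by
    intro k _
    have h2 := lam_pos hθ hx k
    have h3 := lam_le_one hθ hθ1.le hx hx1 k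
    exact area_one_scale (by positivity) (by nlinarith) hθ hθ1
  refine (Finset.sum_le_sum h1).trans ?_
  rw [Finset.sum_const, Finset.card_range, nsmul_eq_mul]
  have h2 : ((M : ℕ) : ENNReal) = ENNReal.ofReal (M : ℝ) := by
    rw [ENNReal.ofReal_natCast]
  rw [h2, ← ENNReal.ofReal_mul (by positivity)]

end Pool.Agent.Helper46.Gardner
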