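import Pool.Agent.Helper46.Gardner.Holes2

open MeasureTheory Set

namespace Pool.Agent.Helper46.Gardner

/-- The hole data attached to `Q`. -/
structure HoleData (Q : ℕ) where
  J : ℕ
  σ : ℕ → ℝ
  δ : ℝ
  w : ℝ
  H : Set ℝ
  δ_pos : 0 < δ
  w_pos : 0 < w
  σ_pos : ∀ j ≤ J, 0 < σ j
  σ_lt : ∀ j ≤ J, σ j + δ < 1 / (16 * (Q : ℝ) ^ 2)
  σ_ge : ∀ j ≤ J, 1 / (64 * (Q : ℝ) ^ 2) ≤ σ j
  σ_gap : ∀ j j', j < j' → σ j + δ ≤ σ j'
  H_meas : MeasurableSet H
  H_area : volume {z : ℂ | ‖z‖ ^ 2 ∈ H} ≤ ENNReal.ofReal (1 / Q)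
  H_ge : ∀ h ∈ H, 1 / (16 * (Q : ℝ) ^ 2) ≤ h
  spec : ∀ c e : ℕ → ℂ, (∀ l, 1 / (Q : ℝ) ≤ ‖c l‖ ∧ ‖c l‖ ≤ 2) → (∀ i, ‖e i‖ = 1) →
    ∃ j ≤ J, ∀ l < Q, ∀ i < Q, ∀ z : ℂ, σ j ≤ ‖z‖ ^ 2 → ‖z‖ ^ 2 ≤ σ j + δ →
      ‖z - ‖z‖ • e i‖ ≤ w * ‖z‖ → ‖z - c l‖ ^ 2 ∈ H

lemma exists_holeData (Q : ℕ) (hQ : 1 ≤ Q) : Nonempty (HoleData Q) := by
  have hQ1 : (1 : ℝ) ≤ Q := by exact_mod_cast hQ
  have hQ0 : (0 : ℝ) < Q := by linarith
  set M : ℕ := Q * Q with hM
  have hM1 : 1 ≤ M := Nat.mul_pos hQ hQ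
  have hMr : (1 : ℝ) ≤ M := by exact_mod_cast hM1
  set θ : ℝ := 1 / (70 * M * Q) with hθdef
  have hθ : 0 < θ := by positivity
  have hθ1 : θ < 1 := by
    rw [hθdef, div_lt_one (by positivity)]
    nlinarith
  set x : ℝ := 1 / (32 * Q) with hxdef
  set a : ℝ := 1 / (8 * Q) with hadef
  have hx : 0 < x := by positivity
  have hinv : (1 : ℝ) / Q ≤ 1 := by
    rw [div_le_one hQ0]; exact hQ1
  have hinv0 : (0 : ℝ) < 1 / Q := by positivity
  set u : ℝ := 1 / Q with hu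
  have hxu : x = u / 32 := by rw [hxdef, hu]; field_simp
  have hau : a = u / 8 := by rw [hadef, hu]; field_simp
  have hx1 : x ≤ 1 := by rw [hxu]; linarith
  set lM : ℝ := lam θ M x with hlM
  have hlM0 : 0 < lM := lam_pos hθ hx M
  have hanti := lam_anti hθ hθ1.le hx hx1
  have hlM1 : lM ≤ x / 2 := by
    have h1 : lM ≤ lam θ 1 x := hanti hM1
    have h2 : lam θ 1 x = nxt θ x := by rw [lam_succ, lam_zero]
    have h3 := nxt_le hθ hθ1.le hx hx1
    linarith
  set J : ℕ := ⌈2 * x / lM⌉₊ with hJ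
  have hJle : (J : ℝ) * lM ≤ 2 * x + lM := by
    have := (Nat.ceil_lt_add_one (show 0 ≤ 2 * x / lM by positivity)).le
    have h2 : (J : ℝ) * lM ≤ (2 * x / lM + 1) * lM := mul_le_mul_of_nonneg_right this hlM0.le
    have h3 : (2 * x / lM + 1) * lM = 2 * x + lM := by field_simp
    linarith
  have h16 : 1 / (16 * (Q : ℝ) ^ 2) = (u / 4) ^ 2 := by
    rw [hu]; field_simp; norm_num
  have hrj : ∀ j ≤ J, a + j * lM + lM ≤ 7 * u / 32 := by
    intro j hj
    have h1 : (j : ℝ) * lM ≤ J * lM :=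
      mul_le_mul_of_nonneg_right (by exact_mod_cast hj) hlM0.le
    linarith
  refine ⟨⟨J, fun j => (a + j * lM) ^ 2, 2 * a * lM, lM, holeSet Q M θ x, by positivity, hlM0,
    fun j _ => by positivity, ?_, ?_, ?_, measurableSet_holeSet _ _ _ _, ?_, fun h hh => hh.1, ?_⟩⟩
  · intro j hj
    have h1 := hrj j hj
    have hj0 : (0 : ℝ) ≤ j * lM := by positivity
    have h2 : (a + j * lM) ^ 2 + 2 * a * lM ≤ (a + j * lM + lM) ^ 2 := by nlinarith
    have h3 : (a + j * lM + lM) ^ 2 ≤ (7 * u / 32) ^ 2 :=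
      pow_le_pow_left₀ (by positivity) h1 2
    rw [h16]
    nlinarith
  · intro j hj
    have hj0 : (0 : ℝ) ≤ j * lM := by positivity
    have e1 : 1 / (64 * (Q : ℝ) ^ 2) = a ^ 2 := by
      rw [hadef]; field_simp; norm_num
    rw [e1]
    have ha0 : 0 ≤ a := by positivity
    exact pow_le_pow_left₀ ha0 (by linarith) 2
  · intro j j' hjj
    have hj0 : (0 : ℝ) ≤ j * lM := by positivity
    have ha0 : 0 < a := by positivity
    have h1 : (j : ℝ) + 1 ≤ j' := by exact_mod_cast hjj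
    have h2 : a + j * lM + lM ≤ a + j' * lM := by nlinarith
    have h3 : (a + j * lM + lM) ^ 2 ≤ (a + j' * lM) ^ 2 := pow_le_pow_left₀ (by positivity) h2 2
    nlinarith
  · refine (area_holeSet Q M hθ hθ1 hx hx1).trans (le_of_eq ?_)
    congr 1
    rw [hθdef]
    field_simp
  · intro c e hc he
    set B : ℕ → ℝ := fun k => inner ℝ (e (k % Q)) (c (k / Q)) with hB
    set C : ℕ → ℝ := fun k => ‖c (k / Q)‖ ^ 2 with hC
    have hBle : ∀ k, |B k| ≤ 2 := by
      intro k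
      refine (abs_real_inner_le_norm _ _).trans ?_
      rw [he, one_mul]
      exact (hc _).2
    obtain ⟨ρ, hρ, hk⟩ := chain hθ hθ1.le M x a B C hx hx1 (by positivity)
      (by rw [hxu, hau]; linarith) hBle
    set j : ℕ := ⌊(ρ - a) / lM⌋₊ with hj
    have hρa : 0 ≤ (ρ - a) / lM := div_nonneg (by linarith [hρ.1]) hlM0.le
    have hjJ : j ≤ J := by
      rw [hj, hJ]
      have h1 : (ρ - a) / lM ≤ 2 * x / lM := by
        apply div_le_div_of_nonneg_right _ hlM0.le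
        linarith [hρ.2]
      exact (Nat.floor_le_ceil _).trans (Nat.ceil_le_ceil h1)
    have hj1 : (j : ℝ) * lM ≤ ρ - a := by
      have := Nat.floor_le hρa
      rwa [le_div_iff₀ hlM0] at this
    have hj2 : ρ - a ≤ (j : ℝ) * lM + lM := by
      have := (Nat.lt_floor_add_one ((ρ - a) / lM)).le
      rw [div_le_iff₀ hlM0] at this
      linarith
    refine ⟨j, hjJ, ?_⟩
    intro l hl i hi z hz1 hz2 hz3
    have hQpos : 0 < Q := hQ
    set k : ℕ := l * Q + i with hkdef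
    have hkM : k < M := by
      rw [hkdef, hM]
      calc l * Q + i < l * Q + Q := by omega
        _ = (l + 1) * Q := by ring
        _ ≤ Q * Q := Nat.mul_le_mul_right _ hl
    have hkdiv : k / Q = l := by
      rw [hkdef, Nat.add_comm, Nat.add_mul_div_right _ _ hQpos, Nat.div_eq_of_lt hi, zero_add]
    have hkmod : k % Q = i := by
      rw [hkdef, Nat.add_comm, Nat.add_mul_mod_self_right, Nat.mod_eq_of_lt hi]
    obtain ⟨n, hn⟩ := hk k hkM
    have hrr := hrj j hjJ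
    have hj0 : (0 : ℝ) ≤ j * lM := by positivity
    have ha0 : 0 < a := by positivity
    -- norm of z
    have hzr1 : a + j * lM ≤ ‖z‖ := by
      have := abs_le_of_sq_le_sq hz1 (norm_nonneg z)
      exact (le_abs_self _).trans (by simpa using this)
    have hzr2 : ‖z‖ ≤ a + j * lM + lM := by
      have h1 : ‖z‖ ^ 2 ≤ (a + j * lM + lM) ^ 2 := by
        refine hz2.trans ?_
        nlinarith
      exact (abs_le_of_sq_le_sq' h1 (by positivity)).2
    have hzu : ‖z‖ ≤ u / 4 := by linarith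
    -- distance to the model point
    have hd : ‖z - ρ • e i‖ ≤ 3 * lM := by
      have e1 : z - ρ • e i = (z - ‖z‖ • e i) + (‖z‖ - ρ) • e i := by
        rw [sub_smul]; abel
      rw [e1]
      refine (norm_add_le _ _).trans ?_
      rw [norm_smul, he, mul_one, Real.norm_eq_abs]
      have h1 : lM * ‖z‖ ≤ lM * 1 := mul_le_mul_of_nonneg_left (by linarith) hlM0.le
      have h2 : |‖z‖ - ρ| ≤ lM := by
        rw [abs_le]; constructor <;> linarith
      linarith
    have hval : ‖ρ • e i - c l‖ ^ 2 = ρ ^ 2 - 2 * B k * ρ + C k := by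
      rw [norm_sub_sq_real, norm_smul, he, mul_one, Real.norm_eq_abs, sq_abs,
        real_inner_smul_left]
      simp only [hB, hC, hkdiv, hkmod]
      ring
    have hc1 := (hc l).1
    have hc2 := (hc l).2
    have hn1 : ‖z - c l‖ ≤ 3 := by
      refine (norm_sub_le _ _).trans ?_
      linarith
    have hρ1 : ρ ≤ 1 := by
      have := hρ.2
      rw [hxu, hau] at this
      linarith
    have hρ0 : 0 ≤ ρ := by linarith [hρ.1]
    have hn2 : ‖ρ • e i - c l‖ ≤ 3 := by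
      refine (norm_sub_le _ _).trans ?_
      rw [norm_smul, he, mul_one, Real.norm_eq_abs, abs_of_nonneg hρ0]
      linarith
    have hdiff : |‖z - c l‖ ^ 2 - ‖ρ • e i - c l‖ ^ 2| ≤ 18 * lM := by
      have e1 : ‖z - c l‖ ^ 2 - ‖ρ • e i - c l‖ ^ 2 =
          (‖z - c l‖ - ‖ρ • e i - c l‖) * (‖z - c l‖ + ‖ρ • e i - c l‖) := by ring
      rw [e1, abs_mul]
      have h1 : |‖z - c l‖ - ‖ρ • e i - c l‖| ≤ 3 * lM := by
        refine (abs_norm_sub_norm_le _ _).trans ?_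
        have : z - c l - (ρ • e i - c l) = z - ρ • e i := by abel
        rw [this]
        exact hd
      have h2 : |‖z - c l‖ + ‖ρ • e i - c l‖| ≤ 6 := by
        rw [abs_of_nonneg (by positivity)]
        linarith
      calc _ ≤ (3 * lM) * 6 := mul_le_mul h1 h2 (abs_nonneg _) (by positivity)
        _ = 18 * lM := by ring
    have hlk : lM ≤ lam θ (k + 1) x := hanti hkM
    refine ⟨?_, ?_, k, hkM, n, ?_⟩
    · rw [h16]
      have h1 : 3 * u / 4 ≤ ‖z - c l‖ := by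
        have := norm_sub_norm_le (c l) z
        rw [norm_sub_rev] at this
        linarith
      have h2 : u / 4 ≤ ‖z - c l‖ := by linarith
      exact pow_le_pow_left₀ (by positivity) h2 2
    · have := norm_nonneg (z - c l)
      nlinarith
    · rw [hval] at hdiff
      have h0 := lam_pos hθ hx (k + 1)
      calc |‖z - c l‖ ^ 2 - n * ((lam θ k x) ^ 2 / 4)|
          ≤ |‖z - c l‖ ^ 2 - (ρ ^ 2 - 2 * B k * ρ + C k)| +
            |ρ ^ 2 - 2 * B k * ρ + C k - n * ((lam θ k x) ^ 2 / 4)| := abs_sub_le _ _ _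
        _ ≤ 18 * lM + 12 * lam θ (k + 1) x := add_le_add hdiff hn
        _ ≤ 64 * lam θ (k + 1) x := by linarith

/-- A choice of hole data. -/
noncomputable def hd (Q : ℕ) (hQ : 1 ≤ Q) : HoleData Q := (exists_holeData Q hQ).some

end Pool.Agent.Helper46.Gardner
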