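import Pool.Agent.Helper46.Gardner.Num

open MeasureTheory Set Filter Topology

namespace Pool.Agent.Helper46.Gardner

/-- Distance to `qℤ` on `[0,q]`. -/
def zf (q j : ℤ) : ℤ := min j (q - j)

/-- Shifted distance. -/
def z2f (q j : ℤ) : ℤ := min (j + q / 4) (max (q - q / 4 - j) (j - (q - q / 4)))

/-- Slowed down coordinates. -/
def y1f (q b j : ℤ) : ℤ := zf q j / b

def y2f (q b j : ℤ) : ℤ := z2f q j / b - (q / 4) / b

lemma circ_lower (q j j' : ℤ) (hj : 0 ≤ j) (hjq : j ≤ q) (hj' : 0 ≤ j') (hjq' : j' ≤ q) :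
    ∃ c k : ℤ, j' - j = c + k * q ∧ |c| ≤ |zf q j' - zf q j| + |z2f q j' - z2f q j| + 3 := by
  have key : |j' - j| ≤ |zf q j' - zf q j| + |z2f q j' - z2f q j| + 3 ∨
      |j' - j - q| ≤ |zf q j' - zf q j| + |z2f q j' - z2f q j| + 3 ∨
      |j' - j + q| ≤ |zf q j' - zf q j| + |z2f q j' - z2f q j| + 3 := by
    unfold zf z2f
    simp only [abs_eq_max_neg]
    omega
  rcases key with h | h | h
  · exact ⟨j' - j, 0, by ring, h⟩
  · exact ⟨j' - j - q, 1, by ring, h⟩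
  · exact ⟨j' - j + q, -1, by ring, h⟩

lemma circ_upper (q j j' c k : ℤ) (hj : 0 ≤ j) (hjq : j ≤ q) (hj' : 0 ≤ j') (hjq' : j' ≤ q)
    (h : j' - j = c + k * q) : |zf q j' - zf q j| ≤ |c| ∧ |z2f q j' - z2f q j| ≤ |c| := by
  have hq : 0 ≤ q := by omega
  have hk : k = 0 ∨ q ≤ k * q ∨ k * q ≤ -q := by
    rcases lt_trichotomy k 0 with h0 | h0 | h0
    · right; right
      have : k ≤ -1 := by omega
      nlinarith
    · left; exact h0
    · right; left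
      have : 1 ≤ k := by omega
      nlinarith
  unfold zf z2f
  simp only [abs_eq_max_neg]
  rcases hk with h0 | h0 | h0
  · subst h0
    simp only [zero_mul, add_zero] at h
    omega
  · set m := k * q
    omega
  · set m := k * q
    omega

lemma ediv_bounds (a b : ℤ) (hb : 1 ≤ b) : b * (a / b) ≤ a ∧ a ≤ b * (a / b) + (b - 1) := by
  have h1 := Int.mul_ediv_add_emod a b
  have h2 := Int.emod_nonneg a (show b ≠ 0 by omega)
  have h3 := Int.emod_lt_of_pos a (show 0 < b by omega)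
  constructor <;> linarith

lemma ediv_diff (a a' b : ℤ) (hb : 1 ≤ b) :
    b * |a / b - a' / b| ≤ |a - a'| + (b - 1) ∧ |a - a'| ≤ b * |a / b - a' / b| + (b - 1) := by
  obtain ⟨h1, h2⟩ := ediv_bounds a b hb
  obtain ⟨h3, h4⟩ := ediv_bounds a' b hb
  have e : b * |a / b - a' / b| = |b * (a / b) - b * (a' / b)| := by
    rw [← mul_sub, abs_mul, abs_of_pos (show 0 < b by omega)]
  rw [e]
  set m := b * (a / b)
  set m' := b * (a' / b)
  simp only [abs_eq_max_neg]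
  constructor <;> omega

lemma ediv_step (a a' b : ℤ) (hb : 1 ≤ b) (h : |a - a'| ≤ 1) : |a / b - a' / b| ≤ 1 := by
  obtain ⟨h1, -⟩ := ediv_diff a a' b hb
  have : b * |a / b - a' / b| ≤ b * 1 := by linarith
  exact le_of_mul_le_mul_left this (by omega)

/-- The vertex vector. -/
def Pv (q1 q2 b j1 j2 : ℤ) : Fin 7 → ℤ :=
  ![j1, j2, y1f q1 b j1, y2f q1 b j1, y1f q2 b j2, y2f q2 b j2, zf q1 j1 + zf q2 j2]

lemma zf_zero (q : ℤ) (hq : 0 ≤ q) : zf q 0 = 0 := by unfold zf; omega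
lemma zf_self (q : ℤ) (hq : 0 ≤ q) : zf q q = 0 := by unfold zf; omega
lemma z2f_zero (q : ℤ) (_hq : 0 ≤ q) : z2f q 0 = q / 4 := by unfold z2f; omega
lemma z2f_self (q : ℤ) (hq : 0 ≤ q) : z2f q q = q / 4 := by unfold z2f; omega
lemma y1f_zero (q b : ℤ) (hq : 0 ≤ q) : y1f q b 0 = 0 := by unfold y1f; rw [zf_zero q hq]; simp
lemma y1f_self (q b : ℤ) (hq : 0 ≤ q) : y1f q b q = 0 := by unfold y1f; rw [zf_self q hq]; simp
lemma y2f_zero (q b : ℤ) (hq : 0 ≤ q) : y2f q b 0 = 0 := by unfold y2f; rw [z2f_zero q hq]; simp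
lemma y2f_self (q b : ℤ) (hq : 0 ≤ q) : y2f q b q = 0 := by unfold y2f; rw [z2f_self q hq]; simp

lemma Pv_zero (q1 q2 b : ℤ) (h1 : 0 ≤ q1) (h2 : 0 ≤ q2) : Pv q1 q2 b 0 0 = 0 := by
  unfold Pv
  rw [zf_zero _ h1, zf_zero _ h2, y1f_zero _ _ h1, y1f_zero _ _ h2, y2f_zero _ _ h1,
    y2f_zero _ _ h2]
  ext i
  fin_cases i <;> simp

lemma Pv_end1 (q1 q2 b : ℤ) (h1 : 0 ≤ q1) (h2 : 0 ≤ q2) :
    Pv q1 q2 b q1 0 = ![q1, 0, 0, 0, 0, 0, 0] := by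
  unfold Pv
  rw [zf_self _ h1, zf_zero _ h2, y1f_self _ _ h1, y1f_zero _ _ h2, y2f_self _ _ h1,
    y2f_zero _ _ h2]
  simp

lemma Pv_end2 (q1 q2 b : ℤ) (h1 : 0 ≤ q1) (h2 : 0 ≤ q2) :
    Pv q1 q2 b 0 q2 = ![0, q2, 0, 0, 0, 0, 0] := by
  unfold Pv
  rw [zf_zero _ h1, zf_self _ h2, y1f_zero _ _ h1, y1f_self _ _ h2, y2f_zero _ _ h1,
    y2f_self _ _ h2]
  simp

lemma step_z (q j : ℤ) : |zf q (j + 1) - zf q j| ≤ 1 := by
  unfold zf
  simp only [abs_eq_max_neg]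
  omega

lemma step_z2 (q j : ℤ) : |z2f q (j + 1) - z2f q j| ≤ 1 := by
  unfold z2f
  simp only [abs_eq_max_neg]
  omega

lemma step_y1 (q b j : ℤ) (hb : 1 ≤ b) : |y1f q b (j + 1) - y1f q b j| ≤ 1 :=
  ediv_step _ _ _ hb (step_z q j)

lemma step_y2 (q b j : ℤ) (hb : 1 ≤ b) : |y2f q b (j + 1) - y2f q b j| ≤ 1 := by
  unfold y2f
  have := ediv_step _ _ _ hb (step_z2 q j)
  rwa [sub_sub_sub_cancel_right]

lemma Pv_step1 (q1 q2 b j1 j2 : ℤ) (hb : 1 ≤ b) (i : Fin 7) :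
    |(Pv q1 q2 b (j1 + 1) j2 - Pv q1 q2 b j1 j2) i| ≤ 1 := by
  have h1 := step_z q1 j1
  have h3 := step_y1 q1 b j1 hb
  have h4 := step_y2 q1 b j1 hb
  unfold Pv
  fin_cases i
  · simp
  · simp
  · simpa using h3
  · simpa using h4
  · simp
  · simp
  · simpa using h1

lemma Pv_step2 (q1 q2 b j1 j2 : ℤ) (hb : 1 ≤ b) (i : Fin 7) :
    |(Pv q1 q2 b j1 (j2 + 1) - Pv q1 q2 b j1 j2) i| ≤ 1 := by
  have h1 := step_z q2 j2
  have h3 := step_y1 q2 b j2 hb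
  have h4 := step_y2 q2 b j2 hb
  unfold Pv
  fin_cases i
  · simp
  · simp
  · simp
  · simp
  · simpa using h3
  · simpa using h4
  · simpa using h1

lemma zf_bounds (q j : ℤ) (hj : 0 ≤ j) (hjq : j ≤ q) : 0 ≤ zf q j ∧ zf q j ≤ q := by
  unfold zf; omega

lemma y1f_bounds (q b j : ℤ) (hb : 1 ≤ b) (hj : 0 ≤ j) (hjq : j ≤ q) :
    0 ≤ y1f q b j ∧ b * y1f q b j ≤ zf q j ∧ zf q j ≤ b * y1f q b j + (b - 1) := by
  obtain ⟨h1, h2⟩ := zf_bounds q j hj hjq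
  obtain ⟨h3, h4⟩ := ediv_bounds (zf q j) b hb
  exact ⟨Int.ediv_nonneg h1 (by omega), h3, h4⟩

lemma y1f_le (q b j : ℤ) (hb : 1 ≤ b) (hj : 0 ≤ j) (hjq : j ≤ q) : |y1f q b j| ≤ q := by
  obtain ⟨h1, h2, h3⟩ := y1f_bounds q b j hb hj hjq
  obtain ⟨h4, h5⟩ := zf_bounds q j hj hjq
  rw [abs_of_nonneg h1]
  nlinarith

lemma y2f_le' (q b j : ℤ) (hb : 1 ≤ b) (hj : 0 ≤ j) (hjq : j ≤ q) :
    b * |y2f q b j| ≤ zf q j + (b - 1) := by
  unfold y2f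
  refine (ediv_diff (z2f q j) (q / 4) b hb).1.trans ?_
  have : |z2f q j - q / 4| ≤ zf q j := by
    unfold z2f zf
    simp only [abs_eq_max_neg]
    omega
  linarith

lemma y2f_le (q b j : ℤ) (hb : 1 ≤ b) (hj : 0 ≤ j) (hjq : j ≤ q) (hq : 1 ≤ q) :
    |y2f q b j| ≤ q := by
  have h1 := y2f_le' q b j hb hj hjq
  have h2 : zf q j + 1 ≤ q := by unfold zf; omega
  have h3 := abs_nonneg (y2f q b j)
  by_contra hcon
  push Not at hcon
  have h4 : q + 1 ≤ |y2f q b j| := hcon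
  have h5 : b * (q + 1) ≤ b * |y2f q b j| := by
    apply mul_le_mul_of_nonneg_left h4 (by omega)
  nlinarith

lemma Pv_bound (q1 q2 b j1 j2 : ℤ) (hb : 1 ≤ b) (h1 : 0 ≤ j1) (h1q : j1 ≤ q1) (h2 : 0 ≤ j2)
    (h2q : j2 ≤ q2) (hq1 : 1 ≤ q1) (hq2 : 1 ≤ q2) (i : Fin 7) :
    |Pv q1 q2 b j1 j2 i| ≤ q1 + q2 := by
  have a1 := y1f_le q1 b j1 hb h1 h1q
  have a2 := y2f_le q1 b j1 hb h1 h1q hq1
  have a3 := y1f_le q2 b j2 hb h2 h2q
  have a4 := y2f_le q2 b j2 hb h2 h2q hq2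
  have a5 := zf_bounds q1 j1 h1 h1q
  have a6 := zf_bounds q2 j2 h2 h2q
  unfold Pv
  fin_cases i
  · simp only [Fin.zero_eta, Matrix.cons_val_zero]
    rw [abs_of_nonneg h1]; omega
  · show |j2| ≤ q1 + q2
    rw [abs_of_nonneg h2]; omega
  · simp only [Fin.reduceFinMk, Matrix.cons_val]; omega
  · simp only [Fin.reduceFinMk, Matrix.cons_val]; omega
  · simp only [Fin.reduceFinMk, Matrix.cons_val]; omega
  · simp only [Fin.reduceFinMk, Matrix.cons_val]; omega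
  · simp only [Fin.reduceFinMk, Matrix.cons_val]
    rw [abs_of_nonneg (by omega)]; omega

lemma single_lower (q b j j' : ℤ) (hb : 1 ≤ b) (hj : 0 ≤ j) (hjq : j ≤ q) (hj' : 0 ≤ j')
    (hjq' : j' ≤ q) : ∃ c k : ℤ, j' - j = c + k * q ∧
      |c| ≤ b * |y1f q b j' - y1f q b j| + b * |y2f q b j' - y2f q b j| + 2 * b + 3 := by
  obtain ⟨c, k, h1, h2⟩ := circ_lower q j j' hj hjq hj' hjq'
  refine ⟨c, k, h1, ?_⟩
  have h3 := (ediv_diff (zf q j') (zf q j) b hb).2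
  have h4 := (ediv_diff (z2f q j') (z2f q j) b hb).2
  have h5 : y2f q b j' - y2f q b j = z2f q j' / b - z2f q j / b := by unfold y2f; ring
  rw [h5]
  unfold y1f
  linarith

lemma single_upper (q b j j' c k : ℤ) (hb : 1 ≤ b) (hj : 0 ≤ j) (hjq : j ≤ q) (hj' : 0 ≤ j')
    (hjq' : j' ≤ q) (h : j' - j = c + k * q) :
    b * |y1f q b j' - y1f q b j| ≤ |c| + b ∧ b * |y2f q b j' - y2f q b j| ≤ |c| + b ∧
      |zf q j' - zf q j| ≤ |c| := by
  obtain ⟨h1, h2⟩ := circ_upper q j j' c k hj hjq hj' hjq' h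
  have h3 := (ediv_diff (zf q j') (zf q j) b hb).1
  have h4 := (ediv_diff (z2f q j') (z2f q j) b hb).1
  have h5 : y2f q b j' - y2f q b j = z2f q j' / b - z2f q j / b := by unfold y2f; ring
  rw [h5]
  unfold y1f
  exact ⟨by linarith, by linarith, h1⟩

end Pool.Agent.Helper46.Gardner
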