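import Mathlib

open MeasureTheory Set Filter Topology

namespace Pool.Agent.Helper46.Gardner

/-- The homomorphism attached to seven angles. -/
noncomputable def Phi (α : Fin 7 → UnitAddCircle) (n : Fin 7 → ℤ) : UnitAddCircle :=
  ∑ i, n i • α i

lemma Phi_add (α : Fin 7 → UnitAddCircle) (m n : Fin 7 → ℤ) :
    Phi α (m + n) = Phi α m + Phi α n := by
  simp only [Phi, Pi.add_apply, add_smul, Finset.sum_add_distrib]

lemma Phi_zero (α : Fin 7 → UnitAddCircle) : Phi α 0 = 0 := by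
  simp [Phi]

lemma Phi_neg (α : Fin 7 → UnitAddCircle) (n : Fin 7 → ℤ) :
    Phi α (-n) = - Phi α n := by
  simp [Phi]

lemma Phi_sub (α : Fin 7 → UnitAddCircle) (m n : Fin 7 → ℤ) :
    Phi α (m - n) = Phi α m - Phi α n := by
  rw [sub_eq_add_neg, Phi_add, Phi_neg, sub_eq_add_neg]

/-- Membership in the relation lattice. -/
def InL (q1 q2 : ℕ) (n : Fin 7 → ℤ) : Prop :=
  (∃ k : ℤ, n 0 = k * q1) ∧ (∃ k : ℤ, n 1 = k * q2) ∧ ∀ i, i ≠ 0 → i ≠ 1 → n i = 0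

/-- A level of the angular system. -/
structure Lev (α : Fin 7 → UnitAddCircle) where
  q1 : ℕ
  q2 : ℕ
  τ : ℝ
  L : ℝ
  hq1 : 2 ≤ q1
  hq2 : 2 ≤ q2
  hτ : 0 < τ
  hτL : 2 * τ < L
  hL : L * (q1 + q2) < 1 / 1000
  h1 : (q1 : ℤ) • α 0 = ((-τ : ℝ) : UnitAddCircle)
  h2 : (q2 : ℤ) • α 1 = ((-L : ℝ) : UnitAddCircle)
  sep : ∀ n : Fin 7 → ℤ, (∀ i, |n i| ≤ 8 * (q1 + q2)) → ‖Phi α n‖ ≤ 100 * L → InL q1 q2 n
  indep : ∀ x y : ℤ, (x : ℝ) * τ = y * L → x = 0 ∧ y = 0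

/-- Real angles. -/
noncomputable def ang (t : ℝ) (p : ℝ × ℝ) : Fin 7 → ℝ := ![p.1, p.2, t, t ^ 2, t ^ 3, t ^ 4, t ^ 5]

/-- Real linear form. -/
noncomputable def phiR (t : ℝ) (p : ℝ × ℝ) (n : Fin 7 → ℤ) : ℝ :=
  n 0 * p.1 + n 1 * p.2 + n 2 * t + n 3 * t ^ 2 + n 4 * t ^ 3 + n 5 * t ^ 4 + n 6 * t ^ 5

lemma Phi_ang (t : ℝ) (p : ℝ × ℝ) (n : Fin 7 → ℤ) :
    Phi (fun i => ((ang t p i : ℝ) : UnitAddCircle)) n = ((phiR t p n : ℝ) : UnitAddCircle) := by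
  simp only [Phi, ang, phiR, Fin.sum_univ_seven]
  simp only [Matrix.cons_val_zero, Matrix.cons_val_one, Matrix.cons_val]
  simp only [← AddCircle.coe_zsmul, ← AddCircle.coe_add, zsmul_eq_mul]

lemma indep_rel (t : ℝ) (ht : Transcendental ℤ t) (q1 q2 : ℕ) (h1 : q1.Prime) (h2 : q2.Prime)
    (hne : q1 ≠ q2) (a1 a2 : ℤ) (ha1 : ¬ (q1 : ℤ) ∣ a1) (ha2 : ¬ (q2 : ℤ) ∣ a2)
    (n : Fin 7 → ℤ) (m : ℤ)
    (h : phiR t ((a1 : ℝ) / q1, (a2 : ℝ) / q2) n = m) : InL q1 q2 n := by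
  have hq1 : (q1 : ℝ) ≠ 0 := by exact_mod_cast h1.ne_zero
  have hq2 : (q2 : ℝ) ≠ 0 := by exact_mod_cast h2.ne_zero
  have hq1' : (q1 : ℤ) ≠ 0 := by exact_mod_cast h1.ne_zero
  have hq2' : (q2 : ℤ) ≠ 0 := by exact_mod_cast h2.ne_zero
  set Q : ℤ := q1 * q2 with hQ
  have hQ0 : Q ≠ 0 := mul_ne_zero hq1' hq2'
  set c : ℤ := n 0 * a1 * q2 + n 1 * a2 * q1 - m * Q with hc
  set P : Polynomial ℤ := Polynomial.C c + Polynomial.C (n 2 * Q) * Polynomial.X +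
    Polynomial.C (n 3 * Q) * Polynomial.X ^ 2 + Polynomial.C (n 4 * Q) * Polynomial.X ^ 3 +
    Polynomial.C (n 5 * Q) * Polynomial.X ^ 4 + Polynomial.C (n 6 * Q) * Polynomial.X ^ 5 with hP
  have hroot : Polynomial.aeval t P = 0 := by
    rw [hP]
    simp only [map_add, map_mul, Polynomial.aeval_X, map_pow, Polynomial.aeval_C]
    simp only [phiR] at h
    simp only [eq_intCast]
    rw [hc, hQ]
    push_cast
    have h' : ((n 0 : ℝ) * (a1 / q1) + n 1 * (a2 / q2) + n 2 * t + n 3 * t ^ 2 + n 4 * t ^ 3 +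
      n 5 * t ^ 4 + n 6 * t ^ 5) * (q1 * q2) = m * (q1 * q2) := by rw [h]
    have e1 : (n 0 : ℝ) * (a1 / q1) * (q1 * q2) = n 0 * a1 * q2 := by field_simp
    have e2 : (n 1 : ℝ) * (a2 / q2) * (q1 * q2) = n 1 * a2 * q1 := by field_simp
    linear_combination h' - e1 - e2
  have hP0 : P = 0 := by
    by_contra hne0
    exact ht ⟨P, hne0, hroot⟩
  have hcoeff : ∀ k, P.coeff k = 0 := fun k => by rw [hP0, Polynomial.coeff_zero]
  have c0 := hcoeff 0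
  have c1 := hcoeff 1
  have c2 := hcoeff 2
  have c3 := hcoeff 3
  have c4 := hcoeff 4
  have c5 := hcoeff 5
  rw [hP] at c0 c1 c2 c3 c4 c5
  simp only [Polynomial.coeff_add, Polynomial.coeff_C_mul, Polynomial.coeff_X_pow,
    Polynomial.coeff_X, Polynomial.coeff_C] at c0 c1 c2 c3 c4 c5
  norm_num at c0 c1 c2 c3 c4 c5
  have z2 : n 2 = 0 := by rcases c1 with h | h; exact h; exact absurd h hQ0
  have z3 : n 3 = 0 := by rcases c2 with h | h; exact h; exact absurd h hQ0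
  have z4 : n 4 = 0 := by rcases c3 with h | h; exact h; exact absurd h hQ0
  have z5 : n 5 = 0 := by rcases c4 with h | h; exact h; exact absurd h hQ0
  have z6 : n 6 = 0 := by rcases c5 with h | h; exact h; exact absurd h hQ0
  rw [hc] at c0
  have p1 : Prime (q1 : ℤ) := Nat.prime_iff_prime_int.1 h1
  have p2 : Prime (q2 : ℤ) := Nat.prime_iff_prime_int.1 h2
  have h12 : ¬ (q1 : ℤ) ∣ q2 := by
    intro hd
    have : q1 ∣ q2 := by exact_mod_cast hd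
    exact hne ((Nat.prime_dvd_prime_iff_eq h1 h2).1 this)
  have h21 : ¬ (q2 : ℤ) ∣ q1 := by
    intro hd
    have : q2 ∣ q1 := by exact_mod_cast hd
    exact hne ((Nat.prime_dvd_prime_iff_eq h2 h1).1 this).symm
  have d1 : (q1 : ℤ) ∣ n 0 := by
    have : (q1 : ℤ) ∣ n 0 * a1 * q2 := ⟨m * q2 - n 1 * a2, by rw [hQ] at c0; linear_combination c0⟩
    rcases p1.dvd_or_dvd this with h | h
    · rcases p1.dvd_or_dvd h with h | h
      · exact h
      · exact absurd h ha1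
    · exact absurd h h12
  have d2 : (q2 : ℤ) ∣ n 1 := by
    have : (q2 : ℤ) ∣ n 1 * a2 * q1 := ⟨m * q1 - n 0 * a1, by rw [hQ] at c0; linear_combination c0⟩
    rcases p2.dvd_or_dvd this with h | h
    · rcases p2.dvd_or_dvd h with h | h
      · exact h
      · exact absurd h ha2
    · exact absurd h h21
  obtain ⟨k1, hk1⟩ := d1
  obtain ⟨k2, hk2⟩ := d2
  refine ⟨⟨k1, by rw [hk1]; ring⟩, ⟨k2, by rw [hk2]; ring⟩, ?_⟩
  intro i hi0 hi1
  fin_cases i <;> simp_all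

/-- The box of integer vectors. -/
def box (q1 q2 : ℕ) : Set (Fin 7 → ℤ) := {n | ∀ i, |n i| ≤ 8 * (q1 + q2)}

lemma box_finite (q1 q2 : ℕ) : (box q1 q2).Finite := by
  refine (Set.finite_Icc (fun _ : Fin 7 => (-(8 * (q1 + q2)) : ℤ)) (fun _ => (8 * (q1 + q2) : ℤ))).subset ?_
  intro n hn
  simp only [box, mem_setOf_eq] at hn
  exact ⟨fun i => (abs_le.1 (hn i)).1, fun i => (abs_le.1 (hn i)).2⟩

/-- Elementary open sets. -/
def GoodE (G : ℕ → ℕ → ℝ) (t : ℝ) (q1 q2 : ℕ) (a1 a2 : ℤ) : Set (ℝ × ℝ) :=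
  {p | 0 < a1 - q1 * p.1 ∧ 2 * (a1 - q1 * p.1) < a2 - q2 * p.2 ∧ a2 - q2 * p.2 < G q1 q2 ∧
    ∀ n ∈ box q1 q2 ∩ {n | ¬ InL q1 q2 n},
      100 * (a2 - q2 * p.2) < ‖((phiR t p n : ℝ) : UnitAddCircle)‖}

lemma isOpen_GoodE (G : ℕ → ℕ → ℝ) (t : ℝ) (q1 q2 : ℕ) (a1 a2 : ℤ) :
    IsOpen (GoodE G t q1 q2 a1 a2) := by
  have hfin : (box q1 q2 ∩ {n | ¬ InL q1 q2 n}).Finite := (box_finite q1 q2).inter_of_left _
  have e : GoodE G t q1 q2 a1 a2 = {p : ℝ × ℝ | 0 < a1 - q1 * p.1} ∩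
      ({p : ℝ × ℝ | 2 * (a1 - q1 * p.1) < a2 - q2 * p.2} ∩
      ({p : ℝ × ℝ | a2 - q2 * p.2 < G q1 q2} ∩
      ⋂ n ∈ box q1 q2 ∩ {n | ¬ InL q1 q2 n},
        {p : ℝ × ℝ | 100 * (a2 - q2 * p.2) < ‖((phiR t p n : ℝ) : UnitAddCircle)‖})) := by
    ext p
    simp only [GoodE, mem_setOf_eq, mem_inter_iff, mem_iInter]
  rw [e]
  refine (isOpen_lt (by fun_prop) (by fun_prop)).inter ((isOpen_lt (by fun_prop) (by fun_prop)).inter
    ((isOpen_lt (by fun_prop) (by fun_prop)).inter ?_))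
  refine hfin.isOpen_biInter ?_
  intro n _
  refine isOpen_lt (by fun_prop) ?_
  have h1 : Continuous (fun p : ℝ × ℝ => phiR t p n) := by
    unfold phiR; fun_prop
  exact ((AddCircle.continuous_mk' (1 : ℝ)).comp h1).norm

/-- Open sets at stage `N`. -/
def Good (G : ℕ → ℕ → ℝ) (t : ℝ) (N : ℕ) : Set (ℝ × ℝ) :=
  {p | ∃ q1 q2 : ℕ, ∃ a1 a2 : ℤ, N ≤ q1 ∧ N ≤ q2 ∧ p ∈ GoodE G t q1 q2 a1 a2}

lemma isOpen_Good (G : ℕ → ℕ → ℝ) (t : ℝ) (N : ℕ) : IsOpen (Good G t N) := by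
  have e : Good G t N = ⋃ q1 : ℕ, ⋃ q2 : ℕ, ⋃ a1 : ℤ, ⋃ a2 : ℤ, ⋃ _ : N ≤ q1, ⋃ _ : N ≤ q2,
      GoodE G t q1 q2 a1 a2 := by
    ext p
    simp only [Good, mem_setOf_eq, mem_iUnion, exists_prop]
  rw [e]
  exact isOpen_iUnion fun _ => isOpen_iUnion fun _ => isOpen_iUnion fun _ => isOpen_iUnion fun _ =>
    isOpen_iUnion fun _ => isOpen_iUnion fun _ => isOpen_GoodE _ _ _ _ _ _

/-- Approximation by a fraction with denominator `q` in lowest terms. -/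
lemma approx (q : ℕ) (hq : 2 ≤ q) (x : ℝ) : ∃ a : ℤ, ¬ (q : ℤ) ∣ a ∧ |(a : ℝ) / q - x| ≤ 1 / q := by
  have hq0 : (0 : ℝ) < q := by
    have : (2 : ℝ) ≤ q := by exact_mod_cast hq
    linarith
  have h1 := Int.floor_le ((q : ℝ) * x)
  have h2 := (Int.lt_floor_add_one ((q : ℝ) * x)).le
  by_cases hd : (q : ℤ) ∣ ⌊(q : ℝ) * x⌋
  · refine ⟨⌊(q : ℝ) * x⌋ + 1, ?_, ?_⟩
    · intro hd2
      have h3 : (q : ℤ) ∣ 1 := by
        have := dvd_sub hd2 hd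
        simpa using this
      have h4 : (q : ℤ) ≤ 1 := Int.le_of_dvd one_pos h3
      have h5 : (2 : ℤ) ≤ q := by exact_mod_cast hq
      omega
    · have e : (((⌊(q : ℝ) * x⌋ + 1 : ℤ) : ℝ)) / q - x = ((⌊(q : ℝ) * x⌋ : ℝ) + 1 - q * x) / q := by
        push_cast
        field_simp
      rw [e, abs_div, abs_of_pos hq0]
      apply div_le_div_of_nonneg_right _ hq0.le
      rw [abs_le]
      constructor <;> linarith
  · refine ⟨⌊(q : ℝ) * x⌋, hd, ?_⟩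
    have e : ((⌊(q : ℝ) * x⌋ : ℝ)) / q - x = ((⌊(q : ℝ) * x⌋ : ℝ) - q * x) / q := by
      field_simp
    rw [e, abs_div, abs_of_pos hq0]
    apply div_le_div_of_nonneg_right _ hq0.le
    rw [abs_le]
    constructor <;> linarith

lemma dense_Good (G : ℕ → ℕ → ℝ) (hG : ∀ q1 q2, 0 < G q1 q2) (t : ℝ) (ht : Transcendental ℤ t)
    (N : ℕ) : Dense (Good G t N) := by
  rw [Metric.dense_iff]
  intro p ε hε
  obtain ⟨M, hM⟩ := exists_nat_gt (2 / ε)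
  obtain ⟨q1, hq1, hp1⟩ := Nat.exists_infinite_primes (max N (max M 2))
  obtain ⟨q2, hq2, hp2⟩ := Nat.exists_infinite_primes (q1 + 1)
  have hq1N : N ≤ q1 := (le_max_left _ _).trans hq1
  have hq1M : M ≤ q1 := ((le_max_left _ _).trans (le_max_right _ _)).trans hq1
  have hq12 : 2 ≤ q1 := hp1.two_le
  have hne : q1 ≠ q2 := by omega
  have hq22 : 2 ≤ q2 := hp2.two_le
  have hq1r : (0 : ℝ) < q1 := by exact_mod_cast hp1.pos
  have hq2r : (0 : ℝ) < q2 := by exact_mod_cast hp2.pos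
  have hinv : ∀ q : ℕ, q1 ≤ q → (1 : ℝ) / q < ε / 2 := by
    intro q hq
    have h1 : (M : ℝ) ≤ q := by exact_mod_cast hq1M.trans hq
    have h2 : 2 / ε < q := lt_of_lt_of_le hM h1
    have h3 : (0 : ℝ) < q := lt_trans (by positivity) h2
    rw [div_lt_iff₀ hε] at h2
    rw [div_lt_iff₀ h3]
    linarith
  obtain ⟨a1, ha1, hx1⟩ := approx q1 hq12 p.1
  obtain ⟨a2, ha2, hx2⟩ := approx q2 hq22 p.2
  have hx1' := lt_of_le_of_lt hx1 (hinv q1 le_rfl)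
  have hx2' := lt_of_le_of_lt hx2 (hinv q2 (by omega))
  -- the curve of perturbations
  set c : ℝ → ℝ × ℝ := fun δ => ((a1 - δ / 3) / q1, (a2 - δ) / q2) with hc
  have hccont : Continuous c := by rw [hc]; fun_prop
  have hc0 : c 0 = ((a1 : ℝ) / q1, (a2 : ℝ) / q2) := by simp [hc]
  have ev1 : ∀ᶠ δ in 𝓝[>] (0 : ℝ), c δ ∈ Metric.ball p ε := by
    have h0 : c 0 ∈ Metric.ball p ε := by
      rw [hc0, Metric.mem_ball, Prod.dist_eq, max_lt_iff, Real.dist_eq, Real.dist_eq]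
      exact ⟨by linarith, by linarith⟩
    exact (hccont.tendsto 0).eventually (Metric.isOpen_ball.mem_nhds h0) |>.filter_mono
      nhdsWithin_le_nhds
  have ev2 : ∀ᶠ δ in 𝓝[>] (0 : ℝ), δ < G q1 q2 :=
    (gt_mem_nhds (hG q1 q2)).filter_mono nhdsWithin_le_nhds
  have ev3 : ∀ᶠ δ in 𝓝[>] (0 : ℝ), 0 < δ := self_mem_nhdsWithin
  have ev4 : ∀ᶠ δ in 𝓝[>] (0 : ℝ), ∀ n ∈ box q1 q2 ∩ {n | ¬ InL q1 q2 n},
      100 * δ < ‖((phiR t (c δ) n : ℝ) : UnitAddCircle)‖ := by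
    have hfin : (box q1 q2 ∩ {n | ¬ InL q1 q2 n}).Finite := (box_finite q1 q2).inter_of_left _
    rw [eventually_all_finite hfin]
    intro n hn
    have hpos : 0 < ‖((phiR t (c 0) n : ℝ) : UnitAddCircle)‖ := by
      rw [norm_pos_iff]
      intro h0
      rw [AddCircle.coe_eq_zero_iff] at h0
      obtain ⟨m, hm⟩ := h0
      apply hn.2
      refine indep_rel t ht q1 q2 hp1 hp2 hne a1 a2 ha1 ha2 n m ?_
      rw [← hc0, ← hm]
      simp
    have hcont : Continuous (fun δ : ℝ => ‖((phiR t (c δ) n : ℝ) : UnitAddCircle)‖ - 100 * δ) := by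
      have h1 : Continuous (fun δ : ℝ => phiR t (c δ) n) := by
        unfold phiR
        fun_prop
      exact (((AddCircle.continuous_mk' (1 : ℝ)).comp h1).norm).sub (by fun_prop)
    have h2 : ∀ᶠ δ in 𝓝 (0 : ℝ), 0 < ‖((phiR t (c δ) n : ℝ) : UnitAddCircle)‖ - 100 * δ := by
      refine (hcont.tendsto 0).eventually (lt_mem_nhds ?_)
      simpa using hpos
    refine (h2.filter_mono nhdsWithin_le_nhds).mono ?_
    intro δ hδ
    linarith
  obtain ⟨δ, h1, h2, h3, h4⟩ := (ev1.and (ev2.and (ev3.and ev4))).exists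
  refine ⟨c δ, h1, q1, q2, a1, a2, hq1N, by omega, ?_⟩
  have e1 : (a1 : ℝ) - q1 * (c δ).1 = δ / 3 := by
    simp only [hc]; field_simp; ring
  have e2 : (a2 : ℝ) - q2 * (c δ).2 = δ := by
    simp only [hc]; field_simp; ring
  refine ⟨?_, ?_, ?_, ?_⟩
  · rw [e1]; positivity
  · rw [e1, e2]; linarith
  · rw [e2]; exact h2
  · intro n hn
    rw [e2]
    exact h4 n hn

theorem exists_alpha (G : ℕ → ℕ → ℝ) (hG : ∀ q1 q2, 0 < G q1 q2) :
    ∃ α : Fin 7 → UnitAddCircle, ∀ N : ℕ, ∃ l : Lev α, N ≤ l.q1 ∧ N ≤ l.q2 ∧ l.L < G l.q1 l.q2 := by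
  set t : ℝ := liouvilleNumber 2 with ht
  have htr : Transcendental ℤ t := by
    have := transcendental_liouvilleNumber (m := 2) (by norm_num)
    exact_mod_cast this
  set G' : ℕ → ℕ → ℝ := fun q1 q2 => min (G q1 q2) (1 / (1000 * (q1 + q2 + 1))) with hG'
  have hG'pos : ∀ q1 q2, 0 < G' q1 q2 := fun q1 q2 => lt_min (hG _ _) (by positivity)
  have hdense : Dense (⋂ N, Good G' t N) :=
    dense_iInter_of_isOpen_nat (fun N => isOpen_Good _ _ _) (fun N => dense_Good G' hG'pos t htr N)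
  obtain ⟨p, hp⟩ := hdense.nonempty
  rw [mem_iInter] at hp
  set α : Fin 7 → UnitAddCircle := fun i => ((ang t p i : ℝ) : UnitAddCircle) with hα
  have key : ∀ N : ℕ, ∃ q1 q2 : ℕ, ∃ a1 a2 : ℤ, N ≤ q1 ∧ N ≤ q2 ∧ p ∈ GoodE G' t q1 q2 a1 a2 := hp
  have hsep : ∀ q1 q2 : ℕ, ∀ a1 a2 : ℤ, p ∈ GoodE G' t q1 q2 a1 a2 →
      ∀ n : Fin 7 → ℤ, (∀ i, |n i| ≤ 8 * (q1 + q2)) → ‖Phi α n‖ ≤ 100 * (a2 - q2 * p.2) →
        InL q1 q2 n := by
    intro q1 q2 a1 a2 hg n hn hle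
    by_contra hcon
    have := hg.2.2.2 n ⟨hn, hcon⟩
    rw [hα, Phi_ang] at hle
    linarith
  have hind : ∀ n : Fin 7 → ℤ, Phi α n = 0 → n 0 = 0 ∧ n 1 = 0 := by
    intro n hn
    obtain ⟨q1, q2, a1, a2, h1, h2, hg⟩ := key ((∑ i, |n i|).toNat + 1)
    have hsum : ∀ i, |n i| ≤ ∑ i, |n i| := fun i =>
      Finset.single_le_sum (f := fun i => |n i|) (fun _ _ => abs_nonneg _) (Finset.mem_univ i)
    have hsum0 : 0 ≤ ∑ i, |n i| := Finset.sum_nonneg fun _ _ => abs_nonneg _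
    have hlt1 : ∑ i, |n i| < (q1 : ℤ) := by omega
    have hlt2 : ∑ i, |n i| < (q2 : ℤ) := by omega
    have hin := hsep q1 q2 a1 a2 hg n (fun i => by have := hsum i; omega) (by
      rw [hn, norm_zero]
      have := hg.1
      have := hg.2.1
      linarith)
    obtain ⟨⟨k1, hk1⟩, ⟨k2, hk2⟩, _⟩ := hin
    constructor
    · have h3 := hsum 0
      by_contra hne
      have : k1 ≠ 0 := by rintro rfl; simp at hk1; exact hne hk1
      have h4 : (1 : ℤ) ≤ |k1| := Int.one_le_abs this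
      rw [hk1, abs_mul, Nat.abs_cast] at h3
      nlinarith
    · have h3 := hsum 1
      by_contra hne
      have : k2 ≠ 0 := by rintro rfl; simp at hk2; exact hne hk2
      have h4 : (1 : ℤ) ≤ |k2| := Int.one_le_abs this
      rw [hk2, abs_mul, Nat.abs_cast] at h3
      nlinarith
  refine ⟨α, fun N => ?_⟩
  obtain ⟨q1, q2, a1, a2, h1, h2, hg⟩ := key (max N 2)
  have hN1 : N ≤ q1 := (le_max_left _ _).trans h1
  have hN2 : N ≤ q2 := (le_max_left _ _).trans h2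
  have h21 : 2 ≤ q1 := (le_max_right _ _).trans h1
  have h22 : 2 ≤ q2 := (le_max_right _ _).trans h2
  have hg1 := hg.1
  have hg2 := hg.2.1
  have hg3 := hg.2.2.1
  have e1 : (q1 : ℤ) • α 0 = ((-(a1 - q1 * p.1) : ℝ) : UnitAddCircle) := by
    have h3 : α 0 = ((p.1 : ℝ) : UnitAddCircle) := by simp [hα, ang]
    rw [h3, ← AddCircle.coe_zsmul, zsmul_eq_mul]
    have h4 : (-(a1 - q1 * p.1) : ℝ) = ((q1 : ℤ) : ℝ) * p.1 + (-a1 : ℤ) := by push_cast; ring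
    rw [h4, AddCircle.coe_add]
    have h5 : (((-a1 : ℤ) : ℝ) : UnitAddCircle) = 0 := by
      rw [AddCircle.coe_eq_zero_iff]
      exact ⟨-a1, by simp⟩
    rw [h5, add_zero]
  have e2 : (q2 : ℤ) • α 1 = ((-(a2 - q2 * p.2) : ℝ) : UnitAddCircle) := by
    have h3 : α 1 = ((p.2 : ℝ) : UnitAddCircle) := by simp [hα, ang]
    rw [h3, ← AddCircle.coe_zsmul, zsmul_eq_mul]
    have h4 : (-(a2 - q2 * p.2) : ℝ) = ((q2 : ℤ) : ℝ) * p.2 + (-a2 : ℤ) := by push_cast; ring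
    rw [h4, AddCircle.coe_add]
    have h5 : (((-a2 : ℤ) : ℝ) : UnitAddCircle) = 0 := by
      rw [AddCircle.coe_eq_zero_iff]
      exact ⟨-a2, by simp⟩
    rw [h5, add_zero]
  have hpos1 : (0 : ℝ) < q1 := by
    have : (2 : ℝ) ≤ q1 := by exact_mod_cast h21
    linarith
  have hpos2 : (0 : ℝ) < q2 := by
    have : (2 : ℝ) ≤ q2 := by exact_mod_cast h22
    linarith
  refine ⟨⟨q1, q2, a1 - q1 * p.1, a2 - q2 * p.2, h21, h22, hg1, hg2, ?_, e1, e2,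
    hsep q1 q2 a1 a2 hg, ?_⟩, hN1, hN2, ?_⟩
  · have h3 : a2 - q2 * p.2 < 1 / (1000 * (q1 + q2 + 1)) := lt_of_lt_of_le hg3 (min_le_right _ _)
    rw [lt_div_iff₀ (by positivity)] at h3
    have h4 : 0 < (a2 : ℝ) - q2 * p.2 := by linarith
    nlinarith
  · intro x y hxy
    have h3 := hind ![x * q1, -(y * q2), 0, 0, 0, 0, 0] (by
      simp only [Phi, Fin.sum_univ_seven]
      simp only [Matrix.cons_val_zero, Matrix.cons_val_one, Matrix.cons_val, zero_smul, add_zero]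
      rw [mul_smul, e1, neg_smul, mul_smul, e2, ← AddCircle.coe_zsmul, ← AddCircle.coe_zsmul,
        ← AddCircle.coe_neg, ← AddCircle.coe_add]
      have : (x • (-(a1 - q1 * p.1)) + -(y • (-(a2 - q2 * p.2))) : ℝ) = 0 := by
        rw [zsmul_eq_mul, zsmul_eq_mul]
        linear_combination -hxy
      rw [this, AddCircle.coe_zero])
    simp only [Matrix.cons_val_zero, Matrix.cons_val_one] at h3
    obtain ⟨h4, h5⟩ := h3
    constructor
    · rcases mul_eq_zero.1 h4 with h | h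
      · exact h
      · exfalso
        have : q1 = 0 := by exact_mod_cast h
        omega
    · have h6 : y * (q2 : ℤ) = 0 := by
        have := h5
        linarith
      rcases mul_eq_zero.1 h6 with h | h
      · exact h
      · exfalso
        have : q2 = 0 := by exact_mod_cast h
        omega
  · exact lt_of_lt_of_le hg3 (min_le_left _ _)

end Pool.Agent.Helper46.Gardner
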