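import Pool.Agent.Helper46.Gardner.Count
import Pool.Agent.Helper46.Gardner.Equi
import Pool.Agent.Helper46.Gardner.Erg

open MeasureTheory Set Filter Topology

namespace Pool.Agent.Helper46.Gardner

variable {α : Fin 7 → UnitAddCircle}

/-- Rotations and reflections of the circle. -/
noncomputable def gact (ε : Bool) (t θ : UnitAddCircle) : UnitAddCircle :=
  if ε then t - θ else θ + t

/-- A measurable equidecomposition of the angular sets. -/
structure MeasMatch (l : Lev α) (b : ℕ) {n : ℕ} (ε : Fin n → Bool) (t : Fin n → UnitAddCircle) where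
  p : Fin n → Set UnitAddCircle
  meas : ∀ i, NullMeasurableSet {x : ℝ | (x : UnitAddCircle) ∈ p i} volume
  union : ⋃ i, p i = setA l b
  disj : Pairwise (fun i j => Disjoint (p i) (p j))
  union' : ⋃ i, gact (ε i) (t i) '' p i = setB l b
  disj' : Pairwise (fun i j => Disjoint (gact (ε i) (t i) '' p i) (gact (ε j) (t j) '' p j))

lemma gact_inj (ε : Bool) (t : UnitAddCircle) : Function.Injective (gact ε t) := by
  intro x y h
  unfold gact at h
  cases ε
  · simpa using h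
  · simpa using h

lemma gact_cont (ε : Bool) (t : UnitAddCircle) : Continuous (gact ε t) := by
  unfold gact
  cases ε
  · simp only [Bool.false_eq_true, if_false]
    fun_prop
  · simp only [if_true]
    fun_prop

section one

variable {l : Lev α} {b n : ℕ} {ε : Fin n → Bool} {t : Fin n → UnitAddCircle}

open Classical in
/-- The circle bijection of a measurable match. -/
noncomputable def MeasMatch.M (MM : MeasMatch l b ε t) (θ : UnitAddCircle) : UnitAddCircle :=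
  if h : ∃ i, θ ∈ MM.p i then gact (ε h.choose) (t h.choose) θ else θ

lemma MeasMatch.M_eq (MM : MeasMatch l b ε t) {i : Fin n} {θ : UnitAddCircle} (h : θ ∈ MM.p i) :
    MM.M θ = gact (ε i) (t i) θ := by
  have hex : ∃ i, θ ∈ MM.p i := ⟨i, h⟩
  have e : hex.choose = i := by
    by_contra hne
    exact Set.disjoint_left.1 (MM.disj hne) hex.choose_spec h
  unfold MeasMatch.M
  rw [dif_pos hex, e]

lemma MeasMatch.M_bij (MM : MeasMatch l b ε t) : BijOn MM.M (setA l b) (setB l b) := by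
  refine ⟨?_, ?_, ?_⟩
  · intro θ hθ
    rw [← MM.union, mem_iUnion] at hθ
    obtain ⟨i, hi⟩ := hθ
    rw [MM.M_eq hi, ← MM.union', mem_iUnion]
    exact ⟨i, θ, hi, rfl⟩
  · intro θ hθ θ' hθ' h
    rw [← MM.union, mem_iUnion] at hθ hθ'
    obtain ⟨i, hi⟩ := hθ
    obtain ⟨j, hj⟩ := hθ'
    rw [MM.M_eq hi, MM.M_eq hj] at h
    by_cases hij : i = j
    · subst hij
      exact gact_inj _ _ h
    · exfalso
      exact Set.disjoint_left.1 (MM.disj' hij) ⟨θ, hi, rfl⟩ ⟨θ', hj, h.symm⟩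
  · intro θ hθ
    rw [← MM.union', mem_iUnion] at hθ
    obtain ⟨i, θ', hi, rfl⟩ := hθ
    refine ⟨θ', ?_, MM.M_eq hi⟩
    rw [← MM.union, mem_iUnion]
    exact ⟨i, hi⟩

/-- The vertex bijection. -/
noncomputable def MeasMatch.m (MM : MeasMatch l b ε t) (v : ℕ × ℕ × ℝ) : ℕ × ℕ × ℝ :=
  Function.invFunOn (pos l b) (VB l) (MM.M (pos l b v))

lemma MeasMatch.m_bij (MM : MeasMatch l b ε t) (hb : 1 ≤ b) : BijOn MM.m (VA l) (VB l) := by
  have hinjA : InjOn (pos l b) (VA l) := (pos_inj l hb).mono (VA_sub l)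
  have hinjB : InjOn (pos l b) (VB l) := (pos_inj l hb).mono (VB_sub l)
  have hginv : ∀ v ∈ VB l, Function.invFunOn (pos l b) (VB l) (pos l b v) = v :=
    fun v hv => hinjB.leftInvOn_invFunOn hv
  have b1 : BijOn (Function.invFunOn (pos l b) (VB l)) (setB l b) (VB l) := by
    refine ⟨?_, ?_, ?_⟩
    · rintro _ ⟨v, hv, rfl⟩
      rw [hginv v hv]
      exact hv
    · rintro _ ⟨v, hv, rfl⟩ _ ⟨v', hv', rfl⟩ h
      rw [hginv v hv, hginv v' hv'] at h
      rw [h]
    · intro v hv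
      exact ⟨pos l b v, ⟨v, hv, rfl⟩, hginv v hv⟩
  have b2 : BijOn (pos l b) (VA l) (setA l b) := hinjA.bijOn_image
  exact b1.comp (MM.M_bij.comp b2)

lemma MeasMatch.pos_m (MM : MeasMatch l b ε t) (_hb : 1 ≤ b) {a : ℕ × ℕ × ℝ} (ha : a ∈ VA l) :
    pos l b (MM.m a) = MM.M (pos l b a) := by
  have h1 : MM.M (pos l b a) ∈ pos l b '' VB l := MM.M_bij.mapsTo ⟨a, ha, rfl⟩
  exact Function.invFunOn_eq h1

lemma MeasMatch.m_eq_iff (MM : MeasMatch l b ε t) (hb : 1 ≤ b) {a v : ℕ × ℕ × ℝ} (ha : a ∈ VA l)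
    (hv : v ∈ VB l) : MM.m a = v ↔ ∃ i, pos l b a ∈ MM.p i ∧
      gact (ε i) (t i) (pos l b a) = pos l b v := by
  have hinjB : InjOn (pos l b) (VB l) := (pos_inj l hb).mono (VB_sub l)
  have h1 : pos l b a ∈ setA l b := ⟨a, ha, rfl⟩
  rw [← MM.union, mem_iUnion] at h1
  obtain ⟨i, hi⟩ := h1
  constructor
  · intro h
    refine ⟨i, hi, ?_⟩
    rw [← MM.M_eq hi, ← MM.pos_m hb ha, h]
  · rintro ⟨j, hj, h⟩
    rw [← MM.M_eq hj, ← MM.pos_m hb ha] at h
    exact hinjB ((MM.m_bij hb).mapsTo ha) hv h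

lemma MeasMatch.m_edge (MM : MeasMatch l b ε t) (hb : 1 ≤ b) {a : ℕ × ℕ × ℝ} (ha : a ∈ VA l) :
    ∃ i, pos l b (MM.m a) = gact (ε i) (t i) (pos l b a) := by
  obtain ⟨i, _, h⟩ := (MM.m_eq_iff hb ha ((MM.m_bij hb).mapsTo ha)).1 rfl
  exact ⟨i, h.symm⟩

lemma measurableSet_X1 (l : Lev α) : MeasurableSet (X1 l) := by
  have hNc : (N0 l).Countable := by
    have : N0 l ⊆ range (fun p : ℤ × ℤ => (p.1 * l.τ + p.2 * l.L) / 2) := by
      rintro x ⟨m, n, h⟩
      exact ⟨(m, n), by simp only; linarith⟩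
    exact (countable_range _).mono this
  have e : X1 l = Ioo (l.τ / 2) ((l.L + l.τ) / 2) ∩ (N0 l)ᶜ := by
    ext x
    simp only [X1, mem_setOf_eq, mem_inter_iff, mem_Ioo, mem_compl_iff]
    tauto
  rw [e]
  exact measurableSet_Ioo.inter hNc.measurableSet.compl

lemma MeasMatch.cross_meas (MM : MeasMatch l b ε t) (hb : 1 ≤ b) (j j' : ℕ) (hj : j < l.q1)
    (hj' : 1 ≤ j') (hjq' : j' < l.q1) :
    NullMeasurableSet {x : ℝ | x ∈ X1 l ∧ MM.m (j, 0, x) = (j', 0, x)} volume := by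
  have e : {x : ℝ | x ∈ X1 l ∧ MM.m (j, 0, x) = (j', 0, x)} = X1 l ∩ ⋃ i,
      ({x : ℝ | pos l b (j, 0, x) ∈ MM.p i} ∩
        {x : ℝ | gact (ε i) (t i) (pos l b (j, 0, x)) = pos l b (j', 0, x)}) := by
    ext x
    simp only [mem_setOf_eq, mem_inter_iff, mem_iUnion]
    constructor
    · rintro ⟨hx, h⟩
      exact ⟨hx, (MM.m_eq_iff hb (Or.inl ⟨rfl, hj, hx⟩) (Or.inl ⟨rfl, hj', hjq', hx⟩)).1 h⟩
    · rintro ⟨hx, h⟩
      exact ⟨hx, (MM.m_eq_iff hb (Or.inl ⟨rfl, hj, hx⟩) (Or.inl ⟨rfl, hj', hjq', hx⟩)).2 h⟩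
  rw [e]
  have hposc : ∀ j : ℕ, Continuous (fun x : ℝ => pos l b (j, 0, x)) := by
    intro j
    have h0 : Continuous (fun x : ℝ => (x : UnitAddCircle)) := AddCircle.continuous_mk' (1 : ℝ)
    unfold pos
    fun_prop
  refine (measurableSet_X1 l).nullMeasurableSet.inter (NullMeasurableSet.iUnion fun i => ?_)
  refine NullMeasurableSet.inter ?_ ?_
  · obtain ⟨r, hr⟩ := QuotientAddGroup.mk_surjective (Phi α (Pv l.q1 l.q2 b j 0))
    have hr' : ((r : ℝ) : UnitAddCircle) = Phi α (Pv l.q1 l.q2 b j 0) := hr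
    have e2 : {x : ℝ | pos l b (j, 0, x) ∈ MM.p i} =
        (fun x => r + x) ⁻¹' {x : ℝ | (x : UnitAddCircle) ∈ MM.p i} := by
      ext x
      simp only [mem_setOf_eq, mem_preimage, AddCircle.coe_add, hr', pos, Nat.cast_zero]
    rw [e2]
    exact (MM.meas i).preimage (measurePreserving_add_left volume r).quasiMeasurePreserving
  · exact (isClosed_eq ((gact_cont _ _).comp (hposc j)) (hposc j')).measurableSet.nullMeasurableSet

lemma MeasMatch.T_meas (MM : MeasMatch l b ε t) (hb : 1 ≤ b) :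
    NullMeasurableSet {x : ℝ | x ∈ X1 l ∧ 1 ≤ F1 l MM.m x} volume := by
  classical
  set G : ℝ → ℤ := fun x => ∑ j ∈ Finset.range l.q1, ∑ j' ∈ Finset.Ico 1 l.q1,
    ({x : ℝ | x ∈ X1 l ∧ MM.m (j, 0, x) = (j', 0, x)}).indicator
      (fun _ => if 1 ≤ j then sec l.q1 j' - sec l.q1 j else 0) x with hG
  have hGm : AEMeasurable G volume := by
    rw [hG]
    refine Finset.aemeasurable_fun_sum _ fun j hj => ?_
    refine Finset.aemeasurable_fun_sum _ fun j' hj' => ?_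
    rw [Finset.mem_range] at hj
    rw [Finset.mem_Ico] at hj'
    exact aemeasurable_const.indicator₀ (MM.cross_meas hb j j' hj hj'.1 hj'.2)
  have hGF : ∀ x ∈ X1 l, F1 l MM.m x = G x := by
    intro x hx
    unfold F1
    rw [hG]
    refine Finset.sum_congr rfl fun j hj => ?_
    rw [Finset.mem_range] at hj
    have hja : ((j, 0, x) : ℕ × ℕ × ℝ) ∈ VA l := Or.inl ⟨rfl, hj, hx⟩
    have hmB := (MM.m_bij hb).mapsTo hja
    unfold eps
    by_cases hP : 1 ≤ j ∧ 1 ≤ (MM.m (j, 0, x)).1 ∧ (MM.m (j, 0, x)).2.2 = x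
    · have hfull : MM.m (j, 0, x) = ((MM.m (j, 0, x)).1, 0, x) ∧ (MM.m (j, 0, x)).1 < l.q1 := by
        rcases hmB with ⟨h1, h2, h3, h4⟩ | ⟨h1, -⟩ | ⟨h1, -⟩
        · refine ⟨?_, h3⟩
          ext
          · rfl
          · exact h1
          · exact hP.2.2
        · omega
        · omega
      rw [if_pos hP, Finset.sum_eq_single (MM.m (j, 0, x)).1]
      · rw [indicator_of_mem, if_pos hP.1]
        exact ⟨hx, hfull.1⟩
      · intro j' _ hne
        rw [indicator_of_notMem]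
        rintro ⟨-, h⟩
        apply hne
        rw [h]
      · intro hnot
        exfalso
        apply hnot
        rw [Finset.mem_Ico]
        exact ⟨hP.2.1, hfull.2⟩
    · rw [if_neg hP]
      symm
      apply Finset.sum_eq_zero
      intro j' hj'
      rw [Finset.mem_Ico] at hj'
      by_cases hmem : x ∈ {x : ℝ | x ∈ X1 l ∧ MM.m (j, 0, x) = (j', 0, x)}
      · rw [indicator_of_mem hmem, if_neg]
        intro h1
        apply hP
        rw [hmem.2]
        exact ⟨h1, hj'.1, rfl⟩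
      · rw [indicator_of_notMem hmem]
  have e : {x : ℝ | x ∈ X1 l ∧ 1 ≤ F1 l MM.m x} = X1 l ∩ G ⁻¹' (Ici 1) := by
    ext x
    simp only [mem_setOf_eq, mem_inter_iff, mem_preimage, mem_Ici]
    constructor
    · rintro ⟨h1, h2⟩
      exact ⟨h1, by rw [← hGF x h1]; exact h2⟩
    · rintro ⟨h1, h2⟩
      exact ⟨h1, by rw [hGF x h1]; exact h2⟩
  rw [e]
  exact (measurableSet_X1 l).nullMeasurableSet.inter (hGm.nullMeasurable measurableSet_Ici)

lemma MeasMatch.false_of_good (MM : MeasMatch l b ε t) (hb : 1 ≤ b)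
    (hgood : ∀ i, ∀ a ∈ VV l, ∀ v ∈ VV l, pos l b v = gact (ε i) (t i) (pos l b a) →
      Krel l.L (rho l a) (rho l v) ∨ (1 ≤ a.1 ∧ 1 ≤ v.1 ∧ v.2.2 = a.2.2)) : False := by
  have hm : Adm l MM.m := by
    refine ⟨MM.m_bij hb, ?_⟩
    intro a ha
    obtain ⟨i, hi⟩ := MM.m_edge hb ha
    exact hgood i a (VA_sub l ha) _ (VB_sub l ((MM.m_bij hb).mapsTo ha)) hi
  refine no_T1 l.hτ l.hτL l.indep _ (MM.T_meas hb) ?_ ?_ ?_
  · intro k h1 h2 h3
    obtain ⟨⟨m1, m2⟩, hF⟩ := flow1 l MM.m hm k h1 h2 h3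
    simp only [mem_setOf_eq, m1, m2, true_and]
    omega
  · intro k h1 h2 h3
    obtain ⟨⟨m1, m2⟩, hF⟩ := flow2 l MM.m hm k h1 h2 h3
    simp only [mem_setOf_eq, m1, m2, true_and, hF]
  · intro k h1 h2 h3
    obtain ⟨⟨m1, m2⟩, hF⟩ := flow3 l MM.m hm k h1 h2 h3
    simp only [mem_setOf_eq, m1, m2, true_and]
    omega

end one

/-- Exact elements respect clusters. -/
lemma exact_good (l : Lev α) (b R : ℕ) (hb : 1 ≤ b) (hR1 : 4 * R + 8 ≤ l.q1) (hR2 : 4 * R + 8 ≤ l.q2)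
    (u : Fin 7 → ℤ) (hu : ∀ i, |u i| ≤ R) (ε : Bool) (a v : ℕ × ℕ × ℝ) (ha : a ∈ VV l)
    (hv : v ∈ VV l) (h : pos l b v = gact ε (Phi α u) (pos l b a)) :
    Krel l.L (rho l a) (rho l v) ∨ (1 ≤ a.1 ∧ 1 ≤ v.1 ∧ v.2.2 = a.2.2) := by
  obtain ⟨j1, j2, x⟩ := a
  obtain ⟨i1, i2, y⟩ := v
  obtain ⟨hj, hx0, hxL⟩ := ha
  obtain ⟨hi, hy0, hyL⟩ := hv
  simp only at hj hx0 hxL hi hy0 hyL
  have hL := L_pos l
  have hLs := L_small l
  have hτ := l.hτ
  have hτL := l.hτL
  have hboxU : ∀ i, |(Pv l.q1 l.q2 b i1 i2 - Pv l.q1 l.q2 b j1 j2 - u) i| ≤ 8 * (l.q1 + l.q2) := by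
    intro i
    have h1 := abs_le.1 (VJ_bound l hb hj i)
    have h2 := abs_le.1 (VJ_bound l hb hi i)
    have h3 := abs_le.1 (hu i)
    simp only [Pi.sub_apply]
    rw [abs_le]
    constructor <;> omega
  have hboxV : ∀ i, |(Pv l.q1 l.q2 b i1 i2 + Pv l.q1 l.q2 b j1 j2 - u) i| ≤ 8 * (l.q1 + l.q2) := by
    intro i
    have h1 := abs_le.1 (VJ_bound l hb hj i)
    have h2 := abs_le.1 (VJ_bound l hb hi i)
    have h3 := abs_le.1 (hu i)
    simp only [Pi.sub_apply, Pi.add_apply]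
    rw [abs_le]
    constructor <;> omega
  unfold pos gact at h
  simp only at h
  cases ε
  · simp only [Bool.false_eq_true, if_false] at h
    have e : Phi α (Pv l.q1 l.q2 b i1 i2 - Pv l.q1 l.q2 b j1 j2 - u) =
        ((x - y : ℝ) : UnitAddCircle) := by
      rw [Phi_sub, Phi_sub, AddCircle.coe_sub]
      have h' : Phi α (Pv l.q1 l.q2 b i1 i2) =
        Phi α (Pv l.q1 l.q2 b j1 j2) + (x : UnitAddCircle) + Phi α u - (y : UnitAddCircle) := by
        rw [← h]; abel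
      rw [h']
      abel
    have hin := l.sep _ hboxU (by
      rw [e]
      refine (norm_coe_le _).trans ?_
      rw [abs_le]
      constructor <;> linarith)
    obtain ⟨k1, k2, e1, e2, ⟨hk1, hk2⟩, hor⟩ := exactU l.q1 l.q2 b R hR1 hR2 j1 j2 i1 i2 hj hi u hu hin
    have e3 := Phi_InL l hin e1 e2
    rw [e] at e3
    have hk1r : |(k1 : ℝ)| ≤ 2 := by exact_mod_cast hk1
    have hk2r : |(k2 : ℝ)| ≤ 2 := by exact_mod_cast hk2
    have hk1' := abs_le.1 hk1r
    have hk2' := abs_le.1 hk2r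
    have e4 : x - y = -(k1 * l.τ) - k2 * l.L := by
      apply coe_inj_small _ e3
      rw [abs_lt]
      constructor <;> nlinarith
    rcases hor with h1 | ⟨h1, h2, h3, h4⟩
    · left
      refine ⟨k2, Or.inl ?_⟩
      unfold rho
      simp only
      rw [h1] at e4
      push_cast at e4
      linarith
    · right
      refine ⟨h1, h2, ?_⟩
      simp only
      rw [h3, h4] at e4
      push_cast at e4
      linarith
  · simp only [if_true] at h
    have e : Phi α (Pv l.q1 l.q2 b i1 i2 + Pv l.q1 l.q2 b j1 j2 - u) =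
        ((-(x + y) : ℝ) : UnitAddCircle) := by
      rw [Phi_sub, Phi_add, AddCircle.coe_neg, AddCircle.coe_add]
      have h' : Phi α (Pv l.q1 l.q2 b i1 i2) =
        Phi α u - (Phi α (Pv l.q1 l.q2 b j1 j2) + (x : UnitAddCircle)) - (y : UnitAddCircle) := by
        rw [← h]; abel
      rw [h']
      abel
    have hin := l.sep _ hboxV (by
      rw [e]
      refine (norm_coe_le _).trans ?_
      rw [abs_le]
      constructor <;> linarith)
    obtain ⟨k1, k2, e1, e2, ⟨hk1, hk2⟩, hor⟩ := exactV l.q1 l.q2 b R hR1 hR2 j1 j2 i1 i2 hj hi u hu hin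
    have e3 := Phi_InL l hin e1 e2
    rw [e] at e3
    have hk1r : |(k1 : ℝ)| ≤ 2 := by exact_mod_cast hk1
    have hk2r : |(k2 : ℝ)| ≤ 2 := by exact_mod_cast hk2
    have hk1' := abs_le.1 hk1r
    have hk2' := abs_le.1 hk2r
    have e4 : -(x + y) = -(k1 * l.τ) - k2 * l.L := by
      apply coe_inj_small _ e3
      rw [abs_lt]
      constructor <;> nlinarith
    left
    refine ⟨k2, Or.inr ?_⟩
    unfold rho
    simp only
    rw [hor] at e4
    push_cast at e4
    linarith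

/-- Activity of an element for a slope. -/
def Act (l : Lev α) (b : ℕ) (ε : Bool) (t : UnitAddCircle) : Prop :=
  ∃ a ∈ VV l, ∃ v ∈ VV l, pos l b v = gact ε t (pos l b a)

lemma act_sep (l : Lev α) (b b' : ℕ) (hb : 1 ≤ b) (hbb : 8 * b ≤ b') (hq1 : 18 * b < l.q1)
    (hq2 : 18 * b < l.q2) (ε : Bool) (t : UnitAddCircle) (h : Act l b ε t) (h' : Act l b' ε t) :
    ∃ u : Fin 7 → ℤ, (∀ i, |u i| ≤ 18 * b) ∧ ‖t - Phi α u‖ ≤ 6 * l.L := by
  obtain ⟨⟨j1, j2, x⟩, ⟨hj, hx0, hxL⟩, ⟨j1', j2', x'⟩, ⟨hj', hx0', hxL'⟩, h⟩ := h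
  obtain ⟨⟨i1, i2, y⟩, ⟨hi, hy0, hyL⟩, ⟨i1', i2', y'⟩, ⟨hi', hy0', hyL'⟩, h'⟩ := h'
  simp only at hj hx0 hxL hj' hx0' hxL' hi hy0 hyL hi' hy0' hyL'
  have hL := L_pos l
  have hτ := l.hτ
  have hτL := l.hτL
  have hb' : 1 ≤ b' := by omega
  have g1 := fun i => abs_le.1 (VJ_bound l hb hj i)
  have g2 := fun i => abs_le.1 (VJ_bound l hb hj' i)
  have g3 := fun i => abs_le.1 (VJ_bound l hb' hi i)
  have g4 := fun i => abs_le.1 (VJ_bound l hb' hi' i)
  unfold pos gact at h h'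
  simp only at h h'
  obtain ⟨a1, a2, -⟩ := id hj
  obtain ⟨a1', a2', -⟩ := id hj'
  cases ε
  · simp only [Bool.false_eq_true, if_false] at h h'
    have ht : t = Phi α (Pv l.q1 l.q2 b j1' j2' - Pv l.q1 l.q2 b j1 j2) +
        ((x' - x : ℝ) : UnitAddCircle) := by
      rw [Phi_sub, AddCircle.coe_sub]
      have : t = (Phi α (Pv l.q1 l.q2 b j1' j2') + (x' : UnitAddCircle)) -
        (Phi α (Pv l.q1 l.q2 b j1 j2) + (x : UnitAddCircle)) := by rw [h]; abel
      rw [this]; abel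
    have ht' : t = Phi α (Pv l.q1 l.q2 b' i1' i2' - Pv l.q1 l.q2 b' i1 i2) +
        ((y' - y : ℝ) : UnitAddCircle) := by
      rw [Phi_sub, AddCircle.coe_sub]
      have : t = (Phi α (Pv l.q1 l.q2 b' i1' i2') + (y' : UnitAddCircle)) -
        (Phi α (Pv l.q1 l.q2 b' i1 i2) + (y : UnitAddCircle)) := by rw [h']; abel
      rw [this]; abel
    have hin : InL l.q1 l.q2 ((Pv l.q1 l.q2 b j1' j2' - Pv l.q1 l.q2 b j1 j2) -
        (Pv l.q1 l.q2 b' i1' i2' - Pv l.q1 l.q2 b' i1 i2)) := by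
      apply l.sep
      · intro i
        have := g1 i
        have := g2 i
        have := g3 i
        have := g4 i
        simp only [Pi.sub_apply]
        rw [abs_le]
        constructor <;> omega
      · have e : Phi α ((Pv l.q1 l.q2 b j1' j2' - Pv l.q1 l.q2 b j1 j2) -
            (Pv l.q1 l.q2 b' i1' i2' - Pv l.q1 l.q2 b' i1 i2)) =
            (((y' - y) - (x' - x) : ℝ) : UnitAddCircle) := by
          rw [Phi_sub, AddCircle.coe_sub, sub_eq_sub_iff_add_eq_add, ← ht, ht']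
          abel
        rw [e]
        refine (norm_coe_le _).trans ?_
        rw [abs_le]
        constructor <;> linarith
    obtain ⟨u, hu, hin2⟩ := sepU l.q1 l.q2 b b' hb hbb j1 j2 j1' j2' i1 i2 i1' i2' hj hj' hi hi' hin
    refine ⟨u, hu, ?_⟩
    obtain ⟨⟨k1, e1⟩, ⟨k2, e2⟩, _⟩ := id hin2
    have e1' : (j1' : ℤ) - j1 - u 0 = k1 * l.q1 := by simpa [Pv] using e1
    have e2' : (j2' : ℤ) - j2 - u 1 = k2 * l.q2 := by simpa [Pv] using e2
    have hu0 := abs_le.1 (hu 0)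
    have hu1 := abs_le.1 (hu 1)
    have K1 := small_mul2 (show (0 : ℤ) < l.q1 by omega) e1' (by omega) (by omega)
    have K2 := small_mul2 (show (0 : ℤ) < l.q2 by omega) e2' (by omega) (by omega)
    have hk1r : |(k1 : ℝ)| ≤ 2 := by rcases K1 with rfl | rfl | rfl <;> norm_num
    have hk2r : |(k2 : ℝ)| ≤ 2 := by rcases K2 with rfl | rfl | rfl <;> norm_num
    have hk1' := abs_le.1 hk1r
    have hk2' := abs_le.1 hk2r
    have e3 := Phi_InL l hin2 e1 e2
    have e4 : t - Phi α u = ((-(k1 * l.τ) - k2 * l.L + (x' - x) : ℝ) : UnitAddCircle) := by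
      rw [AddCircle.coe_add, ← e3, Phi_sub _ _ u, ht]
      abel
    rw [e4]
    refine (norm_coe_le _).trans ?_
    rw [abs_le]
    constructor <;> nlinarith
  · simp only [if_true] at h h'
    have ht : t = Phi α (Pv l.q1 l.q2 b j1' j2' + Pv l.q1 l.q2 b j1 j2) +
        ((x' + x : ℝ) : UnitAddCircle) := by
      rw [Phi_add, AddCircle.coe_add]
      have : t = (Phi α (Pv l.q1 l.q2 b j1' j2') + (x' : UnitAddCircle)) +
        (Phi α (Pv l.q1 l.q2 b j1 j2) + (x : UnitAddCircle)) := by rw [h]; abel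
      rw [this]; abel
    have ht' : t = Phi α (Pv l.q1 l.q2 b' i1' i2' + Pv l.q1 l.q2 b' i1 i2) +
        ((y' + y : ℝ) : UnitAddCircle) := by
      rw [Phi_add, AddCircle.coe_add]
      have : t = (Phi α (Pv l.q1 l.q2 b' i1' i2') + (y' : UnitAddCircle)) +
        (Phi α (Pv l.q1 l.q2 b' i1 i2) + (y : UnitAddCircle)) := by rw [h']; abel
      rw [this]; abel
    have hin : InL l.q1 l.q2 ((Pv l.q1 l.q2 b j1' j2' + Pv l.q1 l.q2 b j1 j2) -
        (Pv l.q1 l.q2 b' i1' i2' + Pv l.q1 l.q2 b' i1 i2)) := by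
      apply l.sep
      · intro i
        have := g1 i
        have := g2 i
        have := g3 i
        have := g4 i
        simp only [Pi.sub_apply, Pi.add_apply]
        rw [abs_le]
        constructor <;> omega
      · have e : Phi α ((Pv l.q1 l.q2 b j1' j2' + Pv l.q1 l.q2 b j1 j2) -
            (Pv l.q1 l.q2 b' i1' i2' + Pv l.q1 l.q2 b' i1 i2)) =
            (((y' + y) - (x' + x) : ℝ) : UnitAddCircle) := by
          rw [Phi_sub, AddCircle.coe_sub, sub_eq_sub_iff_add_eq_add, ← ht, ht']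
          abel
        rw [e]
        refine (norm_coe_le _).trans ?_
        rw [abs_le]
        constructor <;> linarith
    obtain ⟨u, hu, hin2⟩ := sepV l.q1 l.q2 b b' hb hbb j1 j2 j1' j2' i1 i2 i1' i2' hj hj' hi hi' hin
    refine ⟨u, hu, ?_⟩
    obtain ⟨⟨k1, e1⟩, ⟨k2, e2⟩, _⟩ := id hin2
    have e1' : (j1' : ℤ) + j1 - u 0 = k1 * l.q1 := by simpa [Pv] using e1
    have e2' : (j2' : ℤ) + j2 - u 1 = k2 * l.q2 := by simpa [Pv] using e2
    have hu0 := abs_le.1 (hu 0)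
    have hu1 := abs_le.1 (hu 1)
    have K1 := small_mul3 (show (0 : ℤ) < l.q1 by omega) e1' (by omega) (by omega)
    have K2 := small_mul3 (show (0 : ℤ) < l.q2 by omega) e2' (by omega) (by omega)
    have hk1r : |(k1 : ℝ)| ≤ 2 := by rcases K1 with rfl | rfl | rfl <;> norm_num
    have hk2r : |(k2 : ℝ)| ≤ 2 := by rcases K2 with rfl | rfl | rfl <;> norm_num
    have hk1' := abs_le.1 hk1r
    have hk2' := abs_le.1 hk2r
    have e3 := Phi_InL l hin2 e1 e2
    have e4 : t - Phi α u = ((-(k1 * l.τ) - k2 * l.L + (x' + x) : ℝ) : UnitAddCircle) := by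
      rw [AddCircle.coe_add, ← e3, Phi_sub _ _ u, ht]
      abel
    rw [e4]
    refine (norm_coe_le _).trans ?_
    rw [abs_le]
    constructor <;> nlinarith

/-- The pattern selection: no finite set of elements of `O(2)` matches all the patterns measurably. -/
theorem no_meas (α : Fin 7 → UnitAddCircle) {n : ℕ} (ε : Fin n → Bool) (t : Fin n → UnitAddCircle) :
    ∃ N : ℕ, ∀ l : Lev α, N ≤ l.q1 → N ≤ l.q2 → ∃ s ≤ n, IsEmpty (MeasMatch l (8 ^ s) ε t) := by
  classical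
  set R : ℕ := 18 * 8 ^ n with hR
  have hfinU : {u : Fin 7 → ℤ | ∀ i, |u i| ≤ R}.Finite := by
    refine (Set.finite_Icc (fun _ : Fin 7 => (-(R : ℤ))) (fun _ => (R : ℤ))).subset ?_
    intro u hu
    exact ⟨fun i => (abs_le.1 (hu i)).1, fun i => (abs_le.1 (hu i)).2⟩
  obtain ⟨δ, hδ0, hδ⟩ : ∃ δ : ℝ, 0 < δ ∧ ∀ i : Fin n, ∀ u ∈ {u : Fin 7 → ℤ | ∀ i, |u i| ≤ R},
      t i ≠ Phi α u → δ < ‖t i - Phi α u‖ := by
    have ev : ∀ᶠ δ in 𝓝[>] (0 : ℝ), ∀ i : Fin n, ∀ u ∈ {u : Fin 7 → ℤ | ∀ i, |u i| ≤ R},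
        t i ≠ Phi α u → δ < ‖t i - Phi α u‖ := by
      rw [eventually_all]
      intro i
      rw [eventually_all_finite hfinU]
      intro u _
      by_cases h : t i = Phi α u
      · exact Eventually.of_forall fun δ h' => absurd h h'
      · have : 0 < ‖t i - Phi α u‖ := norm_pos_iff.2 (sub_ne_zero.2 h)
        refine ((gt_mem_nhds this).filter_mono nhdsWithin_le_nhds).mono ?_
        intro δ hδ _
        exact hδ
    obtain ⟨δ, h1, h2⟩ := (ev.and self_mem_nhdsWithin).exists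
    exact ⟨δ, h2, h1⟩
  obtain ⟨N1, hN1⟩ := exists_nat_gt (1 / δ)
  refine ⟨max (4 * R + 8) N1, fun l hq1 hq2 => ?_⟩
  have hq1R : 4 * R + 8 ≤ l.q1 := (le_max_left _ _).trans hq1
  have hq2R : 4 * R + 8 ≤ l.q2 := (le_max_left _ _).trans hq2
  have hq1N : N1 ≤ l.q1 := (le_max_right _ _).trans hq1
  have hq2N : N1 ≤ l.q2 := (le_max_right _ _).trans hq2
  have hL := L_pos l
  have hLδ : 6 * l.L < δ := by
    have h1 := l.hL
    have h2 : (N1 : ℝ) ≤ l.q1 := by exact_mod_cast hq1N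
    have h3 : (0 : ℝ) ≤ l.q2 := by positivity
    have h4 : 0 < 1 / δ := by positivity
    have h5 : l.L * (1 / δ) < 1 / 1000 := by
      calc l.L * (1 / δ) ≤ l.L * (l.q1 + l.q2) :=
            mul_le_mul_of_nonneg_left (by linarith) hL.le
        _ < 1 / 1000 := h1
    have h6 : l.L < 1 / 1000 * δ := by
      have : l.L = l.L * (1 / δ) * δ := by field_simp
      rw [this]
      exact mul_lt_mul_of_pos_right h5 hδ0
    linarith
  -- exactness
  set Ex : Fin n → Prop := fun i => ∃ u : Fin 7 → ℤ, (∀ i, |u i| ≤ R) ∧ t i = Phi α u with hEx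
  have hgoodslope : ∃ s ≤ n, ∀ i, ¬ Ex i → ¬ Act l (8 ^ s) (ε i) (t i) := by
    by_contra hcon
    push Not at hcon
    choose f hf using fun s : Fin (n + 1) => hcon s.1 (by omega)
    obtain ⟨s, s', hne, hss⟩ := Fintype.exists_ne_map_eq_of_card_lt f (by simp)
    have key : ∀ s s' : Fin (n + 1), s < s' → f s = f s' → False := by
      intro s s' hlt hss
      have h1 := (hf s).2
      have h2 := (hf s').2
      rw [← hss] at h2
      have hbb : 8 * 8 ^ (s : ℕ) ≤ 8 ^ (s' : ℕ) := by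
        rw [← pow_succ']
        exact Nat.pow_le_pow_right (by norm_num) hlt
      have hsn : 18 * 8 ^ (s : ℕ) ≤ R := by
        rw [hR]
        exact Nat.mul_le_mul_left _ (Nat.pow_le_pow_right (by norm_num) (by omega))
      obtain ⟨u, hu, hd⟩ := act_sep l (8 ^ (s : ℕ)) (8 ^ (s' : ℕ)) (Nat.one_le_pow _ _ (by norm_num)) hbb
        (by omega) (by omega) _ _ h1 h2
      have huR : ∀ i, |u i| ≤ R := fun i => (hu i).trans (by exact_mod_cast hsn)
      by_cases he : t (f s) = Phi α u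
      · exact (hf s).1 ⟨u, huR, he⟩
      · have := hδ (f s) u huR he
        linarith
    rcases lt_or_gt_of_ne hne with h | h
    · exact key s s' h hss
    · exact key s' s h hss.symm
  obtain ⟨s, hs, hgood⟩ := hgoodslope
  refine ⟨s, hs, ⟨fun MM => ?_⟩⟩
  refine MM.false_of_good (Nat.one_le_pow _ _ (by norm_num)) ?_
  intro i a ha v hv h
  by_cases he : Ex i
  · obtain ⟨u, hu, htu⟩ := he
    rw [htu] at h
    exact exact_good l (8 ^ s) R (Nat.one_le_pow _ _ (by norm_num)) hq1R hq2R u hu (ε i) a v ha hv h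
  · exact absurd ⟨a, ha, v, hv, h⟩ (hgood i he)

end Pool.Agent.Helper46.Gardner
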