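import Pool.Agent.Helper46.Gardner.Pat

open MeasureTheory Set Filter Topology

namespace Pool.Agent.Helper46.Gardner

/-- The exponential map of the circle. -/
noncomputable def E (θ : UnitAddCircle) : ℂ := (AddCircle.toCircle θ : ℂ)

lemma E_norm (θ : UnitAddCircle) : ‖E θ‖ = 1 := by
  unfold E
  exact Circle.norm_coe _

lemma E_zero : E 0 = 1 := by
  unfold E
  simp

lemma E_add (θ θ' : UnitAddCircle) : E (θ + θ') = E θ * E θ' := by
  unfold E
  rw [AddCircle.toCircle_add]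
  rfl

lemma E_neg (θ : UnitAddCircle) : E (-θ) = (starRingEnd ℂ) (E θ) := by
  unfold E
  rw [AddCircle.toCircle_neg]
  exact Circle.coe_inv_eq_conj _

lemma E_inj {θ θ' : UnitAddCircle} (h : E θ = E θ') : θ = θ' := by
  unfold E at h
  exact AddCircle.injective_toCircle one_ne_zero (Circle.ext h)

lemma E_coe (x : ℝ) : E (x : UnitAddCircle) = Complex.exp (Complex.I * ((2 * Real.pi * x : ℝ) : ℂ)) := by
  unfold E
  rw [AddCircle.toCircle_apply_mk, Circle.coe_exp]
  congr 1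
  push_cast
  ring

lemma E_cont : Continuous (fun x : ℝ => E (x : UnitAddCircle)) := by
  have : (fun x : ℝ => E (x : UnitAddCircle)) =
      fun x : ℝ => Complex.exp (Complex.I * ((2 * Real.pi * x : ℝ) : ℂ)) := funext E_coe
  rw [this]
  fun_prop

lemma E_dist (x : ℝ) : ‖E (x : UnitAddCircle) - 1‖ ≤ 7 * |x| := by
  rw [E_coe]
  refine Real.norm_exp_I_mul_ofReal_sub_one_le.trans ?_
  rw [Real.norm_eq_abs, abs_mul, abs_of_pos (by have := Real.pi_pos; positivity)]
  have := Real.pi_lt_d2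
  have h := abs_nonneg x
  nlinarith

/-- The angular coordinate. -/
noncomputable def angl (z : ℂ) : UnitAddCircle := ((Complex.arg z / (2 * Real.pi) : ℝ) : UnitAddCircle)

lemma E_angl (z : ℂ) : (‖z‖ : ℂ) * E (angl z) = z := by
  unfold angl
  rw [E_coe]
  have : 2 * Real.pi * (z.arg / (2 * Real.pi)) = z.arg := by
    have := Real.pi_ne_zero
    field_simp
  rw [this, mul_comm Complex.I]
  exact Complex.norm_mul_exp_arg_mul_I z

lemma norm_rE {r : ℝ} (hr : 0 ≤ r) (θ : UnitAddCircle) : ‖(r : ℂ) * E θ‖ = r := by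
  rw [norm_mul, E_norm, mul_one, Complex.norm_real, Real.norm_eq_abs, abs_of_nonneg hr]

lemma angl_rE {r : ℝ} (hr : 0 < r) (θ : UnitAddCircle) : angl ((r : ℂ) * E θ) = θ := by
  have h := E_angl ((r : ℂ) * E θ)
  rw [norm_rE hr.le] at h
  have hr' : (r : ℂ) ≠ 0 := by exact_mod_cast hr.ne'
  exact E_inj (mul_left_cancel₀ hr' h)

lemma exists_E (z : ℂ) (hz : ‖z‖ = 1) : ∃ θ, E θ = z := by
  refine ⟨angl z, ?_⟩
  have := E_angl z
  rw [hz] at this
  simpa using this

/-- The action on polar coordinates of an isometry fixing the origin. -/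
lemma iso_classify (g : ℂ ≃ᵢ ℂ) (h0 : g 0 = 0) :
    ∃ (ε : Bool) (t : UnitAddCircle), ∀ (r : ℝ) (θ : UnitAddCircle),
      g ((r : ℂ) * E θ) = (r : ℂ) * E (gact ε t θ) := by
  obtain ⟨a, ha⟩ := linear_isometry_complex (g.toRealLinearIsometryEquivOfMapZero h0)
  have hcoe : ∀ z, g z = (g.toRealLinearIsometryEquivOfMapZero h0) z := fun z => rfl
  obtain ⟨t, ht⟩ := exists_E (a : ℂ) (Circle.norm_coe a)
  rcases ha with ha | ha
  · refine ⟨false, t, fun r θ => ?_⟩
    rw [hcoe, ha, rotation_apply, ← ht]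
    simp only [gact, Bool.false_eq_true, if_false, E_add]
    ring
  · refine ⟨true, t, fun r θ => ?_⟩
    rw [hcoe, ha, LinearIsometryEquiv.trans_apply, rotation_apply, ← ht, Complex.conjLIE_apply]
    simp only [gact, if_true, sub_eq_add_neg, E_add, E_neg, map_mul, Complex.conj_ofReal]
    ring

lemma iso_norm (g : ℂ ≃ᵢ ℂ) (z : ℂ) : ‖g z‖ = ‖z - g.symm 0‖ := by
  have h1 := g.dist_eq z (g.symm 0)
  rw [g.apply_symm_apply, dist_zero_right, dist_eq_norm] at h1
  exact h1

/-- For a null measurable set, almost every circle through a point has null measurable section. -/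
lemma ae_section (P : Set ℂ) (hP : NullMeasurableSet P volume) :
    ∀ᵐ z : ℂ, NullMeasurableSet {x : ℝ | E (x : UnitAddCircle) * z ∈ P} volume := by
  obtain ⟨t, ht, htm, hte⟩ := hP.exists_measurable_superset_ae_eq
  set N := toMeasurable volume (t \ P) with hN
  have hN0 : volume N = 0 := by
    rw [hN, measure_toMeasurable]
    exact (ae_le_set.1 hte.le)
  have hNm : MeasurableSet N := measurableSet_toMeasurable _ _
  have hΨ : Measurable (fun p : ℝ × ℂ => E (p.1 : UnitAddCircle) * p.2) :=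
    ((E_cont.comp continuous_fst).mul continuous_snd).measurable
  set S : Set (ℝ × ℂ) := (fun p : ℝ × ℂ => E (p.1 : UnitAddCircle) * p.2) ⁻¹' N with hS
  have hSm : MeasurableSet S := hΨ hNm
  have hS0 : (volume : Measure (ℝ × ℂ)) S = 0 := by
    rw [Measure.volume_eq_prod, Measure.measure_prod_null hSm]
    refine Eventually.of_forall fun x => ?_
    have hmp : MeasurePreserving (rotation (AddCircle.toCircle (x : UnitAddCircle))) volume volume :=
      LinearIsometryEquiv.measurePreserving _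
    have : (Prod.mk x ⁻¹' S) = (rotation (AddCircle.toCircle (x : UnitAddCircle))) ⁻¹' N := rfl
    show volume (Prod.mk x ⁻¹' S) = 0
    rw [this, hmp.measure_preimage hNm.nullMeasurableSet, hN0]
  have hS'0 : (volume : Measure (ℂ × ℝ)) (Prod.swap ⁻¹' S) = 0 := by
    rw [Measure.volume_eq_prod, Measure.measurePreserving_swap.measure_preimage hSm.nullMeasurableSet]
    exact hS0
  rw [Measure.volume_eq_prod, Measure.measure_prod_null (measurable_swap hSm)] at hS'0
  filter_upwards [hS'0] with z hz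
  have hz' : volume {x : ℝ | E (x : UnitAddCircle) * z ∈ N} = 0 := hz
  have hmeas : MeasurableSet {x : ℝ | E (x : UnitAddCircle) * z ∈ t} :=
    (E_cont.mul continuous_const).measurable htm
  refine hmeas.nullMeasurableSet.congr ?_
  have h1 : ∀ᵐ x : ℝ, x ∉ {x : ℝ | E (x : UnitAddCircle) * z ∈ N} :=
    measure_eq_zero_iff_ae_notMem.1 hz'
  filter_upwards [h1] with x hx
  have hx' : E (x : UnitAddCircle) * z ∉ N := hx
  have h2 : E (x : UnitAddCircle) * z ∉ t \ P := fun h => hx' (subset_toMeasurable _ _ h)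
  have : (E (x : UnitAddCircle) * z ∈ t) = (E (x : UnitAddCircle) * z ∈ P) := by
    apply propext
    constructor
    · intro h
      by_contra hc
      exact h2 ⟨h, hc⟩
    · intro h
      exact ht h
  exact this

variable {α : Fin 7 → UnitAddCircle}

lemma meas_image (C : Set ℝ) (hC : MeasurableSet C) (c : UnitAddCircle) :
    MeasurableSet {x : ℝ | ∃ y ∈ C, (x : UnitAddCircle) = c + (y : UnitAddCircle)} := by
  obtain ⟨r, hr⟩ := QuotientAddGroup.mk_surjective c
  have hr' : ((r : ℝ) : UnitAddCircle) = c := hr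
  have e : {x : ℝ | ∃ y ∈ C, (x : UnitAddCircle) = c + (y : UnitAddCircle)} =
      ⋃ m : ℤ, (fun x : ℝ => x - r - m) ⁻¹' C := by
    ext x
    simp only [mem_setOf_eq, mem_iUnion, mem_preimage]
    constructor
    · rintro ⟨y, hy, h⟩
      have h1 : ((x - r - y : ℝ) : UnitAddCircle) = 0 := by
        rw [AddCircle.coe_sub, AddCircle.coe_sub, h, hr']
        abel
      rw [AddCircle.coe_eq_zero_iff] at h1
      obtain ⟨m, hm⟩ := h1
      refine ⟨m, ?_⟩
      have h2 : (m : ℝ) = x - r - y := by simpa using hm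
      rw [h2]
      simpa using hy
    · rintro ⟨m, hm⟩
      refine ⟨_, hm, ?_⟩
      rw [← hr', ← AddCircle.coe_add]
      have h3 : r + (x - r - m) = x - m := by ring
      rw [h3, AddCircle.coe_sub]
      have h5 : (((m : ℤ) : ℝ) : UnitAddCircle) = 0 := by
        rw [AddCircle.coe_eq_zero_iff]
        exact ⟨m, by simp⟩
      rw [h5, sub_zero]
  rw [e]
  exact MeasurableSet.iUnion fun m => (by fun_prop : Measurable fun x : ℝ => x - r - m) hC

lemma N0_countable (l : Lev α) : (N0 l).Countable := by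
  have : N0 l ⊆ range (fun p : ℤ × ℤ => (p.1 * l.τ + p.2 * l.L) / 2) := by
    rintro x ⟨m, n, h⟩
    exact ⟨(m, n), by simp only; linarith⟩
  exact (countable_range _).mono this

lemma measurableSet_X2 (l : Lev α) : MeasurableSet (X2 l) := by
  have e : X2 l = Ioo (l.L / 2) ((l.L + l.τ) / 2) ∩ (N0 l)ᶜ := by
    ext x
    simp only [X2, mem_setOf_eq, mem_inter_iff, mem_Ioo, mem_compl_iff]
    tauto
  rw [e]
  exact measurableSet_Ioo.inter (N0_countable l).measurableSet.compl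

lemma measurableSet_B0 (l : Lev α) : MeasurableSet (B0 l) := by
  have e : B0 l = Ioo 0 (l.L / 2) ∩ (N0 l)ᶜ := by
    ext x
    simp only [B0, mem_setOf_eq, mem_inter_iff, mem_Ioo, mem_compl_iff]
    tauto
  rw [e]
  exact measurableSet_Ioo.inter (N0_countable l).measurableSet.compl

lemma meas_posimage (l : Lev α) (b : ℕ) (V : Set (ℕ × ℕ × ℝ))
    (hV : ∀ j1 j2 : ℕ, MeasurableSet {x : ℝ | (j1, j2, x) ∈ V}) :
    MeasurableSet {x : ℝ | (x : UnitAddCircle) ∈ pos l b '' V} := by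
  have e : {x : ℝ | (x : UnitAddCircle) ∈ pos l b '' V} = ⋃ j1 : ℕ, ⋃ j2 : ℕ,
      {x : ℝ | ∃ y ∈ {y : ℝ | (j1, j2, y) ∈ V}, (x : UnitAddCircle) =
        Phi α (Pv l.q1 l.q2 b j1 j2) + (y : UnitAddCircle)} := by
    ext x
    simp only [mem_setOf_eq, mem_image, mem_iUnion]
    constructor
    · rintro ⟨⟨j1, j2, y⟩, hv, h⟩
      exact ⟨j1, j2, y, hv, h.symm⟩
    · rintro ⟨j1, j2, y, hv, h⟩
      exact ⟨(j1, j2, y), hv, h.symm⟩
  rw [e]
  exact MeasurableSet.iUnion fun j1 => MeasurableSet.iUnion fun j2 => meas_image _ (hV j1 j2) _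

lemma meas_setA (l : Lev α) (b : ℕ) : MeasurableSet {x : ℝ | (x : UnitAddCircle) ∈ setA l b} := by
  refine meas_posimage l b (VA l) fun j1 j2 => ?_
  have e : {x : ℝ | (j1, j2, x) ∈ VA l} =
      ({x : ℝ | j2 = 0 ∧ j1 < l.q1} ∩ X1 l) ∪ ({x : ℝ | j1 = 0 ∧ 1 ≤ j2 ∧ j2 < l.q2} ∩ X2 l) := by
    ext x
    simp only [VA, mem_setOf_eq, mem_union, mem_inter_iff]
    tauto
  rw [e]
  exact ((MeasurableSet.const _).inter (measurableSet_X1 l)).union
    ((MeasurableSet.const _).inter (measurableSet_X2 l))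

lemma meas_setB (l : Lev α) (b : ℕ) : MeasurableSet {x : ℝ | (x : UnitAddCircle) ∈ setB l b} := by
  refine meas_posimage l b (VB l) fun j1 j2 => ?_
  have e : {x : ℝ | (j1, j2, x) ∈ VB l} =
      ({x : ℝ | j2 = 0 ∧ 1 ≤ j1 ∧ j1 < l.q1} ∩ X1 l) ∪
      (({x : ℝ | j1 = 0 ∧ 1 ≤ j2 ∧ j2 < l.q2} ∩ X2 l) ∪ ({x : ℝ | j1 = 0 ∧ j2 = 0} ∩ B0 l)) := by
    ext x
    simp only [VB, mem_setOf_eq, mem_union, mem_inter_iff]
    tauto
  rw [e]
  exact ((MeasurableSet.const _).inter (measurableSet_X1 l)).union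
    (((MeasurableSet.const _).inter (measurableSet_X2 l)).union
    ((MeasurableSet.const _).inter (measurableSet_B0 l)))

lemma meas_cone (S : Set UnitAddCircle) (hS : MeasurableSet {x : ℝ | (x : UnitAddCircle) ∈ S}) :
    MeasurableSet {z : ℂ | angl z ∈ S} := by
  have : {z : ℂ | angl z ∈ S} =
      (fun z : ℂ => Complex.arg z / (2 * Real.pi)) ⁻¹' {x : ℝ | (x : UnitAddCircle) ∈ S} := rfl
  rw [this]
  exact (Complex.measurable_arg.div_const _) hS

/-- Every vertex is near a center. -/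
lemma near_center (l : Lev α) (b : ℕ) {v : ℕ × ℕ × ℝ} (hv : v ∈ VV l) :
    ∃ i < l.q1 + l.q2, ∀ r : ℝ, 0 ≤ r →
      ‖(r : ℂ) * E (pos l b v) - (r : ℂ) * (if i < l.q1 then E (Phi α (Pv l.q1 l.q2 b i 0))
        else E (Phi α (Pv l.q1 l.q2 b 0 ((i - l.q1 : ℕ) : ℤ))))‖ ≤ 7 * l.L * r := by
  obtain ⟨j1, j2, x⟩ := v
  obtain ⟨⟨h1, h2, h3⟩, hx0, hxL⟩ := hv
  simp only at h1 h2 h3 hx0 hxL
  have key : ∀ r : ℝ, 0 ≤ r → ‖(r : ℂ) * E (pos l b (j1, j2, x)) -
      (r : ℂ) * E (Phi α (Pv l.q1 l.q2 b j1 j2))‖ ≤ 7 * l.L * r := by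
    intro r hr
    have e : (r : ℂ) * E (pos l b (j1, j2, x)) - (r : ℂ) * E (Phi α (Pv l.q1 l.q2 b j1 j2)) =
        (r : ℂ) * E (Phi α (Pv l.q1 l.q2 b j1 j2)) * (E (x : UnitAddCircle) - 1) := by
      unfold pos
      rw [E_add]
      ring
    rw [e, norm_mul, norm_rE hr]
    have h4 := E_dist x
    rw [abs_of_pos hx0] at h4
    have h5 : r * ‖E (x : UnitAddCircle) - 1‖ ≤ r * (7 * l.L) :=
      mul_le_mul_of_nonneg_left (by linarith) hr
    linarith
  by_cases hj : j2 = 0
  · subst hj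
    refine ⟨j1, by omega, fun r hr => ?_⟩
    rw [if_pos h1]
    exact key r hr
  · have hj1 : j1 = 0 := by omega
    subst hj1
    refine ⟨l.q1 + j2, by omega, fun r hr => ?_⟩
    rw [if_neg (by omega)]
    have : l.q1 + j2 - l.q1 = j2 := by omega
    rw [this]
    exact key r hr

end Pool.Agent.Helper46.Gardner
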