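import Pool.Agent.Helper46.Gardner.PlaneA
import Pool.Agent.Helper46.Gardner.Holes3

open MeasureTheory Set Filter Topology

namespace Pool.Agent.Helper46.Gardner

variable {α : Fin 7 → UnitAddCircle}

/-- The size parameter of a level. -/
def Qn (l : Lev α) : ℕ := l.q1 + l.q2

lemma Qn_pos (l : Lev α) : 1 ≤ Qn l := by
  have := l.hq1
  unfold Qn
  omega

/-- Hole data of a level. -/
noncomputable def HDl (l : Lev α) : HoleData (Qn l) := hd (Qn l) (Qn_pos l)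

/-- A sequence of levels. -/
structure LSeq (α : Fin 7 → UnitAddCircle) where
  l : ℕ → Lev α
  hw : ∀ n, 7 * (l n).L < (HDl (l n)).w
  hn : ∀ n, n + 1 ≤ (l n).q1 ∧ n + 1 ≤ (l n).q2
  h2 : ∀ n, 2 * Qn (l n) ≤ Qn (l (n + 1))
  hδ : ∀ n, 16 * (Qn (l n) : ℝ) / (HDl (l n)).δ ≤ Qn (l (n + 1))

theorem exists_seq : ∃ α : Fin 7 → UnitAddCircle, Nonempty (LSeq α) := by
  classical
  set G : ℕ → ℕ → ℝ := fun q1 q2 => if h : 1 ≤ q1 + q2 then (hd (q1 + q2) h).w / 7 else 1 with hG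
  have hGpos : ∀ q1 q2, 0 < G q1 q2 := by
    intro q1 q2
    simp only [hG]
    split_ifs with h
    · have := (hd (q1 + q2) h).w_pos
      positivity
    · norm_num
  obtain ⟨α, hα⟩ := exists_alpha G hGpos
  refine ⟨α, ?_⟩
  choose f hf using hα
  set nx : ℕ → Lev α → Lev α := fun n l =>
    f (max (n + 2) (max (2 * Qn l) ⌈16 * (Qn l : ℝ) / (HDl l).δ⌉₊)) with hnx
  set l : ℕ → Lev α := fun n => Nat.rec (f 1) (fun n l => nx n l) n with hl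
  have hl0 : l 0 = f 1 := rfl
  have hls : ∀ n, l (n + 1) = nx n (l n) := fun n => rfl
  have hform : ∀ n, ∃ N, l n = f N := by
    intro n
    cases n with
    | zero => exact ⟨1, rfl⟩
    | succ n => exact ⟨_, rfl⟩
  refine ⟨⟨l, ?_, ?_, ?_, ?_⟩⟩
  · intro n
    obtain ⟨N, hN⟩ := hform n
    rw [hN]
    have h3 := (hf N).2.2
    have hpos : 1 ≤ (f N).q1 + (f N).q2 := Qn_pos (f N)
    simp only [hG, dif_pos hpos] at h3
    have e : (hd ((f N).q1 + (f N).q2) hpos).w = (HDl (f N)).w := rfl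
    rw [e] at h3
    linarith
  · intro n
    cases n with
    | zero =>
      rw [hl0]
      exact ⟨(hf 1).1, (hf 1).2.1⟩
    | succ n =>
      rw [hls, hnx]
      have h1 := (hf (max (n + 2) (max (2 * Qn (l n)) ⌈16 * (Qn (l n) : ℝ) / (HDl (l n)).δ⌉₊))).1
      have h2 := (hf (max (n + 2) (max (2 * Qn (l n)) ⌈16 * (Qn (l n) : ℝ) / (HDl (l n)).δ⌉₊))).2.1
      exact ⟨(le_max_left _ _).trans h1, (le_max_left _ _).trans h2⟩
  · intro n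
    rw [hls, hnx]
    have h1 := (hf (max (n + 2) (max (2 * Qn (l n)) ⌈16 * (Qn (l n) : ℝ) / (HDl (l n)).δ⌉₊))).1
    have h3 := ((le_max_left _ _).trans (le_max_right _ _)).trans h1
    unfold Qn at h3 ⊢
    simp only
    omega
  · intro n
    rw [hls, hnx]
    have h1 := (hf (max (n + 2) (max (2 * Qn (l n)) ⌈16 * (Qn (l n) : ℝ) / (HDl (l n)).δ⌉₊))).1
    have h3 := ((le_max_right _ _).trans (le_max_right _ _)).trans h1
    simp only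
    have h4 := Nat.le_ceil (16 * (Qn (l n) : ℝ) / (HDl (l n)).δ)
    refine h4.trans ?_
    have h5 : ⌈16 * (Qn (l n) : ℝ) / (HDl (l n)).δ⌉₊ ≤
      Qn (f (max (n + 2) (max (2 * Qn (l n)) ⌈16 * (Qn (l n) : ℝ) / (HDl (l n)).δ⌉₊))) := by
      refine h3.trans ?_
      unfold Qn
      omega
    exact_mod_cast h5

section planar

variable (σ : LSeq α)

/-- Size parameter. -/
def LSeq.Q (σ : LSeq α) (n : ℕ) : ℕ := Qn (σ.l n)

/-- Hole data. -/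
noncomputable def LSeq.H (σ : LSeq α) (n : ℕ) : HoleData (σ.Q n) := HDl (σ.l n)

/-- The radial sets. -/
def LSeq.Y (σ : LSeq α) (n i : ℕ) : Set ℝ :=
  {s | (∃ j ≤ (σ.H n).J, (σ.H n).σ j + i * ((σ.H n).δ / (n + 1)) ≤ s ∧
    s < (σ.H n).σ j + (i + 1) * ((σ.H n).δ / (n + 1))) ∧ ∀ m, n < m → s ∉ (σ.H m).H}

lemma LSeq.Q_pos (n : ℕ) : (0 : ℝ) < σ.Q n := by
  have := Qn_pos (σ.l n)
  unfold LSeq.Q
  exact_mod_cast this

lemma LSeq.Q_mono {n m : ℕ} (h : n < m) : 2 * σ.Q n ≤ σ.Q m := by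
  induction m with
  | zero => omega
  | succ m ih =>
    have h2 := σ.h2 m
    rcases Nat.lt_or_ge n m with h3 | h3
    · have := ih h3
      unfold LSeq.Q at *
      omega
    · have : n = m := by omega
      subst this
      exact h2

lemma LSeq.n_le_Q (n : ℕ) : n + 1 ≤ σ.Q n := by
  have := (σ.hn n).1
  unfold LSeq.Q Qn
  omega

lemma LSeq.shell {n i : ℕ} (hi : i ≤ n) {s : ℝ} (hs : s ∈ σ.Y n i) :
    ∃ j ≤ (σ.H n).J, (σ.H n).σ j ≤ s ∧ s < (σ.H n).σ j + (σ.H n).δ := by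
  obtain ⟨⟨j, hj, h1, h2⟩, -⟩ := hs
  have hδ := (σ.H n).δ_pos
  have hn : (0 : ℝ) < n + 1 := by positivity
  have hd : 0 < (σ.H n).δ / (n + 1) := by positivity
  refine ⟨j, hj, ?_, ?_⟩
  · have : 0 ≤ (i : ℝ) * ((σ.H n).δ / (n + 1)) := by positivity
    linarith
  · have h3 : (i : ℝ) + 1 ≤ n + 1 := by exact_mod_cast Nat.succ_le_succ hi
    have h4 : ((i : ℝ) + 1) * ((σ.H n).δ / (n + 1)) ≤ (n + 1) * ((σ.H n).δ / (n + 1)) :=
      mul_le_mul_of_nonneg_right h3 hd.le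
    have h5 : ((n : ℝ) + 1) * ((σ.H n).δ / (n + 1)) = (σ.H n).δ := by field_simp
    linarith

lemma LSeq.Y_lt {n i : ℕ} (hi : i ≤ n) {s : ℝ} (hs : s ∈ σ.Y n i) :
    s < 1 / (16 * (σ.Q n : ℝ) ^ 2) := by
  obtain ⟨j, hj, h1, h2⟩ := σ.shell hi hs
  have := (σ.H n).σ_lt j hj
  linarith

lemma LSeq.Y_ge {n i : ℕ} (hi : i ≤ n) {s : ℝ} (hs : s ∈ σ.Y n i) :
    1 / (64 * (σ.Q n : ℝ) ^ 2) ≤ s := by
  obtain ⟨j, hj, h1, h2⟩ := σ.shell hi hs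
  have := (σ.H n).σ_ge j hj
  linarith

lemma LSeq.Y_pos {n i : ℕ} (hi : i ≤ n) {s : ℝ} (hs : s ∈ σ.Y n i) : 0 < s := by
  have := σ.Y_ge hi hs
  have hQ := σ.Q_pos n
  have h2 : 0 < 1 / (64 * (σ.Q n : ℝ) ^ 2) := by positivity
  linarith

lemma LSeq.Y_lt_one {n i : ℕ} (hi : i ≤ n) {s : ℝ} (hs : s ∈ σ.Y n i) : s < 1 := by
  have h1 := σ.Y_lt hi hs
  have h2 : (1 : ℝ) ≤ σ.Q n := by exact_mod_cast Qn_pos (σ.l n)
  have h3 : 1 / (16 * (σ.Q n : ℝ) ^ 2) ≤ 1 := by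
    rw [div_le_one (by positivity)]
    nlinarith
  linarith

lemma LSeq.Y_lt_of_lt {n m i i' : ℕ} (hnm : n < m) (hi : i ≤ n) (hi' : i' ≤ m) {s s' : ℝ}
    (hs : s ∈ σ.Y n i) (hs' : s' ∈ σ.Y m i') : s' < s := by
  have h1 := σ.Y_ge hi hs
  have h2 := σ.Y_lt hi' hs'
  have h3 : (2 : ℝ) * σ.Q n ≤ σ.Q m := by exact_mod_cast σ.Q_mono hnm
  have hQ := σ.Q_pos n
  have h4 : 1 / (16 * (σ.Q m : ℝ) ^ 2) ≤ 1 / (64 * (σ.Q n : ℝ) ^ 2) := by
    apply one_div_le_one_div_of_le (by positivity)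
    nlinarith
  linarith

lemma LSeq.Y_unique {n m i i' : ℕ} (hi : i ≤ n) (hi' : i' ≤ m) {s : ℝ}
    (hs : s ∈ σ.Y n i) (hs' : s ∈ σ.Y m i') : n = m ∧ i = i' := by
  have hnm : n = m := by
    by_contra hne
    rcases lt_or_gt_of_ne hne with h | h
    · exact lt_irrefl _ (σ.Y_lt_of_lt h hi hi' hs hs')
    · exact lt_irrefl _ (σ.Y_lt_of_lt h hi' hi hs' hs)
  subst hnm
  refine ⟨rfl, ?_⟩
  have hδ := (σ.H n).δ_pos
  have hn : (0 : ℝ) < n + 1 := by positivity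
  have hd : 0 < (σ.H n).δ / (n + 1) := by positivity
  obtain ⟨j, hj, a1, a2⟩ := σ.shell hi hs
  obtain ⟨j', hj', b1, b2⟩ := σ.shell hi' hs'
  obtain ⟨⟨k, hk, c1, c2⟩, -⟩ := hs
  obtain ⟨⟨k', hk', d1, d2⟩, -⟩ := hs'
  have hin : (i : ℝ) + 1 ≤ n + 1 := by exact_mod_cast Nat.succ_le_succ hi
  have hin' : (i' : ℝ) + 1 ≤ n + 1 := by exact_mod_cast Nat.succ_le_succ hi'
  have h5 : ((n : ℝ) + 1) * ((σ.H n).δ / (n + 1)) = (σ.H n).δ := by field_simp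
  have e1 : ((i : ℝ) + 1) * ((σ.H n).δ / (n + 1)) ≤ (σ.H n).δ := by
    exact (mul_le_mul_of_nonneg_right hin hd.le).trans h5.le
  have e2 : ((i' : ℝ) + 1) * ((σ.H n).δ / (n + 1)) ≤ (σ.H n).δ := by
    exact (mul_le_mul_of_nonneg_right hin' hd.le).trans h5.le
  have e3 : 0 ≤ (i : ℝ) * ((σ.H n).δ / (n + 1)) := by positivity
  have e4 : 0 ≤ (i' : ℝ) * ((σ.H n).δ / (n + 1)) := by positivity
  have hkk : k = k' := by
    by_contra hne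
    rcases lt_or_gt_of_ne hne with h | h
    · have := (σ.H n).σ_gap k k' h
      linarith
    · have := (σ.H n).σ_gap k' k h
      linarith
  subst hkk
  by_contra hne
  rcases lt_or_gt_of_ne hne with h | h
  · have h1 : (i : ℝ) + 1 ≤ i' := by exact_mod_cast h
    have := mul_le_mul_of_nonneg_right h1 hd.le
    linarith
  · have h1 : (i' : ℝ) + 1 ≤ i := by exact_mod_cast h
    have := mul_le_mul_of_nonneg_right h1 hd.le
    linarith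

lemma LSeq.Y_notH {n i : ℕ} (hi : i ≤ n) {s : ℝ} (hs : s ∈ σ.Y n i) (m : ℕ) : s ∉ (σ.H m).H := by
  rcases Nat.lt_or_ge n m with h | h
  · exact hs.2 m h
  · intro hH
    have h1 := (σ.H m).H_ge s hH
    have h2 := σ.Y_lt hi hs
    have h3 : (σ.Q m : ℝ) ≤ σ.Q n := by
      rcases Nat.lt_or_ge m n with h4 | h4
      · have := σ.Q_mono h4
        exact_mod_cast (by omega : σ.Q m ≤ σ.Q n)
      · have : m = n := by omega
        rw [this]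
    have hQ := σ.Q_pos m
    have h4 : 1 / (16 * (σ.Q n : ℝ) ^ 2) ≤ 1 / (16 * (σ.Q m : ℝ) ^ 2) := by
      apply one_div_le_one_div_of_le (by positivity)
      nlinarith
    linarith

lemma LSeq.Y_meas (n i : ℕ) : MeasurableSet (σ.Y n i) := by
  have e : σ.Y n i = (⋃ j : ℕ, ⋃ _ : j ≤ (σ.H n).J, Ico ((σ.H n).σ j + i * ((σ.H n).δ / (n + 1)))
      ((σ.H n).σ j + (i + 1) * ((σ.H n).δ / (n + 1)))) ∩ ⋂ m : ℕ, ⋂ _ : n < m, ((σ.H m).H)ᶜ := by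
    ext s
    simp only [LSeq.Y, mem_setOf_eq, mem_inter_iff, mem_iUnion, mem_iInter, mem_Ico, mem_compl_iff,
      exists_prop]
  rw [e]
  refine MeasurableSet.inter ?_ ?_
  · exact MeasurableSet.iUnion fun j => MeasurableSet.iUnion fun _ => measurableSet_Ico
  · exact MeasurableSet.iInter fun m => MeasurableSet.iInter fun _ => (σ.H m).H_meas.compl

/-- Planar set with prescribed angular sets. -/
def LSeq.plane (σ : LSeq α) (S : ℕ → ℕ → Set UnitAddCircle) : Set ℂ :=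
  {z | ∃ n, ∃ i ≤ n, ‖z‖ ^ 2 ∈ σ.Y n i ∧ angl z ∈ S n i}

lemma LSeq.plane_meas (S : ℕ → ℕ → Set UnitAddCircle)
    (hS : ∀ n i, MeasurableSet {x : ℝ | (x : UnitAddCircle) ∈ S n i}) :
    MeasurableSet (σ.plane S) := by
  have e : σ.plane S = ⋃ n : ℕ, ⋃ i : ℕ, ⋃ _ : i ≤ n,
      ((fun z : ℂ => ‖z‖ ^ 2) ⁻¹' σ.Y n i ∩ {z : ℂ | angl z ∈ S n i}) := by
    ext z
    simp only [LSeq.plane, mem_setOf_eq, mem_inter_iff, mem_iUnion, mem_preimage, exists_prop]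
  rw [e]
  refine MeasurableSet.iUnion fun n => MeasurableSet.iUnion fun i => MeasurableSet.iUnion fun _ => ?_
  exact ((by fun_prop : Measurable fun z : ℂ => ‖z‖ ^ 2) (σ.Y_meas n i)).inter (meas_cone _ (hS n i))

lemma LSeq.plane_norm (S : ℕ → ℕ → Set UnitAddCircle) {z : ℂ} (hz : z ∈ σ.plane S) :
    0 < ‖z‖ ∧ ‖z‖ < 1 := by
  obtain ⟨n, i, hi, h1, -⟩ := hz
  have h2 := σ.Y_pos hi h1
  have h3 := σ.Y_lt_one hi h1
  have h4 := norm_nonneg z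
  constructor
  · by_contra hcon
    have : ‖z‖ = 0 := le_antisymm (not_lt.1 hcon) h4
    rw [this] at h2
    norm_num at h2
  · by_contra hcon
    push Not at hcon
    nlinarith

lemma LSeq.plane_notH (S : ℕ → ℕ → Set UnitAddCircle) {z : ℂ} (hz : z ∈ σ.plane S) (m : ℕ) :
    ‖z‖ ^ 2 ∉ (σ.H m).H := by
  obtain ⟨n, i, hi, h1, -⟩ := hz
  exact σ.Y_notH hi h1 m

lemma LSeq.mem_plane_iff (S : ℕ → ℕ → Set UnitAddCircle) {z : ℂ} {n i : ℕ} (hi : i ≤ n)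
    (hz : ‖z‖ ^ 2 ∈ σ.Y n i) : z ∈ σ.plane S ↔ angl z ∈ S n i := by
  constructor
  · rintro ⟨m, i', hi', h1, h2⟩
    obtain ⟨rfl, rfl⟩ := σ.Y_unique hi hi' hz h1
    exact h2
  · intro h
    exact ⟨n, i, hi, hz, h⟩

open Classical in
/-- Index of a squared radius. -/
noncomputable def LSeq.idx (σ : LSeq α) (s : ℝ) : ℕ × ℕ :=
  if h : ∃ p : ℕ × ℕ, p.2 ≤ p.1 ∧ s ∈ σ.Y p.1 p.2 then h.choose else (0, 0)

lemma LSeq.idx_eq {n i : ℕ} (hi : i ≤ n) {s : ℝ} (hs : s ∈ σ.Y n i) : σ.idx s = (n, i) := by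
  have h : ∃ p : ℕ × ℕ, p.2 ≤ p.1 ∧ s ∈ σ.Y p.1 p.2 := ⟨(n, i), hi, hs⟩
  unfold LSeq.idx
  rw [dif_pos h]
  obtain ⟨h1, h2⟩ := σ.Y_unique h.choose_spec.1 hi h.choose_spec.2 hs
  exact Prod.ext h1 h2

lemma LSeq.plane_bij (S T : ℕ → ℕ → Set UnitAddCircle) (f : ℕ → ℕ → UnitAddCircle → UnitAddCircle)
    (hf : ∀ n i, BijOn (f n i) (S n i) (T n i)) :
    ∃ F : ℂ → ℂ, BijOn F (σ.plane S) (σ.plane T) ∧
      ∀ z ∈ σ.plane S, ∃ n i, angl z ∈ S n i ∧ F z = (‖z‖ : ℂ) * E (f n i (angl z)) := by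
  set F : ℂ → ℂ := fun z => (‖z‖ : ℂ) * E (f (σ.idx (‖z‖ ^ 2)).1 (σ.idx (‖z‖ ^ 2)).2 (angl z))
    with hF
  have hFz : ∀ z, ∀ n i, i ≤ n → ‖z‖ ^ 2 ∈ σ.Y n i → F z = (‖z‖ : ℂ) * E (f n i (angl z)) := by
    intro z n i hi hz
    simp only [hF, σ.idx_eq hi hz]
  have hFn : ∀ z, ‖F z‖ = ‖z‖ := fun z => norm_rE (norm_nonneg z) _
  refine ⟨F, ⟨?_, ?_, ?_⟩, ?_⟩
  · intro z hz
    have hpos := (σ.plane_norm S hz).1
    obtain ⟨n, i, hi, h1, h2⟩ := hz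
    refine ⟨n, i, hi, by rw [hFn]; exact h1, ?_⟩
    rw [hFz z n i hi h1, angl_rE hpos]
    exact (hf n i).mapsTo h2
  · intro z hz z' hz' h
    have hpos := (σ.plane_norm S hz).1
    have hpos' := (σ.plane_norm S hz').1
    have hn : ‖z‖ = ‖z'‖ := by rw [← hFn z, h, hFn]
    obtain ⟨n, i, hi, h1, h2⟩ := hz
    have h1' : ‖z'‖ ^ 2 ∈ σ.Y n i := by rw [← hn]; exact h1
    have h2' : angl z' ∈ S n i := (σ.mem_plane_iff S hi h1').1 hz'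
    rw [hFz z n i hi h1, hFz z' n i hi h1', hn] at h
    have hne : (‖z'‖ : ℂ) ≠ 0 := by exact_mod_cast hpos'.ne'
    have h3 := E_inj (mul_left_cancel₀ hne h)
    have h4 := (hf n i).injOn h2 h2' h3
    rw [← E_angl z, ← E_angl z', hn, h4]
  · intro z' hz'
    have hpos := (σ.plane_norm T hz').1
    obtain ⟨n, i, hi, h1, h2⟩ := hz'
    obtain ⟨θ, hθ, hθ'⟩ := (hf n i).surjOn h2
    have hnz : ‖(‖z'‖ : ℂ) * E θ‖ = ‖z'‖ := norm_rE (norm_nonneg _) θ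
    have hY : ‖(‖z'‖ : ℂ) * E θ‖ ^ 2 ∈ σ.Y n i := by rw [hnz]; exact h1
    refine ⟨(‖z'‖ : ℂ) * E θ, ?_, ?_⟩
    · rw [σ.mem_plane_iff S hi hY, angl_rE hpos]
      exact hθ
    · rw [hFz _ n i hi hY, hnz, angl_rE hpos, hθ']
      exact E_angl z'
  · rintro z ⟨n, i, hi, h1, h2⟩
    exact ⟨n, i, h2, hFz z n i hi h1⟩

end planar

end Pool.Agent.Helper46.Gardner
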