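import Pool.Agent.Helper46.Gardner.PlaneB

open MeasureTheory Set Filter Topology

namespace Pool.Agent.Helper46.Gardner

variable {α : Fin 7 → UnitAddCircle}

/-- Angular sets on the first side. -/
def SA (σ : LSeq α) (n i : ℕ) : Set UnitAddCircle := setA (σ.l n) (8 ^ i)

/-- Angular sets on the second side. -/
def SB (σ : LSeq α) (n i : ℕ) : Set UnitAddCircle := setB (σ.l n) (8 ^ i)

lemma Q_growth (σ : LSeq α) (n m : ℕ) : 2 ^ m * σ.Q (n + 1) ≤ σ.Q (n + 1 + m) := by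
  induction m with
  | zero => simp
  | succ m ih =>
    have h := σ.h2 (n + 1 + m)
    have h' : 2 * σ.Q (n + 1 + m) ≤ σ.Q (n + 1 + (m + 1)) := h
    calc 2 ^ (m + 1) * σ.Q (n + 1) = 2 * (2 ^ m * σ.Q (n + 1)) := by ring
      _ ≤ 2 * σ.Q (n + 1 + m) := Nat.mul_le_mul_left _ ih
      _ ≤ _ := h'

lemma bad_area (σ : LSeq α) (n : ℕ) :
    volume (⋃ m : ℕ, {z : ℂ | ‖z‖ ^ 2 ∈ (σ.H (n + 1 + m)).H}) ≤
      ENNReal.ofReal (2 / σ.Q (n + 1)) := by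
  have hQ := σ.Q_pos (n + 1)
  calc volume (⋃ m : ℕ, {z : ℂ | ‖z‖ ^ 2 ∈ (σ.H (n + 1 + m)).H})
      ≤ ∑' m : ℕ, volume {z : ℂ | ‖z‖ ^ 2 ∈ (σ.H (n + 1 + m)).H} := measure_iUnion_le _
    _ ≤ ∑' m : ℕ, ENNReal.ofReal (1 / σ.Q (n + 1) * (1 / 2) ^ m) := by
        refine ENNReal.tsum_le_tsum fun m => ?_
        refine (σ.H (n + 1 + m)).H_area.trans ?_
        apply ENNReal.ofReal_le_ofReal
        have h1 : (2 : ℝ) ^ m * σ.Q (n + 1) ≤ σ.Q (n + 1 + m) := by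
          exact_mod_cast Q_growth σ n m
        have h2 : 1 / (σ.Q (n + 1) : ℝ) * (1 / 2) ^ m = 1 / (2 ^ m * σ.Q (n + 1)) := by
          rw [one_div_pow]
          field_simp
        rw [h2]
        exact one_div_le_one_div_of_le (by positivity) h1
    _ = ENNReal.ofReal (∑' m : ℕ, 1 / σ.Q (n + 1) * (1 / 2 : ℝ) ^ m) := by
        rw [ENNReal.ofReal_tsum_of_nonneg]
        · intro m
          positivity
        · exact (summable_geometric_two).mul_left _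
    _ = ENNReal.ofReal (2 / σ.Q (n + 1)) := by
        rw [tsum_mul_left, tsum_geometric_two]
        congr 1
        ring

lemma good_area (σ : LSeq α) (n s j : ℕ) (hs : s ≤ n) (hj : j ≤ (σ.H n).J) :
    volume {z : ℂ | ((σ.H n).σ j ≤ ‖z‖ ^ 2 ∧ ‖z‖ ^ 2 ≤ (σ.H n).σ j + (σ.H n).δ) ∧
      ‖z‖ ^ 2 ∈ σ.Y n s} ≠ 0 := by
  have hδ := (σ.H n).δ_pos
  have hQ := σ.Q_pos n
  have hQ1 := σ.Q_pos (n + 1)
  have hn : (0 : ℝ) < n + 1 := by positivity
  set d := (σ.H n).δ / (n + 1) with hd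
  have hd0 : 0 < d := by positivity
  set a := (σ.H n).σ j + s * d with ha
  have hsd : 0 ≤ (s : ℝ) * d := by positivity
  have ha0 : 0 ≤ a := by
    have := (σ.H n).σ_pos j hj
    linarith
  have hdn : (s + 1 : ℝ) * d ≤ (σ.H n).δ := by
    have h1 : (s : ℝ) + 1 ≤ n + 1 := by exact_mod_cast Nat.succ_le_succ hs
    have h2 := mul_le_mul_of_nonneg_right h1 hd0.le
    have h3 : ((n : ℝ) + 1) * d = (σ.H n).δ := by rw [hd]; field_simp
    linarith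
  have hsub : {z : ℂ | a ≤ ‖z‖ ^ 2 ∧ ‖z‖ ^ 2 ≤ a + d / 2} \
      (⋃ m : ℕ, {z : ℂ | ‖z‖ ^ 2 ∈ (σ.H (n + 1 + m)).H}) ⊆
      {z : ℂ | ((σ.H n).σ j ≤ ‖z‖ ^ 2 ∧ ‖z‖ ^ 2 ≤ (σ.H n).σ j + (σ.H n).δ) ∧
        ‖z‖ ^ 2 ∈ σ.Y n s} := by
    rintro z ⟨⟨h1, h2⟩, h3⟩
    refine ⟨⟨by linarith, by linarith⟩, ⟨⟨j, hj, h1, by linarith⟩, ?_⟩⟩
    intro m hm hH
    apply h3
    rw [mem_iUnion]
    obtain ⟨q, rfl⟩ := Nat.exists_eq_add_of_lt hm
    refine ⟨q, ?_⟩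
    have e : n + q + 1 = n + 1 + q := by ring
    rw [e] at hH
    exact hH
  intro h0
  have h1 := measure_mono_null hsub h0
  have h2 := le_measure_diff (μ := volume)
    (s₁ := {z : ℂ | a ≤ ‖z‖ ^ 2 ∧ ‖z‖ ^ 2 ≤ a + d / 2})
    (s₂ := ⋃ m : ℕ, {z : ℂ | ‖z‖ ^ 2 ∈ (σ.H (n + 1 + m)).H})
  rw [h1, area_annulus_eq ha0 (by linarith)] at h2
  have h3 : ENNReal.ofReal (Real.pi * (a + d / 2 - a)) ≤ ENNReal.ofReal (2 / σ.Q (n + 1)) := by
    have := tsub_eq_zero_iff_le.1 (le_antisymm h2 zero_le)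
    exact this.trans (bad_area σ n)
  rw [ENNReal.ofReal_le_ofReal_iff (by positivity)] at h3
  have h4 : 16 * (σ.Q n : ℝ) / (σ.H n).δ ≤ σ.Q (n + 1) := σ.hδ n
  have h5 : 2 / (σ.Q (n + 1) : ℝ) ≤ (σ.H n).δ / (8 * σ.Q n) := by
    rw [div_le_div_iff₀ hQ1 (by positivity)]
    rw [div_le_iff₀ hδ] at h4
    linarith
  have h6 : (σ.H n).δ / (8 * σ.Q n) ≤ d / 8 := by
    rw [hd, div_div]
    apply div_le_div_of_nonneg_left hδ.le (by positivity)
    have : ((n : ℝ) + 1) ≤ σ.Q n := by exact_mod_cast σ.n_le_Q n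
    linarith
  have h7 := Real.pi_gt_three
  nlinarith

/-- There is no measurable equidecomposition in the plane. -/
theorem no_plane (σ : LSeq α) (k : ℕ) (P : Fin k → Set ℂ) (g : Fin k → (ℂ ≃ᵢ ℂ))
    (hm : ∀ i, NullMeasurableSet (P i) volume) (hU : (⋃ i, P i) = σ.plane (SA σ))
    (hD : Pairwise (fun i j => Disjoint (P i) (P j)))
    (hU' : (⋃ i, (⇑(g i)) '' (P i)) = σ.plane (SB σ))
    (hD' : Pairwise (fun i j => Disjoint ((⇑(g i)) '' (P i)) ((⇑(g j)) '' (P j)))) : False := by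
  classical
  have hcl : ∀ i, ∃ (ε : Bool) (t : UnitAddCircle), g i 0 = 0 →
      ∀ (r : ℝ) (θ : UnitAddCircle), g i ((r : ℂ) * E θ) = (r : ℂ) * E (gact ε t θ) := by
    intro i
    by_cases h : g i 0 = 0
    · obtain ⟨ε, t, h1⟩ := iso_classify (g i) h
      exact ⟨ε, t, fun _ => h1⟩
    · exact ⟨false, 0, fun h' => absurd h' h⟩
  choose ε t hεt using hcl
  obtain ⟨N, hN⟩ := no_meas α ε t
  set n : ℕ := N + 2 * k + ∑ i : Fin k, ⌈1 / ‖g i 0‖⌉₊ with hn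
  have hnN : N ≤ n := by omega
  have hnk : 2 * k ≤ n := by omega
  have hQn : n + 1 ≤ σ.Q n := σ.n_le_Q n
  have hQpos := σ.Q_pos n
  have hcn : ∀ i, g i 0 ≠ 0 → 1 / (σ.Q n : ℝ) ≤ ‖g i 0‖ := by
    intro i hi
    have h1 : ⌈1 / ‖g i 0‖⌉₊ ≤ ∑ i : Fin k, ⌈1 / ‖g i 0‖⌉₊ :=
      Finset.single_le_sum (f := fun i : Fin k => ⌈1 / ‖g i 0‖⌉₊) (fun _ _ => Nat.zero_le _)
        (Finset.mem_univ i)
    have h2 : ⌈1 / ‖g i 0‖⌉₊ ≤ σ.Q n := by omega
    have h3 : 1 / ‖g i 0‖ ≤ σ.Q n := (Nat.le_ceil _).trans (by exact_mod_cast h2)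
    have h4 : 0 < ‖g i 0‖ := norm_pos_iff.2 hi
    rw [div_le_iff₀ h4] at h3
    rw [div_le_iff₀ hQpos]
    linarith
  have hsymm : ∀ i, ‖(g i).symm 0‖ = ‖g i 0‖ := by
    intro i
    rw [iso_norm (g i) 0, zero_sub, norm_neg]
  obtain ⟨s, hs, hempty⟩ := hN (σ.l n) (hnN.trans (by have := (σ.hn n).1; omega))
    (hnN.trans (by have := (σ.hn n).2; omega))
  have hsn : s ≤ n := by omega
  -- centers
  set cc : ℂ → ℂ := fun z => if 1 / (σ.Q n : ℝ) ≤ ‖z‖ ∧ ‖z‖ ≤ 2 then z else 1 with hcc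
  have hQ1 : (1 : ℝ) ≤ σ.Q n := by exact_mod_cast (show 1 ≤ σ.Q n by omega)
  have hccn : ∀ z, 1 / (σ.Q n : ℝ) ≤ ‖cc z‖ ∧ ‖cc z‖ ≤ 2 := by
    intro z
    simp only [hcc]
    split_ifs with h
    · exact h
    · rw [norm_one]
      refine ⟨?_, by norm_num⟩
      rw [div_le_one hQpos]
      exact hQ1
  set c : ℕ → ℂ := fun m => if h : m < k then cc ((g ⟨m, h⟩).symm 0) else
    if h : m - k < k then cc (g ⟨m - k, h⟩ 0) else cc 1 with hc
  have hcn' : ∀ m, 1 / (σ.Q n : ℝ) ≤ ‖c m‖ ∧ ‖c m‖ ≤ 2 := by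
    intro m
    simp only [hc]
    split_ifs
    · exact hccn _
    · exact hccn _
    · exact hccn _
  set e : ℕ → ℂ := fun i => if i < (σ.l n).q1 then
      E (Phi α (Pv (σ.l n).q1 (σ.l n).q2 (8 ^ s : ℕ) i 0))
    else E (Phi α (Pv (σ.l n).q1 (σ.l n).q2 (8 ^ s : ℕ) 0 ((i - (σ.l n).q1 : ℕ) : ℤ))) with he
  have hen : ∀ i, ‖e i‖ = 1 := by
    intro i
    simp only [he]
    split_ifs <;> exact E_norm _
  obtain ⟨j, hj, hspec⟩ := (σ.H n).spec c e hcn' hen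
  -- hole claim
  have hole : ∀ z : ℂ, (σ.H n).σ j ≤ ‖z‖ ^ 2 → ‖z‖ ^ 2 ≤ (σ.H n).σ j + (σ.H n).δ →
      angl z ∈ SA σ n s ∪ SB σ n s → ∀ m < σ.Q n, ‖z - c m‖ ^ 2 ∈ (σ.H n).H := by
    intro z hz1 hz2 hz3 m hm
    have hv : ∃ v ∈ VV (σ.l n), pos (σ.l n) (8 ^ s) v = angl z := by
      rcases hz3 with ⟨v, hv, h⟩ | ⟨v, hv, h⟩
      · exact ⟨v, VA_sub _ hv, h⟩
      · exact ⟨v, VB_sub _ hv, h⟩
    obtain ⟨v, hv, hvz⟩ := hv
    obtain ⟨i, hi, hnear⟩ := near_center (σ.l n) (8 ^ s) hv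
    refine hspec m hm i hi z hz1 hz2 ?_
    have h1 := hnear ‖z‖ (norm_nonneg z)
    rw [hvz, E_angl] at h1
    have h2 : ‖z‖ • e i = (‖z‖ : ℂ) * e i := by
      rw [Complex.real_smul]
    rw [h2]
    refine h1.trans ?_
    exact mul_le_mul_of_nonneg_right (σ.hw n).le (norm_nonneg z)
  have hole1 : ∀ z : ℂ, (σ.H n).σ j ≤ ‖z‖ ^ 2 → ‖z‖ ^ 2 ≤ (σ.H n).σ j + (σ.H n).δ →
      angl z ∈ SA σ n s ∪ SB σ n s → ‖z‖ < 1 → ∀ a : ℂ, (∃ m < σ.Q n, c m = cc a) →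
      1 / (σ.Q n : ℝ) ≤ ‖a‖ → ‖z - a‖ < 1 → ‖z - a‖ ^ 2 ∈ (σ.H n).H := by
    rintro z hz1 hz2 hz3 hz4 a ⟨m, hm, hma⟩ ha1 ha2
    have ha3 : ‖a‖ ≤ 2 := by
      have := norm_sub_norm_le a z
      rw [norm_sub_rev] at this
      linarith
    have hcca : cc a = a := by
      simp only [hcc]
      rw [if_pos ⟨ha1, ha3⟩]
    have := hole z hz1 hz2 hz3 m hm
    rwa [hma, hcca] at this
  have hm1 : ∀ i : Fin k, ∃ m < σ.Q n, c m = cc ((g i).symm 0) := by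
    intro i
    refine ⟨i, by omega, ?_⟩
    simp only [hc, i.2, dif_pos]
  have hm2 : ∀ i : Fin k, ∃ m < σ.Q n, c m = cc (g i 0) := by
    intro i
    refine ⟨i + k, by omega, ?_⟩
    have h1 : ¬ ((i : ℕ) + k < k) := by omega
    have h2 : (i : ℕ) + k - k = i := by omega
    simp only [hc, h1, dif_neg, not_false_eq_true, h2, i.2, dif_pos]
  -- a good point
  obtain ⟨z0, ⟨⟨hz1, hz2⟩, hz3⟩, hz4⟩ : ∃ z0 ∈ {z : ℂ | ((σ.H n).σ j ≤ ‖z‖ ^ 2 ∧
      ‖z‖ ^ 2 ≤ (σ.H n).σ j + (σ.H n).δ) ∧ ‖z‖ ^ 2 ∈ σ.Y n s},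
      ∀ i, NullMeasurableSet {x : ℝ | E (x : UnitAddCircle) * z0 ∈ P i} volume := by
    have hae : ∀ᵐ z : ℂ, ∀ i, NullMeasurableSet {x : ℝ | E (x : UnitAddCircle) * z ∈ P i} volume :=
      ae_all_iff.2 fun i => ae_section (P i) (hm i)
    by_contra hcon
    push Not at hcon
    apply good_area σ n s j hsn hj
    refine measure_mono_null ?_ (mem_ae_iff.1 hae)
    intro z hz hz'
    obtain ⟨i, hi⟩ := hcon z hz
    exact hi (hz' i)
  set r : ℝ := ‖z0‖ with hr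
  have hr0 : 0 < r := by
    have h1 := σ.Y_pos hsn hz3
    have h2 : 0 ≤ r := norm_nonneg z0
    by_contra hcon
    have h3 : r = 0 := le_antisymm (not_lt.1 hcon) h2
    rw [h3] at h1
    norm_num at h1
  have hr1 : r < 1 := by
    have := σ.Y_lt_one hsn hz3
    by_contra hcon
    push Not at hcon
    nlinarith
  have hnr : ∀ θ, ‖(r : ℂ) * E θ‖ = r := fun θ => norm_rE hr0.le θ
  have hYr : ∀ θ, ‖(r : ℂ) * E θ‖ ^ 2 ∈ σ.Y n s := fun θ => by rw [hnr]; exact hz3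
  have memA : ∀ θ, (r : ℂ) * E θ ∈ σ.plane (SA σ) ↔ θ ∈ SA σ n s := fun θ => by
    rw [σ.mem_plane_iff _ hsn (hYr θ), angl_rE hr0]
  have memB : ∀ θ, (r : ℂ) * E θ ∈ σ.plane (SB σ) ↔ θ ∈ SB σ n s := fun θ => by
    rw [σ.mem_plane_iff _ hsn (hYr θ), angl_rE hr0]
  -- forward and backward use of the holes
  have fix1 : ∀ i θ, (r : ℂ) * E θ ∈ P i → g i 0 = 0 := by
    intro i θ hθ
    by_contra hne
    have hA : (r : ℂ) * E θ ∈ σ.plane (SA σ) := by rw [← hU]; exact mem_iUnion.2 ⟨i, hθ⟩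
    have hB : g i ((r : ℂ) * E θ) ∈ σ.plane (SB σ) := by
      rw [← hU']; exact mem_iUnion.2 ⟨i, _, hθ, rfl⟩
    have h1 := (σ.plane_norm _ hB).2
    have h2 := σ.plane_notH _ hB n
    rw [iso_norm] at h1 h2
    refine h2 (hole1 _ (by rw [hnr]; exact hz1) (by rw [hnr]; exact hz2) ?_
      (by rw [hnr]; exact hr1) _ (hm1 i) ?_ h1)
    · rw [angl_rE hr0]
      exact Or.inl ((memA θ).1 hA)
    · rw [hsymm]
      exact hcn i hne
  have fix2 : ∀ i θ, (r : ℂ) * E θ ∈ (g i) '' (P i) → g i 0 = 0 := by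
    rintro i θ ⟨w, hw, hwθ⟩
    by_contra hne
    have hA : w ∈ σ.plane (SA σ) := by rw [← hU]; exact mem_iUnion.2 ⟨i, hw⟩
    have hB : (r : ℂ) * E θ ∈ σ.plane (SB σ) := by
      rw [← hU']; exact mem_iUnion.2 ⟨i, w, hw, hwθ⟩
    have h1 := (σ.plane_norm _ hA).2
    have h2 := σ.plane_notH _ hA n
    have hwe : w = (g i).symm ((r : ℂ) * E θ) := by rw [← hwθ, (g i).symm_apply_apply]
    rw [hwe, iso_norm, (g i).symm_symm] at h1 h2
    refine h2 (hole1 _ (by rw [hnr]; exact hz1) (by rw [hnr]; exact hz2) ?_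
      (by rw [hnr]; exact hr1) _ (hm2 i) (hcn i hne) h1)
    rw [angl_rE hr0]
    exact Or.inr ((memB θ).1 hB)
  have himg : ∀ i, gact (ε i) (t i) '' {θ | (r : ℂ) * E θ ∈ P i} =
      {θ | (r : ℂ) * E θ ∈ (g i) '' (P i)} := by
    intro i
    ext θ'
    constructor
    · rintro ⟨θ, hθ, rfl⟩
      have h0 := fix1 i θ hθ
      exact ⟨_, hθ, hεt i h0 r θ⟩
    · intro hθ'
      have h0 := fix2 i θ' hθ'
      obtain ⟨w, hw, hwθ⟩ := hθ'
      have hwn : ‖w‖ = r := by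
        have := iso_norm (g i) w
        have h3 : (g i).symm 0 = 0 := by
          have h4 := hsymm i
          rw [h0, norm_zero] at h4
          exact norm_eq_zero.1 h4
        rw [hwθ, hnr, h3, sub_zero] at this
        exact this.symm
      have hw2 : w = (r : ℂ) * E (angl w) := by
        rw [← hwn]
        exact (E_angl w).symm
      refine ⟨angl w, ?_, ?_⟩
      · show (r : ℂ) * E (angl w) ∈ P i
        rw [← hw2]
        exact hw
      · have h5 := hεt i h0 r (angl w)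
        rw [← hw2, hwθ] at h5
        have hne : (r : ℂ) ≠ 0 := by exact_mod_cast hr0.ne'
        exact (E_inj (mul_left_cancel₀ hne h5)).symm
  refine hempty.false ⟨fun i => {θ | (r : ℂ) * E θ ∈ P i}, ?_, ?_, ?_, ?_, ?_⟩
  · intro i
    -- section measurability
    obtain ⟨x0, hx0⟩ := QuotientAddGroup.mk_surjective (angl z0)
    have hx0' : ((x0 : ℝ) : UnitAddCircle) = angl z0 := hx0
    have e1 : {x : ℝ | (x : UnitAddCircle) ∈ {θ | (r : ℂ) * E θ ∈ P i}} =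
        (fun x => -x0 + x) ⁻¹' {x : ℝ | E (x : UnitAddCircle) * z0 ∈ P i} := by
      ext x
      simp only [mem_setOf_eq, mem_preimage]
      have : E ((-x0 + x : ℝ) : UnitAddCircle) * z0 = (r : ℂ) * E (x : UnitAddCircle) := by
        rw [AddCircle.coe_add, AddCircle.coe_neg, hx0']
        nth_rewrite 2 [← E_angl z0]
        rw [mul_left_comm, ← E_add]
        congr 2
        abel
      rw [this]
    rw [e1]
    exact (hz4 i).preimage (measurePreserving_add_left volume (-x0)).quasiMeasurePreserving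
  · ext θ
    rw [mem_iUnion]
    constructor
    · rintro ⟨i, hi⟩
      exact (memA θ).1 (by rw [← hU]; exact mem_iUnion.2 ⟨i, hi⟩)
    · intro hθ
      have := (memA θ).2 hθ
      rw [← hU, mem_iUnion] at this
      exact this
  · intro i i' hne
    rw [Set.disjoint_left]
    intro θ h1 h2
    exact Set.disjoint_left.1 (hD hne) h1 h2
  · ext θ
    rw [mem_iUnion]
    constructor
    · rintro ⟨i, hi⟩
      rw [himg] at hi
      exact (memB θ).1 (by rw [← hU']; exact mem_iUnion.2 ⟨i, hi⟩)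
    · intro hθ
      have := (memB θ).2 hθ
      rw [← hU', mem_iUnion] at this
      obtain ⟨i, hi⟩ := this
      refine ⟨i, ?_⟩
      rw [himg]
      exact hi
  · intro i i' hne
    rw [himg, himg, Set.disjoint_left]
    intro θ h1 h2
    exact Set.disjoint_left.1 (hD' hne) h1 h2

end Pool.Agent.Helper46.Gardner
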