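import Pool.Agent.Helper46.Gardner.Loop

open MeasureTheory Set Filter Topology

namespace Pool.Agent.Helper46.Gardner

/-- Vertex indices. -/
def VJ (q1 q2 j1 j2 : ℕ) : Prop := j1 < q1 ∧ j2 < q2 ∧ (j1 = 0 ∨ j2 = 0)

lemma InL_sub_self_of_eq {q1 q2 : ℕ} {u u' : Fin 7 → ℤ} (h : InL q1 q2 (u - u')) :
    (∃ k : ℤ, u' 0 = u 0 + k * q1) ∧ (∃ k : ℤ, u' 1 = u 1 + k * q2) ∧ u' 2 = u 2 ∧ u' 3 = u 3 ∧
      u' 4 = u 4 ∧ u' 5 = u 5 ∧ u' 6 = u 6 := by
  obtain ⟨⟨k1, h1⟩, ⟨k2, h2⟩, h3⟩ := h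
  simp only [Pi.sub_apply] at h1 h2 h3
  have e2 := h3 2 (by decide) (by decide)
  have e3 := h3 3 (by decide) (by decide)
  have e4 := h3 4 (by decide) (by decide)
  have e5 := h3 5 (by decide) (by decide)
  have e6 := h3 6 (by decide) (by decide)
  refine ⟨⟨-k1, by linarith⟩, ⟨-k2, by linarith⟩, ?_, ?_, ?_, ?_, ?_⟩ <;> omega

/-- Separation of differences for two slopes. -/
lemma sepU (q1 q2 b b' : ℕ) (hb : 1 ≤ b) (hbb : 8 * b ≤ b') (j1 j2 j1' j2' i1 i2 i1' i2' : ℕ)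
    (hj : VJ q1 q2 j1 j2) (hj' : VJ q1 q2 j1' j2') (hi : VJ q1 q2 i1 i2) (hi' : VJ q1 q2 i1' i2')
    (h : InL q1 q2 ((Pv q1 q2 b j1' j2' - Pv q1 q2 b j1 j2) -
      (Pv q1 q2 b' i1' i2' - Pv q1 q2 b' i1 i2))) :
    ∃ u : Fin 7 → ℤ, (∀ i, |u i| ≤ 18 * b) ∧
      InL q1 q2 (Pv q1 q2 b j1' j2' - Pv q1 q2 b j1 j2 - u) := by
  obtain ⟨⟨m1, h0⟩, ⟨m2, h1⟩, h2, h3, h4, h5, h6⟩ := InL_sub_self_of_eq h
  simp only [Pv, Pi.sub_apply, Matrix.cons_val_zero, Matrix.cons_val_one, Matrix.cons_val] at h0 h1 h2 h3 h4 h5 h6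
  obtain ⟨hj1, hj2, -⟩ := hj
  obtain ⟨hj1', hj2', -⟩ := hj'
  obtain ⟨hi1, hi2, -⟩ := hi
  obtain ⟨hi1', hi2', -⟩ := hi'
  have hbZ : (1 : ℤ) ≤ b := by exact_mod_cast hb
  have hbbZ : (8 : ℤ) * b ≤ b' := by exact_mod_cast hbb
  have hb'Z : (1 : ℤ) ≤ b' := by linarith
  obtain ⟨c1, k1, e1, l1⟩ := single_lower q1 b j1 j1' hbZ (by omega) (by omega) (by omega) (by omega)
  obtain ⟨c2, k2, e2, l2⟩ := single_lower q2 b j2 j2' hbZ (by omega) (by omega) (by omega) (by omega)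
  obtain ⟨u1, u2, -⟩ := single_upper q1 b' i1 i1' c1 (k1 + m1) hb'Z (by omega) (by omega) (by omega)
    (by omega) (by rw [h0, e1]; ring)
  obtain ⟨u3, u4, -⟩ := single_upper q2 b' i2 i2' c2 (k2 + m2) hb'Z (by omega) (by omega) (by omega)
    (by omega) (by rw [h1, e2]; ring)
  obtain ⟨-, -, w1⟩ := single_upper q1 b j1 j1' c1 k1 hbZ (by omega) (by omega) (by omega)
    (by omega) e1
  obtain ⟨-, -, w2⟩ := single_upper q2 b j2 j2' c2 k2 hbZ (by omega) (by omega) (by omega)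
    (by omega) e2
  rw [h2] at u1
  rw [h3] at u2
  rw [h4] at u3
  rw [h5] at u4
  set A1 := |y1f q1 b j1' - y1f q1 b j1| with hA1
  set A2 := |y2f q1 b j1' - y2f q1 b j1| with hA2
  set A3 := |y1f q2 b j2' - y1f q2 b j2| with hA3
  set A4 := |y2f q2 b j2' - y2f q2 b j2| with hA4
  have p1 : 0 ≤ A1 := abs_nonneg _
  have p2 : 0 ≤ A2 := abs_nonneg _
  have p3 : 0 ≤ A3 := abs_nonneg _
  have p4 : 0 ≤ A4 := abs_nonneg _
  set Nn := A1 + A2 + A3 + A4 with hN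
  have t1 : (b' : ℤ) * Nn ≤ 2 * (|c1| + |c2|) + 4 * b' := by
    have : (b' : ℤ) * Nn = b' * A1 + b' * A2 + b' * A3 + b' * A4 := by rw [hN]; ring
    linarith
  have t2 : |c1| + |c2| ≤ b * Nn + 4 * b + 6 := by
    have : (b : ℤ) * Nn = b * A1 + b * A2 + b * A3 + b * A4 := by rw [hN]; ring
    linarith
  have hN8 : Nn ≤ 8 := by
    by_contra hcon
    push Not at hcon
    have h9 : (9 : ℤ) ≤ Nn := hcon
    have t3 : ((b' : ℤ) - 2 * b) * Nn ≤ 8 * b + 12 + 4 * b' := by nlinarith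
    have t4 : ((b' : ℤ) - 2 * b) * 9 ≤ (b' - 2 * b) * Nn :=
      mul_le_mul_of_nonneg_left h9 (by linarith)
    linarith
  have hbN : (b : ℤ) * Nn ≤ b * 8 := mul_le_mul_of_nonneg_left hN8 (by linarith)
  have hc : |c1| + |c2| ≤ 18 * b := by linarith
  have hc1 : 0 ≤ |c1| := abs_nonneg _
  have hc2 : 0 ≤ |c2| := abs_nonneg _
  refine ⟨![c1, c2, y1f q1 b j1' - y1f q1 b j1, y2f q1 b j1' - y2f q1 b j1,
    y1f q2 b j2' - y1f q2 b j2, y2f q2 b j2' - y2f q2 b j2,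
    (zf q1 j1' + zf q2 j2') - (zf q1 j1 + zf q2 j2)], ?_, ?_⟩
  · intro i
    fin_cases i
    · show |c1| ≤ _
      linarith
    · show |c2| ≤ _
      linarith
    · show A1 ≤ _
      linarith
    · show A2 ≤ _
      linarith
    · show A3 ≤ _
      linarith
    · show A4 ≤ _
      linarith
    · show |(zf q1 j1' + zf q2 j2') - (zf q1 j1 + zf q2 j2)| ≤ _
      have e : (zf q1 j1' + zf q2 j2') - (zf q1 j1 + zf q2 j2) =
        (zf q1 j1' - zf q1 j1) + (zf q2 j2' - zf q2 j2) := by ring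
      rw [e]
      refine (abs_add_le _ _).trans ?_
      linarith
  · refine ⟨⟨k1, ?_⟩, ⟨k2, ?_⟩, ?_⟩
    · simp only [Pv, Pi.sub_apply, Matrix.cons_val_zero]
      linarith
    · simp only [Pv, Pi.sub_apply, Matrix.cons_val_one, Matrix.cons_val_zero]
      linarith
    · intro i hi0 hi1
      fin_cases i <;> simp_all [Pv]

/-- Separation of sums for two slopes. -/
lemma sepV (q1 q2 b b' : ℕ) (hb : 1 ≤ b) (hbb : 8 * b ≤ b') (j1 j2 j1' j2' i1 i2 i1' i2' : ℕ)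
    (hj : VJ q1 q2 j1 j2) (hj' : VJ q1 q2 j1' j2') (hi : VJ q1 q2 i1 i2) (hi' : VJ q1 q2 i1' i2')
    (h : InL q1 q2 ((Pv q1 q2 b j1' j2' + Pv q1 q2 b j1 j2) -
      (Pv q1 q2 b' i1' i2' + Pv q1 q2 b' i1 i2))) :
    ∃ u : Fin 7 → ℤ, (∀ i, |u i| ≤ 18 * b) ∧
      InL q1 q2 (Pv q1 q2 b j1' j2' + Pv q1 q2 b j1 j2 - u) := by
  obtain ⟨-, -, h2, h3, h4, h5, h6⟩ := InL_sub_self_of_eq h
  simp only [Pv, Pi.add_apply, Matrix.cons_val] at h2 h3 h4 h5 h6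
  obtain ⟨hj1, hj2, -⟩ := hj
  obtain ⟨hj1', hj2', -⟩ := hj'
  obtain ⟨hi1, hi2, -⟩ := hi
  obtain ⟨hi1', hi2', -⟩ := hi'
  have hbZ : (1 : ℤ) ≤ b := by exact_mod_cast hb
  have hbbZ : (8 : ℤ) * b ≤ b' := by exact_mod_cast hbb
  have hb'Z : (1 : ℤ) ≤ b' := by linarith
  obtain ⟨a1, a2, a3⟩ := y1f_bounds q1 b j1 hbZ (by omega) (by omega)
  obtain ⟨a4, a5, a6⟩ := y1f_bounds q1 b j1' hbZ (by omega) (by omega)
  obtain ⟨a7, a8, a9⟩ := y1f_bounds q2 b j2 hbZ (by omega) (by omega)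
  obtain ⟨a10, a11, a12⟩ := y1f_bounds q2 b j2' hbZ (by omega) (by omega)
  obtain ⟨c1, c2, -⟩ := y1f_bounds q1 b' i1 hb'Z (by omega) (by omega)
  obtain ⟨c4, c5, -⟩ := y1f_bounds q1 b' i1' hb'Z (by omega) (by omega)
  obtain ⟨c7, c8, -⟩ := y1f_bounds q2 b' i2 hb'Z (by omega) (by omega)
  obtain ⟨c10, c11, -⟩ := y1f_bounds q2 b' i2' hb'Z (by omega) (by omega)
  set S := (y1f q1 b j1' + y1f q1 b j1) + (y1f q2 b j2' + y1f q2 b j2) with hS
  set Zs := zf q1 j1' + zf q2 j2' + (zf q1 j1 + zf q2 j2) with hZs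
  have t1 : (b' : ℤ) * S ≤ Zs := by
    have e : S = (y1f q1 b' i1' + y1f q1 b' i1) + (y1f q2 b' i2' + y1f q2 b' i2) := by
      rw [hS]; linarith
    rw [e]
    have : (b' : ℤ) * (y1f q1 b' i1' + y1f q1 b' i1 + (y1f q2 b' i2' + y1f q2 b' i2)) =
      b' * y1f q1 b' i1' + b' * y1f q1 b' i1 + (b' * y1f q2 b' i2' + b' * y1f q2 b' i2) := by ring
    rw [this]
    linarith
  have t2 : Zs ≤ b * S + 4 * (b - 1) := by
    have : (b : ℤ) * S = b * y1f q1 b j1' + b * y1f q1 b j1 + (b * y1f q2 b j2' + b * y1f q2 b j2) := by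
      rw [hS]; ring
    rw [this]
    linarith
  have hS0 : S = 0 := by
    have hSn : 0 ≤ S := by rw [hS]; linarith
    by_contra hne
    have h9 : 1 ≤ S := by omega
    have t3 : ((b' : ℤ) - b) * S ≤ 4 * (b - 1) := by nlinarith
    have t4 : ((b' : ℤ) - b) * 1 ≤ (b' - b) * S :=
      mul_le_mul_of_nonneg_left h9 (by linarith)
    linarith
  have hZ4 : Zs ≤ 4 * (b - 1) := by rw [hS0] at t2; linarith
  obtain ⟨z1, -⟩ := zf_bounds q1 j1 (by omega) (by omega)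
  obtain ⟨z2, -⟩ := zf_bounds q1 j1' (by omega) (by omega)
  obtain ⟨z3, -⟩ := zf_bounds q2 j2 (by omega) (by omega)
  obtain ⟨z4, -⟩ := zf_bounds q2 j2' (by omega) (by omega)
  have rep : ∀ q j : ℤ, 0 ≤ j → j ≤ q → ∃ c k : ℤ, j = c + k * q ∧ |c| = zf q j := by
    intro q j h0 hq
    rcases le_total j (q - j) with h | h
    · exact ⟨j, 0, by ring, by unfold zf; rw [abs_of_nonneg h0, min_eq_left h]⟩
    · refine ⟨j - q, 1, by ring, ?_⟩
      unfold zf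
      rw [abs_of_nonpos (by omega), min_eq_right h]
      ring
  obtain ⟨d1, k1, r1, s1⟩ := rep q1 j1 (by omega) (by omega)
  obtain ⟨d2, k2, r2, s2⟩ := rep q1 j1' (by omega) (by omega)
  obtain ⟨d3, k3, r3, s3⟩ := rep q2 j2 (by omega) (by omega)
  obtain ⟨d4, k4, r4, s4⟩ := rep q2 j2' (by omega) (by omega)
  have y2b : ∀ q j : ℤ, 0 ≤ j → j ≤ q → zf q j ≤ 4 * (b - 1) → |y2f q b j| ≤ 5 := by
    intro q j h0 hq hz
    have h7 := y2f_le' q b j hbZ h0 hq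
    by_contra hcon
    push Not at hcon
    have h8 : (6 : ℤ) ≤ |y2f q b j| := hcon
    have h9 : (b : ℤ) * 6 ≤ b * |y2f q b j| := mul_le_mul_of_nonneg_left h8 (by linarith)
    linarith
  have v1 := y2b q1 j1 (by omega) (by omega) (by linarith)
  have v2 := y2b q1 j1' (by omega) (by omega) (by linarith)
  have v3 := y2b q2 j2 (by omega) (by omega) (by linarith)
  have v4 := y2b q2 j2' (by omega) (by omega) (by linarith)
  refine ⟨![d2 + d1, d4 + d3, y1f q1 b j1' + y1f q1 b j1, y2f q1 b j1' + y2f q1 b j1,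
    y1f q2 b j2' + y1f q2 b j2, y2f q2 b j2' + y2f q2 b j2, Zs], ?_, ?_⟩
  · intro i
    fin_cases i
    · show |d2 + d1| ≤ _
      refine (abs_add_le _ _).trans ?_
      linarith
    · show |d4 + d3| ≤ _
      refine (abs_add_le _ _).trans ?_
      linarith
    · show |y1f q1 b j1' + y1f q1 b j1| ≤ _
      rw [abs_of_nonneg (by linarith)]
      linarith
    · show |y2f q1 b j1' + y2f q1 b j1| ≤ _
      refine (abs_add_le _ _).trans ?_
      linarith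
    · show |y1f q2 b j2' + y1f q2 b j2| ≤ _
      rw [abs_of_nonneg (by linarith)]
      linarith
    · show |y2f q2 b j2' + y2f q2 b j2| ≤ _
      refine (abs_add_le _ _).trans ?_
      linarith
    · show |Zs| ≤ _
      rw [abs_of_nonneg (by rw [hZs]; linarith)]
      linarith
  · refine ⟨⟨k2 + k1, ?_⟩, ⟨k4 + k3, ?_⟩, ?_⟩
    · simp only [Pv, Pi.sub_apply, Pi.add_apply, Matrix.cons_val_zero]
      linear_combination r1 + r2
    · simp only [Pv, Pi.sub_apply, Pi.add_apply, Matrix.cons_val_one, Matrix.cons_val_zero]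
      linear_combination r3 + r4
    · intro i hi0 hi1
      fin_cases i <;> simp_all [Pv]

end Pool.Agent.Helper46.Gardner
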