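import Pool.Agent.Helper46.Gardner.Exact

open MeasureTheory Set Filter Topology

namespace Pool.Agent.Helper46.Gardner

variable {α : Fin 7 → UnitAddCircle}

/-- Exceptional points. -/
def N0 (l : Lev α) : Set ℝ := {x | ∃ m n : ℤ, 2 * x = m * l.τ + n * l.L}

lemma N0_neg (l : Lev α) (x : ℝ) : -x ∈ N0 l ↔ x ∈ N0 l := by
  constructor
  · rintro ⟨m, n, h⟩
    exact ⟨-m, -n, by push_cast; linarith⟩
  · rintro ⟨m, n, h⟩
    exact ⟨-m, -n, by push_cast; linarith⟩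

lemma N0_add (l : Lev α) (x : ℝ) (k1 k2 : ℤ) : x + k1 * l.τ + k2 * l.L ∈ N0 l ↔ x ∈ N0 l := by
  constructor
  · rintro ⟨m, n, h⟩
    exact ⟨m - 2 * k1, n - 2 * k2, by push_cast; linarith⟩
  · rintro ⟨m, n, h⟩
    exact ⟨m + 2 * k1, n + 2 * k2, by push_cast; linarith⟩

/-- Base interval on the first side. -/
def X1 (l : Lev α) : Set ℝ := {x | l.τ / 2 < x ∧ x < (l.L + l.τ) / 2 ∧ x ∉ N0 l}

/-- Interval of the second loop. -/
def X2 (l : Lev α) : Set ℝ := {x | l.L / 2 < x ∧ x < (l.L + l.τ) / 2 ∧ x ∉ N0 l}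

/-- Base interval on the second side. -/
def B0 (l : Lev α) : Set ℝ := {x | 0 < x ∧ x < l.L / 2 ∧ x ∉ N0 l}

/-- Vertices on the first side. -/
def VA (l : Lev α) : Set (ℕ × ℕ × ℝ) :=
  {v | (v.2.1 = 0 ∧ v.1 < l.q1 ∧ v.2.2 ∈ X1 l) ∨
    (v.1 = 0 ∧ 1 ≤ v.2.1 ∧ v.2.1 < l.q2 ∧ v.2.2 ∈ X2 l)}

/-- Vertices on the second side. -/
def VB (l : Lev α) : Set (ℕ × ℕ × ℝ) :=
  {v | (v.2.1 = 0 ∧ 1 ≤ v.1 ∧ v.1 < l.q1 ∧ v.2.2 ∈ X1 l) ∨
    (v.1 = 0 ∧ 1 ≤ v.2.1 ∧ v.2.1 < l.q2 ∧ v.2.2 ∈ X2 l) ∨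
    (v.1 = 0 ∧ v.2.1 = 0 ∧ v.2.2 ∈ B0 l)}

/-- All vertices. -/
def VV (l : Lev α) : Set (ℕ × ℕ × ℝ) :=
  {v | VJ l.q1 l.q2 v.1 v.2.1 ∧ 0 < v.2.2 ∧ v.2.2 < l.L}

lemma VA_sub (l : Lev α) : VA l ⊆ VV l := by
  rintro ⟨j1, j2, x⟩ h
  have := l.hτ
  have := l.hτL
  have := l.hq1
  have := l.hq2
  rcases h with ⟨h1, h2, h3, h4, -⟩ | ⟨h1, h2, h3, h4, h5, -⟩
  · simp only at h1 h2 h3 h4
    exact ⟨⟨h2, by show j2 < _; omega, Or.inr h1⟩, by show 0 < x; linarith, by show x < _; linarith⟩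
  · simp only at h1 h2 h3 h4 h5
    exact ⟨⟨by show j1 < _; omega, h3, Or.inl h1⟩, by show 0 < x; linarith, by show x < _; linarith⟩

lemma VB_sub (l : Lev α) : VB l ⊆ VV l := by
  rintro ⟨j1, j2, x⟩ h
  have := l.hτ
  have := l.hτL
  have := l.hq1
  have := l.hq2
  rcases h with ⟨h1, h2, h3, h4, h5, -⟩ | ⟨h1, h2, h3, h4, h5, -⟩ | ⟨h1, h2, h3, h4, -⟩
  · simp only at h1 h2 h3 h4 h5
    exact ⟨⟨h3, by show j2 < _; omega, Or.inr h1⟩, by show 0 < x; linarith, by show x < _; linarith⟩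
  · simp only at h1 h2 h3 h4 h5
    exact ⟨⟨by show j1 < _; omega, h3, Or.inl h1⟩, by show 0 < x; linarith, by show x < _; linarith⟩
  · simp only at h1 h2 h3 h4
    exact ⟨⟨by show j1 < _; omega, by show j2 < _; omega, Or.inl h1⟩, by show 0 < x; linarith,
      by show x < _; linarith⟩

/-- Position of a vertex. -/
noncomputable def pos (l : Lev α) (b : ℕ) (v : ℕ × ℕ × ℝ) : UnitAddCircle :=
  Phi α (Pv l.q1 l.q2 b v.1 v.2.1) + ((v.2.2 : ℝ) : UnitAddCircle)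

lemma L_pos (l : Lev α) : 0 < l.L := by
  have := l.hτ
  have := l.hτL
  linarith

lemma L_small (l : Lev α) : l.L < 1 / 1000 := by
  have h1 := l.hL
  have h2 : (2 : ℝ) ≤ l.q1 := by exact_mod_cast l.hq1
  have h3 : (2 : ℝ) ≤ l.q2 := by exact_mod_cast l.hq2
  have h4 := L_pos l
  nlinarith

lemma VJ_bound (l : Lev α) {b : ℕ} (hb : 1 ≤ b) {j1 j2 : ℕ} (hj : VJ l.q1 l.q2 j1 j2) (i : Fin 7) :
    |Pv l.q1 l.q2 b j1 j2 i| ≤ l.q1 + l.q2 := by
  obtain ⟨h1, h2, -⟩ := hj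
  have := l.hq1
  have := l.hq2
  exact Pv_bound _ _ _ _ _ (by exact_mod_cast hb) (by omega) (by omega) (by omega) (by omega)
    (by omega) (by omega) i

lemma pos_inj (l : Lev α) {b : ℕ} (hb : 1 ≤ b) : InjOn (pos l b) (VV l) := by
  rintro ⟨j1, j2, x⟩ ⟨hj, hx0, hxL⟩ ⟨j1', j2', x'⟩ ⟨hj', hx0', hxL'⟩ h
  simp only at hx0 hxL hx0' hxL' hj hj'
  unfold pos at h
  simp only at h
  have hL := L_pos l
  have hL1 := L_small l
  have e : Phi α (Pv l.q1 l.q2 b j1 j2 - Pv l.q1 l.q2 b j1' j2') = ((x' - x : ℝ) : UnitAddCircle) := by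
    rw [Phi_sub, AddCircle.coe_sub]
    rw [sub_eq_sub_iff_add_eq_add, h, add_comm]
  have hin : InL l.q1 l.q2 (Pv l.q1 l.q2 b j1 j2 - Pv l.q1 l.q2 b j1' j2') := by
    apply l.sep
    · intro i
      have h1 := VJ_bound l hb hj i
      have h2 := VJ_bound l hb hj' i
      simp only [Pi.sub_apply]
      refine (abs_sub _ _).trans ?_
      omega
    · rw [e]
      refine (norm_coe_le _).trans ?_
      rw [abs_le]
      constructor <;> linarith
  obtain ⟨⟨k1, h1⟩, ⟨k2, h2⟩, -⟩ := hin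
  have h1' : (j1 : ℤ) - j1' = k1 * l.q1 := by simpa [Pv] using h1
  have h2' : (j2 : ℤ) - j2' = k2 * l.q2 := by simpa [Pv] using h2
  obtain ⟨a1, a2, -⟩ := hj
  obtain ⟨a1', a2', -⟩ := hj'
  have K1 := small_mul (by have := l.hq1; omega) h1' (by omega) (by omega)
  have K2 := small_mul (by have := l.hq2; omega) h2' (by omega) (by omega)
  subst K1
  subst K2
  have e1 : j1 = j1' := by omega
  have e2 : j2 = j2' := by omega
  subst e1
  subst e2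
  have h3 : (x : UnitAddCircle) = (x' : UnitAddCircle) := add_left_cancel h
  have h4 := coe_inj_small (by rw [abs_lt]; constructor <;> linarith) h3
  rw [h4]

/-- Orientations. -/
structure Orient (l : Lev α) where
  o : ℝ → Prop
  hτ : ∀ x, o (x + l.τ) ↔ o x
  hL : ∀ x, o (x + l.L) ↔ o x
  hneg : ∀ x, x ∉ N0 l → (o (-x) ↔ ¬ o x)

lemma exists_orient (l : Lev α) : Nonempty (Orient l) := by
  classical
  let H : AddSubgroup ℝ := AddSubgroup.closure {l.τ, l.L}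
  have hmemH : ∀ y ∈ H, ∃ m n : ℤ, y = m * l.τ + n * l.L := by
    intro y hy
    rw [AddSubgroup.mem_closure_pair] at hy
    obtain ⟨m, n, h⟩ := hy
    exact ⟨m, n, by rw [← h, zsmul_eq_mul, zsmul_eq_mul]⟩
  have hτH : l.τ ∈ H := AddSubgroup.subset_closure (by simp)
  have hLH : l.L ∈ H := AddSubgroup.subset_closure (by simp)
  let mk : ℝ → ℝ ⧸ H := fun x => (x : ℝ ⧸ H)
  let r : ℝ ⧸ H → ℝ ⧸ H → Prop := WellOrderingRel
  refine ⟨⟨fun x => r (mk x) (mk (-x)), ?_, ?_, ?_⟩⟩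
  · intro x
    have e1 : mk (x + l.τ) = mk x := by
      show ((x + l.τ : ℝ) : ℝ ⧸ H) = x
      rw [QuotientAddGroup.eq]
      have : -(x + l.τ) + x = -l.τ := by ring
      rw [this]
      exact H.neg_mem hτH
    have e2 : mk (-(x + l.τ)) = mk (-x) := by
      show ((-(x + l.τ) : ℝ) : ℝ ⧸ H) = ((-x : ℝ) : ℝ ⧸ H)
      rw [QuotientAddGroup.eq]
      have : -(-(x + l.τ)) + -x = l.τ := by ring
      rw [this]
      exact hτH
    rw [e1, e2]
  · intro x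
    have e1 : mk (x + l.L) = mk x := by
      show ((x + l.L : ℝ) : ℝ ⧸ H) = x
      rw [QuotientAddGroup.eq]
      have : -(x + l.L) + x = -l.L := by ring
      rw [this]
      exact H.neg_mem hLH
    have e2 : mk (-(x + l.L)) = mk (-x) := by
      show ((-(x + l.L) : ℝ) : ℝ ⧸ H) = ((-x : ℝ) : ℝ ⧸ H)
      rw [QuotientAddGroup.eq]
      have : -(-(x + l.L)) + -x = l.L := by ring
      rw [this]
      exact hLH
    rw [e1, e2]
  · intro x hx
    have hne : mk x ≠ mk (-x) := by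
      intro h
      have h' : ((x : ℝ) : ℝ ⧸ H) = ((-x : ℝ) : ℝ ⧸ H) := h
      rw [QuotientAddGroup.eq] at h'
      obtain ⟨m, n, hmn⟩ := hmemH _ h'
      exact hx ⟨-m, -n, by push_cast; linarith⟩
    rw [neg_neg]
    constructor
    · intro h1 h2
      exact asymm_of r h1 h2
    · intro h1
      rcases trichotomous_of r (mk x) (mk (-x)) with h | h | h
      · exact absurd h h1
      · exact absurd h hne
      · exact h

end Pool.Agent.Helper46.Gardner
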